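import Pool.Agent.Work.MP_23451d_ld.Interface

/-!
# Block BLC: comparison of balls in a quasi-transitive graph
-/

set_option autoImplicit false

namespace Pool.L2D

open SimpleGraph Pool.L2B

section BLC

variable {V : Type} {G : SimpleGraph V}

theorem BLC_step (hG : G.Connected) (x v : V) (d : ℕ) (h : G.dist x v = d + 1) :
    ∃ z, G.Adj v z ∧ G.dist x z = d := by
  obtain ⟨p, hp⟩ := hG.exists_walk_length_eq_dist v x
  rw [SimpleGraph.dist_comm, h] at hp
  cases p with
  | nil => simp at hp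
  | @cons _ z _ hadj p' =>
    refine ⟨z, hadj, ?_⟩
    rw [Walk.length_cons] at hp
    have h1 : G.dist z x ≤ p'.length := SimpleGraph.dist_le p'
    have h2 : G.dist x v ≤ G.dist x z + G.dist z v := hG.dist_triangle
    have h3 : G.dist z v = 1 := SimpleGraph.dist_eq_one_iff_adj.2 hadj.symm
    rw [SimpleGraph.dist_comm] at h1
    omega

theorem BLC_iso_le (hG : G.Connected) (φ : G ≃g G) (x y : V) :
    G.dist (φ x) (φ y) ≤ G.dist x y := by
  obtain ⟨p, hp⟩ := hG.exists_walk_length_eq_dist x y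
  have h1 : G.dist (φ x) (φ y) ≤ (p.map φ.toHom).length := SimpleGraph.dist_le _
  rw [Walk.length_map, hp] at h1
  exact h1

theorem BLC_iso (hG : G.Connected) (φ : G ≃g G) (x y : V) :
    G.dist (φ x) (φ y) = G.dist x y := by
  refine le_antisymm (BLC_iso_le hG φ x y) ?_
  have := BLC_iso_le hG φ.symm (φ x) (φ y)
  simpa using this

theorem BLC_fin (hG : G.Connected) (hf : ∀ v, (G.neighborSet v).Finite) (x : V) (k : ℕ) :
    {v | G.dist x v ≤ k}.Finite := by
  induction k with
  | zero =>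
    refine (Set.finite_singleton x).subset ?_
    intro v hv
    have h1 : G.dist x v = 0 := Nat.le_zero.1 hv
    have h2 := hG.dist_eq_zero_iff.1 h1
    exact h2.symm
  | succ k ih =>
    refine (ih.union (ih.biUnion fun z _ => hf z)).subset ?_
    intro v hv
    have h1 : G.dist x v ≤ k + 1 := hv
    rcases Nat.lt_or_ge k (G.dist x v) with h2 | h2
    · obtain ⟨z, hz1, hz2⟩ := BLC_step hG x v k (by omega)
      right
      rw [Set.mem_iUnion₂]
      exact ⟨z, hz2.le, hz1.symm⟩
    · exact Or.inl h2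

theorem BLC_card_iso (hG : G.Connected) (φ : G ≃g G) (x : V) (k : ℕ) :
    {v | G.dist (φ x) v ≤ k}.ncard = {v | G.dist x v ≤ k}.ncard := by
  have h1 : {v | G.dist (φ x) v ≤ k} = φ '' {v | G.dist x v ≤ k} := by
    ext v
    constructor
    · intro hv
      refine ⟨φ.symm v, ?_, by simp⟩
      have h2 : G.dist (φ x) v ≤ k := hv
      have h3 := BLC_iso hG φ x (φ.symm v)
      rw [φ.apply_symm_apply] at h3
      show G.dist x (φ.symm v) ≤ k
      omega
    · rintro ⟨w, hw, rfl⟩
      show G.dist (φ x) (φ w) ≤ k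
      rw [BLC_iso hG]
      exact hw
  rw [h1, Set.ncard_image_of_injective _ φ.injective]

/-- a common bound of the degrees gives the growth of the balls -/
theorem BLC_grow1 (hG : G.Connected) (hf : ∀ v, (G.neighborSet v).Finite) (m : ℕ)
    (hm : ∀ v, (G.neighborSet v).ncard + 1 ≤ m) (x : V) (k : ℕ) :
    {v | G.dist x v ≤ k + 1}.ncard ≤ m * {v | G.dist x v ≤ k}.ncard := by
  classical
  have hB := BLC_fin hG hf x k
  have h1 : {v | G.dist x v ≤ k + 1} ⊆
      ((hB.toFinset.biUnion fun z => insert z (hf z).toFinset : Finset V) : Set V) := by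
    intro v hv
    have h1 : G.dist x v ≤ k + 1 := hv
    rw [Finset.mem_coe, Finset.mem_biUnion]
    rcases Nat.lt_or_ge k (G.dist x v) with h2 | h2
    · obtain ⟨z, hz1, hz2⟩ := BLC_step hG x v k (by omega)
      refine ⟨z, hB.mem_toFinset.2 hz2.le, ?_⟩
      rw [Finset.mem_insert, (hf z).mem_toFinset]
      exact Or.inr hz1.symm
    · exact ⟨v, hB.mem_toFinset.2 h2, Finset.mem_insert_self _ _⟩
  have h2 := Set.ncard_le_ncard h1 (Finset.finite_toSet _)
  rw [Set.ncard_coe_finset] at h2
  refine h2.trans ?_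
  have h3 : (hB.toFinset.biUnion fun z => insert z (hf z).toFinset).card ≤
      hB.toFinset.card * m := by
    apply Finset.card_biUnion_le_card_mul
    intro z _
    refine (Finset.card_insert_le _ _).trans ?_
    rw [← Set.ncard_eq_toFinset_card _ (hf z)]
    exact hm z
  rw [Set.ncard_eq_toFinset_card _ hB, mul_comm m]
  exact h3

theorem BLC_grow (hG : G.Connected) (hf : ∀ v, (G.neighborSet v).Finite) (m : ℕ)
    (hm : ∀ v, (G.neighborSet v).ncard + 1 ≤ m) (x : V) (k j : ℕ) :
    {v | G.dist x v ≤ k + j}.ncard ≤ m ^ j * {v | G.dist x v ≤ k}.ncard := by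
  induction j with
  | zero => simp
  | succ j ih =>
    have h1 := BLC_grow1 hG hf m hm x (k + j)
    calc {v | G.dist x v ≤ k + (j + 1)}.ncard ≤ m * {v | G.dist x v ≤ k + j}.ncard := h1
      _ ≤ m * (m ^ j * {v | G.dist x v ≤ k}.ncard) := Nat.mul_le_mul_left _ ih
      _ = m ^ (j + 1) * {v | G.dist x v ≤ k}.ncard := by ring

/-- a vertex at every distance -/
theorem BLC_dist (hG : G.Connected) (x : V) (j : ℕ) : ∀ (n : ℕ) (v : V), G.dist x v = j + n →
    ∃ w, G.dist x w = j := by
  intro n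
  induction n with
  | zero => intro v hv; exact ⟨v, by simpa using hv⟩
  | succ n ih =>
    intro v hv
    obtain ⟨z, -, hz⟩ := BLC_step hG x v (j + n) (by omega)
    exact ih z hz

theorem BLC_large (hG : G.Connected) (hf : ∀ v, (G.neighborSet v).Finite) [Infinite V] (x : V)
    (k : ℕ) : k + 1 ≤ {v | G.dist x v ≤ k}.ncard := by
  have hex : ∀ j : ℕ, ∃ w, G.dist x w = j := by
    intro j
    obtain ⟨v, hv⟩ := (BLC_fin hG hf x j).exists_notMem
    have hv' : ¬ G.dist x v ≤ j := hv
    exact BLC_dist hG x j (G.dist x v - j) v (by omega)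
  choose w hw using hex
  have h1 : (w '' (Set.Iic k)) ⊆ {v | G.dist x v ≤ k} := by
    rintro _ ⟨j, hj, rfl⟩
    show G.dist x (w j) ≤ k
    rw [hw]
    exact hj
  have hinj : Function.Injective w := by
    intro i j hij
    rw [← hw i, ← hw j, hij]
  have h2 := Set.ncard_le_ncard h1 (BLC_fin hG hf x k)
  rw [Set.ncard_image_of_injective _ hinj] at h2
  have h3 : (Set.Iic k).ncard = k + 1 := by
    rw [← Finset.coe_Iic, Set.ncard_coe_finset, Nat.card_Iic]
  omega

end BLC

theorem p_BLC : Stmt_BLC := by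
  classical
  intro V G hG hf hQT hinf
  obtain ⟨F, hF⟩ := hQT
  have hfin := BLC_fin hG hf
  -- the bound of the degrees
  obtain ⟨m0, hm0⟩ : ∃ m0 : ℕ, ∀ u ∈ F, (G.neighborSet u).ncard + 1 ≤ m0 :=
    ⟨F.sup fun u => (G.neighborSet u).ncard + 1, fun u hu =>
      Finset.le_sup (f := fun u => (G.neighborSet u).ncard + 1) hu⟩
  have hm : ∀ v, (G.neighborSet v).ncard + 1 ≤ m0 + 1 := by
    intro v
    obtain ⟨φ, u, hu, rfl⟩ := hF v
    have h1 : G.neighborSet (φ u) = φ '' G.neighborSet u := by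
      ext w
      constructor
      · intro hw
        have hw' : G.Adj (φ u) w := hw
        refine ⟨φ.symm w, ?_, by simp⟩
        show G.Adj u (φ.symm w)
        rw [← φ.map_adj_iff, φ.apply_symm_apply]
        exact hw'
      · rintro ⟨w, hw, rfl⟩
        show G.Adj (φ u) (φ w)
        rw [φ.map_adj_iff]
        exact hw
    rw [h1, Set.ncard_image_of_injective _ φ.injective]
    have := hm0 u hu
    omega
  set m := m0 + 1 with hmdef
  have hm1 : 1 ≤ m := by omega
  -- the distance to the orbits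
  obtain ⟨R, hR⟩ : ∃ R : ℕ, ∀ u ∈ F, ∀ u' ∈ F, G.dist u u' ≤ R :=
    ⟨(F ×ˢ F).sup fun x => G.dist x.1 x.2, fun u hu u' hu' =>
      Finset.le_sup (f := fun x : V × V => G.dist x.1 x.2) (Finset.mk_mem_product hu hu')⟩
  have horb : ∀ v z : V, ∃ φ : G ≃g G, G.dist v (φ z) ≤ R := by
    intro v z
    obtain ⟨φ, u, hu, rfl⟩ := hF v
    obtain ⟨ψ, u', hu', rfl⟩ := hF z
    refine ⟨ψ.symm.trans φ, ?_⟩
    have h1 : (ψ.symm.trans φ) (ψ u') = φ u' := by simp
    rw [h1, BLC_iso hG]
    exact hR u hu u' hu'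
  -- comparison of balls
  have hcomp : ∀ (x y : V) (k : ℕ),
      {v | G.dist y v ≤ k}.ncard ≤ {v | G.dist x v ≤ k + R}.ncard := by
    intro x y k
    obtain ⟨φ, hφ⟩ := horb x y
    rw [← BLC_card_iso hG φ y k]
    refine Set.ncard_le_ncard ?_ (hfin x (k + R))
    intro v hv
    have h1 : G.dist (φ y) v ≤ k := hv
    have h2 : G.dist x v ≤ G.dist x (φ y) + G.dist (φ y) v := hG.dist_triangle
    show G.dist x v ≤ k + R
    omega
  have hgrow := BLC_grow hG hf m hm
  have hball : ∀ (v : V) (j : ℕ), {w | G.dist v w ≤ j}.ncard ≤ m ^ j := by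
    intro v j
    have h1 := hgrow v 0 j
    have h2 : {w | G.dist v w ≤ 0}.ncard ≤ 1 := by
      rw [Set.ncard_le_one (hfin v 0)]
      intro a ha b hb
      have ha' : G.dist v a = 0 := Nat.le_zero.1 ha
      have hb' : G.dist v b = 0 := Nat.le_zero.1 hb
      rw [← hG.dist_eq_zero_iff.1 ha', ← hG.dist_eq_zero_iff.1 hb']
    rw [zero_add] at h1
    calc {w | G.dist v w ≤ j}.ncard ≤ m ^ j * {w | G.dist v w ≤ 0}.ncard := h1
      _ ≤ m ^ j * 1 := Nat.mul_le_mul_left _ h2
      _ = m ^ j := mul_one _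
  refine ⟨2 * m ^ (3 * R + 1), m ^ R + R + 1, ?_, by omega, ?_, hfin, ?_, ?_, ?_⟩
  · have : 1 ≤ m ^ (3 * R + 1) := Nat.one_le_pow _ _ hm1
    omega
  · intro x
    have h1 := hm x
    have h2 : m ^ 1 ≤ m ^ (3 * R + 1) := Nat.pow_le_pow_right hm1 (by omega)
    rw [pow_one] at h2
    omega
  · intro k hk x y
    have h1 := hcomp x y k
    have h2 := hgrow x (k - 1) (R + 1)
    have h3 : k - 1 + (R + 1) = k + R := by omega
    rw [h3] at h2
    have h4 : m ^ (R + 1) ≤ 2 * m ^ (3 * R + 1) := by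
      have : m ^ (R + 1) ≤ m ^ (3 * R + 1) := Nat.pow_le_pow_right hm1 (by omega)
      omega
    calc {v | G.dist y v ≤ k}.ncard ≤ {v | G.dist x v ≤ k + R}.ncard := h1
      _ ≤ m ^ (R + 1) * {v | G.dist x v ≤ k - 1}.ncard := h2
      _ ≤ 2 * m ^ (3 * R + 1) * {v | G.dist x v ≤ k - 1}.ncard := Nat.mul_le_mul_right _ h4
  · intro k hk x y z
    set O := {v | (∃ φ : G ≃g G, φ z = v) ∧ v ≠ x ∧ G.dist x v ≤ k} with hO
    set O' := {v | (∃ φ : G ≃g G, φ z = v) ∧ G.dist x v ≤ k} with hO'
    have hO'fin : O'.Finite := (hfin x k).subset fun v hv => hv.2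
    have hOfin : O.Finite := (hfin x k).subset fun v hv => hv.2.2
    -- the map to the orbit
    have hmap : {v | G.dist x v ≤ k - R}.ncard ≤ m ^ R * O'.ncard := by
      choose φ hφ using fun v => horb v z
      have h1 : ∀ v ∈ (hfin x (k - R)).toFinset, φ v z ∈ hO'fin.toFinset := by
        intro v hv
        rw [(hfin x (k - R)).mem_toFinset] at hv
        rw [hO'fin.mem_toFinset]
        refine ⟨⟨φ v, rfl⟩, ?_⟩
        have h2 : G.dist x v ≤ k - R := hv
        have h3 : G.dist x (φ v z) ≤ G.dist x v + G.dist v (φ v z) := hG.dist_triangle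
        have h4 := hφ v
        omega
      have h2 := Finset.card_le_mul_card_image_of_maps_to (s := (hfin x (k - R)).toFinset)
        (t := hO'fin.toFinset) (f := fun v => φ v z) h1 (m ^ R) (by
          intro w hw
          refine le_trans ?_ (hball w R)
          rw [Set.ncard_eq_toFinset_card _ (hfin w R)]
          apply Finset.card_le_card
          intro v hv
          rw [Finset.mem_filter] at hv
          rw [(hfin w R).mem_toFinset]
          show G.dist w v ≤ R
          rw [← hv.2, SimpleGraph.dist_comm]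
          exact hφ v)
      rw [Set.ncard_eq_toFinset_card _ (hfin x (k - R)), Set.ncard_eq_toFinset_card _ hO'fin]
      exact h2
    have hlarge := BLC_large hG hf x (k - R)
    have hO'2 : 2 ≤ O'.ncard := by
      by_contra hcon
      have h1 : O'.ncard ≤ 1 := by omega
      have h2 : m ^ R * O'.ncard ≤ m ^ R * 1 := Nat.mul_le_mul_left _ h1
      omega
    have hOO' : O'.ncard ≤ O.ncard + 1 := by
      have h1 : O' ⊆ insert x O := by
        intro v hv
        by_cases hvx : v = x
        · exact Or.inl hvx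
        · exact Or.inr ⟨hv.1, hvx, hv.2⟩
      exact (Set.ncard_le_ncard h1 (hOfin.insert x)).trans (Set.ncard_insert_le x O)
    have h5 : O'.ncard ≤ 2 * O.ncard := by omega
    have h1 := hcomp x y k
    have h2 := hgrow x (k - R) (2 * R)
    have h3 : k - R + 2 * R = k + R := by omega
    rw [h3] at h2
    calc {v | G.dist y v ≤ k}.ncard ≤ {v | G.dist x v ≤ k + R}.ncard := h1
      _ ≤ m ^ (2 * R) * {v | G.dist x v ≤ k - R}.ncard := h2
      _ ≤ m ^ (2 * R) * (m ^ R * (2 * O.ncard)) :=
        Nat.mul_le_mul_left _ (hmap.trans (Nat.mul_le_mul_left _ h5))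
      _ = 2 * m ^ (3 * R) * O.ncard := by ring
      _ ≤ 2 * m ^ (3 * R + 1) * O.ncard := by
        apply Nat.mul_le_mul_right
        apply Nat.mul_le_mul_left
        exact Nat.pow_le_pow_right hm1 (by omega)
  · intro n
    refine ⟨n, fun k hk x => ?_⟩
    have := BLC_large hG hf x k
    omega

end Pool.L2D
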