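import Pool.Agent.Work.MP_23451d_ld.Interface

/-!
# Block CHG: the inequality of Cheeger with weights (MP_23451d_pr)
-/

set_option autoImplicit false

namespace Pool.L2D

open SimpleGraph Pool.L2B

open Classical in
theorem CHG_coarea {V : Type} (G : SimpleGraph V) (hf : ∀ v, (G.neighborSet v).Finite) (w : V → ℝ)
    (r c : ℝ)
    (hiso : ∀ K : Finset V, c * r * ∑ x ∈ K, w x ^ 2 ≤
      ∑ x ∈ K, w x * ∑ y ∈ (hf x).toFinset.filter (fun y => y ∉ K), w y) :
    ∀ (K : Finset V) (u : V → ℝ), (∀ x ∈ K, 0 ≤ u x) →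
      2 * (c * r * ∑ x ∈ K, w x ^ 2 * u x) ≤
        ∑ x ∈ K, ∑ y ∈ K, (if G.Adj x y then w x * w y else 0) * |u x - u y| +
        2 * ∑ x ∈ K, u x * (w x * ∑ y ∈ (hf x).toFinset.filter (fun y => y ∉ K), w y) := by
  intro K
  induction K using Finset.strongInduction with
  | H K ih =>
    intro u hu
    rcases K.eq_empty_or_nonempty with rfl | hne
    · simp
    obtain ⟨x0, hx0, hmin⟩ := K.exists_min_image u hne
    have ht : 0 ≤ u x0 := hu x0 hx0
    have h1 := ih (K.erase x0) (Finset.erase_ssubset hx0) (fun x => u x - u x0)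
      (fun x hx => sub_nonneg.2 (hmin x (Finset.mem_of_mem_erase hx)))
    have h2 := mul_le_mul_of_nonneg_left (hiso K) (mul_nonneg (zero_le_two (α := ℝ)) ht)
    -- the left side
    have e1 : ∑ x ∈ K.erase x0, w x ^ 2 * (u x - u x0) =
        ∑ x ∈ K, w x ^ 2 * u x - u x0 * ∑ x ∈ K, w x ^ 2 := by
      rw [Finset.sum_erase K (by simp : w x0 ^ 2 * (u x0 - u x0) = 0), Finset.mul_sum,
        ← Finset.sum_sub_distrib]
      exact Finset.sum_congr rfl (fun x _ => by ring)
    -- the cross terms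
    have e2 : ∀ x, ∑ y ∈ K.erase x0, (if G.Adj x y then w x * w y else 0) *
          |(u x - u x0) - (u y - u x0)| =
        ∑ y ∈ K, (if G.Adj x y then w x * w y else 0) * |u x - u y| -
          (if G.Adj x x0 then w x * w x0 else 0) * |u x - u x0| := by
      intro x
      rw [eq_sub_iff_add_eq, ← Finset.sum_erase_add K _ hx0]
      congr 1
      exact Finset.sum_congr rfl (fun y _ => by congr 2; ring)
    have e3 : ∑ x ∈ K.erase x0, ∑ y ∈ K.erase x0, (if G.Adj x y then w x * w y else 0) *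
          |(u x - u x0) - (u y - u x0)| =
        ∑ x ∈ K, ∑ y ∈ K, (if G.Adj x y then w x * w y else 0) * |u x - u y| -
          2 * ∑ x ∈ K, (if G.Adj x x0 then w x * w x0 else 0) * (u x - u x0) := by
      rw [Finset.sum_congr rfl (fun x _ => e2 x), Finset.sum_sub_distrib,
        Finset.sum_erase_eq_sub hx0,
        Finset.sum_erase K (by simp : (if G.Adj x0 x0 then w x0 * w x0 else 0) *
          |u x0 - u x0| = 0)]
      have a1 : ∑ y ∈ K, (if G.Adj x0 y then w x0 * w y else 0) * |u x0 - u y| =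
          ∑ x ∈ K, (if G.Adj x x0 then w x * w x0 else 0) * (u x - u x0) := by
        refine Finset.sum_congr rfl (fun y hy => ?_)
        rw [abs_sub_comm, abs_of_nonneg (sub_nonneg.2 (hmin y hy))]
        by_cases h : G.Adj x0 y
        · rw [if_pos h, if_pos h.symm]; ring
        · rw [if_neg h, if_neg (fun h' => h h'.symm)]
      have a2 : ∑ x ∈ K, (if G.Adj x x0 then w x * w x0 else 0) * |u x - u x0| =
          ∑ x ∈ K, (if G.Adj x x0 then w x * w x0 else 0) * (u x - u x0) := by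
        refine Finset.sum_congr rfl (fun y hy => ?_)
        rw [abs_of_nonneg (sub_nonneg.2 (hmin y hy))]
      rw [a1, a2]; ring
    -- the boundary terms
    have e4 : ∀ x, ∑ y ∈ (hf x).toFinset.filter (fun y => y ∉ K.erase x0), w y =
        ∑ y ∈ (hf x).toFinset.filter (fun y => y ∉ K), w y + (if G.Adj x x0 then w x0 else 0) := by
      intro x
      rw [Finset.sum_filter, Finset.sum_filter]
      by_cases h : G.Adj x x0
      · rw [if_pos h]
        have hm : x0 ∈ (hf x).toFinset := by simpa using h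
        rw [← Finset.sum_erase_add _ _ hm, ← Finset.sum_erase_add (hf x).toFinset
          (fun y => if y ∉ K then w y else 0) hm]
        rw [if_pos (by simp : x0 ∉ K.erase x0), if_neg (by simpa using hx0), add_zero]
        congr 1
        refine Finset.sum_congr rfl (fun y hy => ?_)
        have hne : y ≠ x0 := Finset.ne_of_mem_erase hy
        simp [hne]
      · rw [if_neg h, add_zero]
        refine Finset.sum_congr rfl (fun y hy => ?_)
        have hne : y ≠ x0 := by
          rintro rfl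
          exact h (by simpa using hy)
        simp [hne]
    have e5 : ∑ x ∈ K.erase x0, (u x - u x0) * (w x *
          ∑ y ∈ (hf x).toFinset.filter (fun y => y ∉ K.erase x0), w y) =
        ∑ x ∈ K, u x * (w x * ∑ y ∈ (hf x).toFinset.filter (fun y => y ∉ K), w y) -
        u x0 * ∑ x ∈ K, w x * ∑ y ∈ (hf x).toFinset.filter (fun y => y ∉ K), w y +
        ∑ x ∈ K, (if G.Adj x x0 then w x * w x0 else 0) * (u x - u x0) := by
      rw [Finset.sum_erase K (by simp : (u x0 - u x0) * (w x0 *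
        ∑ y ∈ (hf x0).toFinset.filter (fun y => y ∉ K.erase x0), w y) = 0), Finset.mul_sum,
        ← Finset.sum_sub_distrib, ← Finset.sum_add_distrib]
      refine Finset.sum_congr rfl (fun x _ => ?_)
      rw [e4 x]
      by_cases h : G.Adj x x0
      · simp only [if_pos h]; ring
      · simp only [if_neg h]; ring
    beta_reduce at h1
    rw [e1, e3, e5] at h1
    linarith

theorem p_CHG : Stmt_CHG := by
  classical
  intro V G hf w r c hw hr hc0 hc1 hsum hiso K f
  have hA : ∀ x y, (0 : ℝ) ≤ (if G.Adj x y then w x * w y else 0) := by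
    intro x y
    split_ifs
    · exact mul_nonneg (hw x).le (hw y).le
    · exact le_rfl
  have hAs : ∀ x y, (if G.Adj x y then w x * w y else 0) =
      (if G.Adj y x then w y * w x else 0) := by
    intro x y
    by_cases h : G.Adj x y
    · rw [if_pos h, if_pos h.symm, mul_comm]
    · rw [if_neg h, if_neg (fun h' => h h'.symm)]
  set A : V → V → ℝ := fun x y => if G.Adj x y then w x * w y else 0 with hAdef
  set g : V → ℝ := fun x => |f x| / w x with hg
  have hg0 : ∀ x, 0 ≤ g x := fun x => div_nonneg (abs_nonneg _) (hw x).le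
  have hgw : ∀ x, g x * w x = |f x| := fun x => div_mul_cancel₀ _ (hw x).ne'
  set B : V → ℝ := fun x => w x * ∑ y ∈ (hf x).toFinset.filter (fun y => y ∉ K), w y with hB
  have hB0 : ∀ x, 0 ≤ B x := fun x => mul_nonneg (hw x).le (Finset.sum_nonneg (fun y _ => (hw y).le))
  -- the mass
  have hmass : ∀ x, ∑ y ∈ K, A x y + B x = r * w x ^ 2 := by
    intro x
    have e : ∑ y ∈ K, A x y = w x * ∑ y ∈ (hf x).toFinset.filter (fun y => y ∈ K), w y := by
      simp only [hAdef]
      rw [← Finset.sum_filter, Finset.mul_sum]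
      refine Finset.sum_congr ?_ (fun y _ => rfl)
      ext y
      simp [and_comm]
    rw [e, hB]
    simp only []
    rw [← mul_add, Finset.sum_filter_add_sum_filter_not, hsum x]
    ring
  set P : ℝ := ∑ x ∈ K, r * w x ^ 2 * g x ^ 2 with hP
  set E : ℝ := ∑ x ∈ K, ∑ y ∈ K, A x y * (g x * g y) with hE
  have hPf : P = r * ∑ x ∈ K, f x ^ 2 := by
    rw [hP, Finset.mul_sum]
    refine Finset.sum_congr rfl (fun x _ => ?_)
    have := hgw x
    calc r * w x ^ 2 * g x ^ 2 = r * (g x * w x) ^ 2 := by ring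
      _ = r * f x ^ 2 := by rw [this, sq_abs]
  have hP0 : 0 ≤ P := by
    rw [hPf]
    exact mul_nonneg hr.le (Finset.sum_nonneg (fun x _ => sq_nonneg _))
  have hEf : ∑ x ∈ K, ∑ y ∈ K, (if G.Adj x y then f x * f y else 0) ≤ E := by
    refine Finset.sum_le_sum (fun x _ => Finset.sum_le_sum (fun y _ => ?_))
    simp only [hAdef]
    by_cases h : G.Adj x y
    · rw [if_pos h, if_pos h]
      calc f x * f y ≤ |f x * f y| := le_abs_self _
        _ = |f x| * |f y| := abs_mul _ _
        _ = (g x * w x) * (g y * w y) := by rw [hgw, hgw]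
        _ = w x * w y * (g x * g y) := by ring
    · rw [if_neg h, if_neg h, zero_mul]
  -- the sum of squares
  have hdiag : ∑ x ∈ K, ∑ y ∈ K, A x y * g x ^ 2 + ∑ x ∈ K, g x ^ 2 * B x = P := by
    rw [hP, ← Finset.sum_add_distrib]
    refine Finset.sum_congr rfl (fun x _ => ?_)
    rw [← Finset.sum_mul, ← hmass x]
    ring
  have hdiag2 : ∑ x ∈ K, ∑ y ∈ K, A x y * g y ^ 2 = ∑ x ∈ K, ∑ y ∈ K, A x y * g x ^ 2 := by
    rw [Finset.sum_comm]
    refine Finset.sum_congr rfl (fun x _ => Finset.sum_congr rfl (fun y _ => ?_))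
    rw [show A y x = A x y from hAs y x]
  have hco := CHG_coarea G hf w r c hiso K (fun x => g x ^ 2) (fun x _ => sq_nonneg _)
  have hco' : 2 * (c * P) ≤ ∑ x ∈ K, ∑ y ∈ K, A x y * (|g x - g y| * (g x + g y)) +
      2 * ∑ x ∈ K, g x ^ 2 * B x := by
    have e1 : c * r * ∑ x ∈ K, w x ^ 2 * g x ^ 2 = c * P := by
      rw [hP, mul_assoc, Finset.mul_sum]
      congr 1
      exact Finset.sum_congr rfl (fun x _ => by ring)
    have e2 : ∑ x ∈ K, ∑ y ∈ K, A x y * |g x ^ 2 - g y ^ 2| =
        ∑ x ∈ K, ∑ y ∈ K, A x y * (|g x - g y| * (g x + g y)) := by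
      refine Finset.sum_congr rfl (fun x _ => Finset.sum_congr rfl (fun y _ => ?_))
      congr 1
      rw [show g x ^ 2 - g y ^ 2 = (g x - g y) * (g x + g y) by ring, abs_mul,
        abs_of_nonneg (add_nonneg (hg0 x) (hg0 y))]
    beta_reduce at hco
    rw [e1] at hco
    rw [← e2]
    exact hco
  -- the quadratic polynomial
  have hX : ∑ x ∈ K, ∑ y ∈ K, A x y * (g x - g y) ^ 2 + 2 * ∑ x ∈ K, g x ^ 2 * B x =
      2 * P - 2 * E := by
    have : ∑ x ∈ K, ∑ y ∈ K, A x y * (g x - g y) ^ 2 =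
        ∑ x ∈ K, ∑ y ∈ K, A x y * g x ^ 2 + ∑ x ∈ K, ∑ y ∈ K, A x y * g y ^ 2 -
        2 * ∑ x ∈ K, ∑ y ∈ K, A x y * (g x * g y) := by
      simp only [Finset.mul_sum, ← Finset.sum_add_distrib, ← Finset.sum_sub_distrib]
      exact Finset.sum_congr rfl (fun x _ => Finset.sum_congr rfl (fun y _ => by ring))
    rw [this, hdiag2]
    linarith
  have hY : ∑ x ∈ K, ∑ y ∈ K, A x y * (g x + g y) ^ 2 + 2 * ∑ x ∈ K, g x ^ 2 * B x =
      2 * P + 2 * E := by
    have : ∑ x ∈ K, ∑ y ∈ K, A x y * (g x + g y) ^ 2 =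
        ∑ x ∈ K, ∑ y ∈ K, A x y * g x ^ 2 + ∑ x ∈ K, ∑ y ∈ K, A x y * g y ^ 2 +
        2 * ∑ x ∈ K, ∑ y ∈ K, A x y * (g x * g y) := by
      simp only [Finset.mul_sum, ← Finset.sum_add_distrib]
      exact Finset.sum_congr rfl (fun x _ => Finset.sum_congr rfl (fun y _ => by ring))
    rw [this, hdiag2]
    linarith
  have hX0 : 0 ≤ 2 * P - 2 * E := by
    rw [← hX]
    refine add_nonneg (Finset.sum_nonneg (fun x _ => Finset.sum_nonneg (fun y _ =>
      mul_nonneg (hA x y) (sq_nonneg _)))) (mul_nonneg zero_le_two (Finset.sum_nonneg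
      (fun x _ => mul_nonneg (sq_nonneg _) (hB0 x))))
  have hY0 : 0 ≤ 2 * P + 2 * E := by
    rw [← hY]
    refine add_nonneg (Finset.sum_nonneg (fun x _ => Finset.sum_nonneg (fun y _ =>
      mul_nonneg (hA x y) (sq_nonneg _)))) (mul_nonneg zero_le_two (Finset.sum_nonneg
      (fun x _ => mul_nonneg (sq_nonneg _) (hB0 x))))
  have hquad : ∀ l : ℝ, 0 ≤ (2 * P - 2 * E) * (l * l) + (-(4 * (c * P))) * l + (2 * P + 2 * E) := by
    intro l
    rcases le_total 0 l with hl | hl
    · have h1 : 0 ≤ ∑ x ∈ K, ∑ y ∈ K, A x y * (l * |g x - g y| - (g x + g y)) ^ 2 +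
          2 * ∑ x ∈ K, (l - 1) ^ 2 * (g x ^ 2 * B x) := by
        refine add_nonneg (Finset.sum_nonneg (fun x _ => Finset.sum_nonneg (fun y _ =>
          mul_nonneg (hA x y) (sq_nonneg _)))) (mul_nonneg zero_le_two (Finset.sum_nonneg
          (fun x _ => mul_nonneg (sq_nonneg _) (mul_nonneg (sq_nonneg _) (hB0 x)))))
      have h2 : ∑ x ∈ K, ∑ y ∈ K, A x y * (l * |g x - g y| - (g x + g y)) ^ 2 =
          l * l * ∑ x ∈ K, ∑ y ∈ K, A x y * (g x - g y) ^ 2 -
          2 * l * ∑ x ∈ K, ∑ y ∈ K, A x y * (|g x - g y| * (g x + g y)) +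
          ∑ x ∈ K, ∑ y ∈ K, A x y * (g x + g y) ^ 2 := by
        simp only [Finset.mul_sum, ← Finset.sum_add_distrib, ← Finset.sum_sub_distrib]
        refine Finset.sum_congr rfl (fun x _ => Finset.sum_congr rfl (fun y _ => ?_))
        have h3 : |g x - g y| ^ 2 = (g x - g y) ^ 2 := sq_abs _
        calc A x y * (l * |g x - g y| - (g x + g y)) ^ 2 =
            A x y * (l * l * |g x - g y| ^ 2 - 2 * l * (|g x - g y| * (g x + g y)) +
              (g x + g y) ^ 2) := by ring
          _ = _ := by rw [h3]; ring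
      rw [h2, ← Finset.mul_sum] at h1
      have h4 := mul_le_mul_of_nonneg_left hco' (mul_nonneg zero_le_two hl)
      nlinarith [h1, h4, hX, hY]
    · have h1 : 0 ≤ c * P := mul_nonneg hc0 hP0
      have h2 : 0 ≤ (2 * P - 2 * E) * (l * l) := mul_nonneg hX0 (mul_self_nonneg l)
      have h3 : 0 ≤ (-(4 * (c * P))) * l := mul_nonneg_of_nonpos_of_nonpos (by linarith) hl
      linarith
  have hd := discrim_le_zero hquad
  have hE2 : E ^ 2 ≤ (Real.sqrt (1 - c ^ 2) * P) ^ 2 := by
    rw [mul_pow, Real.sq_sqrt (by nlinarith : (0 : ℝ) ≤ 1 - c ^ 2)]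
    unfold discrim at hd
    nlinarith [hd]
  have hEle : E ≤ Real.sqrt (1 - c ^ 2) * P :=
    le_trans (le_abs_self _) (abs_le_of_sq_le_sq hE2 (mul_nonneg (Real.sqrt_nonneg _) hP0))
  have hfin : ∑ x ∈ K, ∑ y ∈ K, (if G.Adj x y then f x * f y else 0) ≤
      Real.sqrt (1 - c ^ 2) * r * ∑ x ∈ K, f x ^ 2 := by
    calc _ ≤ E := hEf
      _ ≤ Real.sqrt (1 - c ^ 2) * P := hEle
      _ = _ := by rw [hPf]; ring
  convert hfin using 5

end Pool.L2D
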