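import Pool.Agent.Work.MP_23451d_ld.Interface

/-! # EXN: expansion of the powers of a nonamenable graph -/

set_option autoImplicit false

namespace Pool.L2D

open MeasureTheory SimpleGraph Pool.L2B
open scoped ENNReal

open Classical in
theorem EXN_card {V : Type} (H : SimpleGraph V) (K : Finset V) (B : V → Finset V)
    (hB : ∀ x ∈ K, ∀ y, y ∉ K → (y ∈ B x ↔ H.Adj x y)) :
    (bdE H (K : Set V)).ncard = (K.sigma (fun x => (B x).filter (fun y => y ∉ K))).card := by
  have e : bdE H (K : Set V) =
      ((K.sigma (fun x => (B x).filter (fun y => y ∉ K))).image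
        (fun s : (Σ _ : V, V) => (s.1, s.2)) : Set (V × V)) := by
    ext ⟨x, y⟩
    simp only [bdE, Set.mem_ofPred_eq, Finset.coe_image, Set.mem_image, Finset.mem_coe,
      Finset.mem_sigma, Finset.mem_filter]
    constructor
    · rintro ⟨h1, h2, h3⟩
      exact ⟨⟨x, y⟩, ⟨h1, (hB x h1 y h2).mpr h3, h2⟩, rfl⟩
    · rintro ⟨⟨a, b⟩, ⟨h1, h3, h2⟩, h⟩
      simp only [Prod.mk.injEq] at h
      obtain ⟨rfl, rfl⟩ := h
      exact ⟨h1, h2, (hB a h1 b h2).mp h3⟩
  rw [e, Set.ncard_coe_finset, Finset.card_image_of_injective]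
  rintro ⟨a, b⟩ ⟨a', b'⟩ h
  simp only [Prod.mk.injEq] at h
  obtain ⟨rfl, rfl⟩ := h
  rfl

theorem p_EXN : Stmt_EXN := by
  classical
  intro V G hG C c hC1 hc0 hdeg hball hcmp hch k hk H hH K x₀
  have hC0 : (0 : ℝ) < C := by
    have : (1 : ℝ) ≤ C := by exact_mod_cast hC1
    linarith
  by_cases hK : K.Nonempty
  swap
  · rw [Finset.not_nonempty_iff_eq_empty] at hK
    subst hK
    simp
  set NG : V → Finset V := fun y => (hdeg y).1.toFinset with hNG
  set B : V → Finset V := fun y => (hball y (k - 1)).toFinset with hB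
  set Bk : V → Finset V := fun y => (hball y k).toFinset with hBk
  set W : ℕ := {v | G.dist x₀ v ≤ k}.ncard with hW
  have hBcard : ∀ y, W ≤ C * (B y).card := by
    intro y
    have h1 := hcmp k hk y x₀
    rwa [Set.ncard_eq_toFinset_card _ (hball y (k - 1))] at h1
  have hBBk : ∀ y, B y ⊆ Bk y := by
    intro y v hv
    rw [hB, Set.Finite.mem_toFinset] at hv
    rw [hBk, Set.Finite.mem_toFinset]
    exact le_trans hv (Nat.sub_le _ _)
  set E := K.sigma (fun x => (NG x).filter (fun y => y ∉ K)) with hE
  set P := K.sigma (fun x => (Bk x).filter (fun y => y ∉ K)) with hP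
  have hEc : (bdE G (K : Set V)).ncard = E.card := by
    refine EXN_card G K NG ?_
    intro x _ y _
    rw [hNG, Set.Finite.mem_toFinset, SimpleGraph.mem_neighborSet]
  have hPc : (bdE H (K : Set V)).ncard = P.card := by
    refine EXN_card H K Bk ?_
    intro x hx y hy
    rw [hBk, Set.Finite.mem_toFinset, hH x y]
    exact ⟨fun h => ⟨fun h' => hy (h' ▸ hx), h⟩, fun h => h.2⟩
  set bad : V → Prop := fun y => (B y).card < 2 * ((B y).filter (fun v => v ∉ K)).card with hbad
  -- few bad vertices
  have h1 : (K.filter bad).card * W ≤ 2 * C * P.card := by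
    calc (K.filter bad).card * W = ∑ _y ∈ K.filter bad, W := by simp
      _ ≤ ∑ y ∈ K.filter bad, 2 * C * ((Bk y).filter (fun v => v ∉ K)).card := by
          refine Finset.sum_le_sum fun y hy => ?_
          rw [Finset.mem_filter] at hy
          have h2 : (B y).card < 2 * ((B y).filter (fun v => v ∉ K)).card := hy.2
          have h3 : ((B y).filter (fun v => v ∉ K)).card ≤
              ((Bk y).filter (fun v => v ∉ K)).card :=
            Finset.card_le_card (Finset.filter_subset_filter _ (hBBk y))
          calc W ≤ C * (B y).card := hBcard y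
            _ ≤ C * (2 * ((Bk y).filter (fun v => v ∉ K)).card) :=
                Nat.mul_le_mul_left _ (by omega)
            _ = _ := by ring
      _ ≤ ∑ y ∈ K, 2 * C * ((Bk y).filter (fun v => v ∉ K)).card :=
          Finset.sum_le_sum_of_subset (Finset.filter_subset _ _)
      _ = 2 * C * P.card := by rw [← Finset.mul_sum, hP, Finset.card_sigma]
  -- boundary edges with a bad tail
  have h2 : (E.filter (fun e => bad e.1)).card ≤ C * (K.filter bad).card := by
    have e1 : E.filter (fun e => bad e.1) =
        (K.filter bad).sigma (fun x => (NG x).filter (fun y => y ∉ K)) := by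
      ext ⟨x, y⟩
      simp only [hE, Finset.mem_filter, Finset.mem_sigma]
      tauto
    rw [e1, Finset.card_sigma]
    calc ∑ x ∈ K.filter bad, ((NG x).filter (fun y => y ∉ K)).card
        ≤ ∑ _x ∈ K.filter bad, C := by
          refine Finset.sum_le_sum fun x _ => ?_
          refine (Finset.card_filter_le _ _).trans ?_
          have := (hdeg x).2
          rwa [Set.ncard_eq_toFinset_card _ (hdeg x).1] at this
      _ = C * (K.filter bad).card := by simp [mul_comm]
  -- boundary edges with a good tail
  have h3 : (E.filter (fun e => ¬ bad e.1)).card * W ≤ 2 * C * (C * P.card) := by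
    have h4 : ∑ e ∈ E.filter (fun e => ¬ bad e.1), ((B e.1).filter (fun v => v ∈ K)).card ≤
        C * P.card := by
      rw [← Finset.card_sigma (E.filter (fun e => ¬ bad e.1))
        (fun e => (B e.1).filter (fun v => v ∈ K))]
      refine Finset.card_le_mul_card_image_of_maps_to
        (f := fun a : (Σ _ : (Σ _ : V, V), V) => (⟨a.2, a.1.2⟩ : (Σ _ : V, V))) ?_ C ?_
      · rintro ⟨⟨y, y'⟩, x⟩ ha
        simp only [hE, hP, Finset.mem_sigma, Finset.mem_filter] at ha ⊢
        obtain ⟨⟨⟨hyK, hy', hy'K⟩, _⟩, hx, hxK⟩ := ha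
        refine ⟨hxK, ?_, hy'K⟩
        rw [hNG, Set.Finite.mem_toFinset, SimpleGraph.mem_neighborSet] at hy'
        rw [hB, Set.Finite.mem_toFinset] at hx
        rw [hBk, Set.Finite.mem_toFinset]
        change G.dist y x ≤ k - 1 at hx
        change G.dist x y' ≤ k
        have t1 := hG.dist_triangle (u := x) (v := y) (w := y')
        have t2 : G.dist y y' = 1 := SimpleGraph.dist_eq_one_iff_adj.mpr hy'
        rw [SimpleGraph.dist_comm] at hx
        omega
      · rintro ⟨x, y'⟩ _
        calc _ ≤ (NG y').card := by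
              refine Finset.card_le_card_of_injOn (fun a => a.1.1) ?_ ?_
              · rintro ⟨⟨y, z⟩, v⟩ ha
                simp only [hE, Finset.coe_filter, Finset.mem_sigma, Finset.mem_filter,
                  Set.mem_ofPred_eq, Sigma.mk.injEq, heq_eq_eq] at ha
                obtain ⟨⟨⟨⟨_, hy', _⟩, _⟩, _⟩, _, rfl⟩ := ha
                rw [hNG, Set.Finite.mem_toFinset, SimpleGraph.mem_neighborSet] at hy'
                simp only [Finset.mem_coe, hNG, Set.Finite.mem_toFinset,
                  SimpleGraph.mem_neighborSet]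
                exact hy'.symm
              · rintro ⟨⟨y, z⟩, v⟩ ha ⟨⟨y₂, z₂⟩, v₂⟩ ha₂ h
                simp only [Finset.coe_filter, Set.mem_ofPred_eq, Sigma.mk.injEq, heq_eq_eq]
                  at ha ha₂
                obtain ⟨_, rfl, rfl⟩ := ha
                obtain ⟨_, rfl, rfl⟩ := ha₂
                simp only at h
                subst h
                rfl
          _ ≤ C := by
              have := (hdeg y').2
              rwa [Set.ncard_eq_toFinset_card _ (hdeg y').1] at this
    calc (E.filter (fun e => ¬ bad e.1)).card * W = ∑ _e ∈ E.filter (fun e => ¬ bad e.1), W := by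
          simp
      _ ≤ ∑ e ∈ E.filter (fun e => ¬ bad e.1),
            2 * C * ((B e.1).filter (fun v => v ∈ K)).card := by
          refine Finset.sum_le_sum fun e he => ?_
          rw [Finset.mem_filter] at he
          have h5 : ¬ (B e.1).card < 2 * ((B e.1).filter (fun v => v ∉ K)).card := he.2
          have h6 := Finset.card_filter_add_card_filter_not (s := B e.1) (fun v => v ∈ K)
          calc W ≤ C * (B e.1).card := hBcard e.1
            _ ≤ C * (2 * ((B e.1).filter (fun v => v ∈ K)).card) :=
                Nat.mul_le_mul_left _ (by omega)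
            _ = _ := by ring
      _ = 2 * C * ∑ e ∈ E.filter (fun e => ¬ bad e.1), ((B e.1).filter (fun v => v ∈ K)).card := by
          rw [← Finset.mul_sum]
      _ ≤ _ := Nat.mul_le_mul_left _ h4
  have h5 : E.card * W ≤ 4 * C ^ 2 * P.card := by
    have h6 := Finset.card_filter_add_card_filter_not (s := E) (fun e => bad e.1)
    calc E.card * W = (E.filter (fun e => bad e.1)).card * W +
          (E.filter (fun e => ¬ bad e.1)).card * W := by rw [← h6]; ring
      _ ≤ C * (2 * C * P.card) + 2 * C * (C * P.card) := by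
          refine add_le_add ?_ h3
          calc (E.filter (fun e => bad e.1)).card * W ≤ C * (K.filter bad).card * W :=
                Nat.mul_le_mul_right _ h2
            _ = C * ((K.filter bad).card * W) := by ring
            _ ≤ _ := Nat.mul_le_mul_left _ h1
      _ = _ := by ring
  have h7 : (E.card : ℝ) * W ≤ 4 * (C : ℝ) ^ 2 * P.card := by exact_mod_cast h5
  have h8 := hch K hK
  rw [hEc] at h8
  rw [hPc]
  have hW0 : (0 : ℝ) ≤ W := Nat.cast_nonneg _
  have h9 : c * (K.card : ℝ) * W ≤ 4 * (C : ℝ) ^ 2 * P.card :=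
    (mul_le_mul_of_nonneg_right h8 hW0).trans h7
  calc c / (4 * (C : ℝ) ^ 2) * (W : ℝ) * (K.card : ℝ)
      = (c * (K.card : ℝ) * W) / (4 * (C : ℝ) ^ 2) := by ring
    _ ≤ (P.card : ℝ) := by
        rw [div_le_iff₀ (by positivity)]
        linarith

end Pool.L2D
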