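import Pool.Agent.Work.MP_23451d_ld.Interface

/-! Block GRN: powers of the Green function (helper75). -/

set_option autoImplicit false

namespace Pool.L2D

open MeasureTheory SimpleGraph Pool.L2B
open scoped ENNReal

theorem GRN_nb {V : Type} (G : SimpleGraph V) (f : V → ℝ≥0∞) (x : V) (K : Finset V)
    (hK : (K : Set V) = G.neighborSet x) : nb G f x = ∑ y ∈ K, f y := by
  have h : ∀ S : Set V, (K : Set V) = S → ∑' y : S, f y.1 = ∑ y ∈ K, f y := by
    rintro _ rfl
    exact Finset.tsum_subtype' K f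
  exact h _ hK

theorem GRN_jensen {V : Type} (K : Finset V) (a h : V → ℝ) (ha : ∀ y ∈ K, 0 ≤ a y)
    (ha1 : ∑ y ∈ K, a y = 1) (hh : ∀ y ∈ K, 0 ≤ h y) {s : ℝ} (hs : 0 ≤ s) (hs1 : s ≤ 1) :
    ∑ y ∈ K, a y * h y ^ s ≤ (∑ y ∈ K, a y * h y) ^ s := by
  have h1 := (Real.concaveOn_rpow hs hs1).le_map_sum (t := K) (w := a) (p := h) ha ha1
    (fun y hy => hh y hy)
  simpa only [smul_eq_mul] using h1

theorem p_GRN (h1 : Stmt_WLK) (h2 : Stmt_MB) : Stmt_GRN := by
  intro V G hG hf w r ρ θ d hw hr hwr hρ hρθ hQ hd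
  have hθ : 0 < θ := hρ.trans hρθ
  obtain ⟨o⟩ := hG.nonempty
  set p : ℝ := 1 / (θ * r) with hp
  have hp0 : 0 < p := by positivity
  have hpl : p * (ρ * r) < 1 := by
    have : p * (ρ * r) = ρ / θ := by
      rw [hp]
      field_simp
    rw [this, div_lt_one hθ]
    exact hρθ
  obtain ⟨m1, -, -⟩ := h2 V G hf p (ρ * r) d hp0.le (by positivity) hpl hQ hd
  obtain ⟨sy, w1, w2, -, w3⟩ := h1 V G p
  set H : V → ℝ := fun x => (Wk G p o x).toReal with hH
  have hHpos : ∀ x, 0 < H x := fun x =>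
    ENNReal.toReal_pos (w3 o x (hG.preconnected o x) hp0) (m1 o x)
  have hHle : ∀ x, p * ∑ y ∈ (hf x).toFinset, H y ≤ H x := by
    intro x
    have e1 : Rk G p o x ≤ Wk G p o x := by
      by_cases h : o = x
      · rw [← h, w1 o]
        exact le_add_self
      · rw [w2 o x h]
    have e2 : Rk G p o x = ENNReal.ofReal p * ∑ y ∈ (hf x).toFinset, Wk G p o y := by
      unfold Rk
      rw [GRN_nb G _ x _ (Set.Finite.coe_toFinset (hf x))]
    have e3 := ENNReal.toReal_mono (m1 o x) e1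
    rw [e2, ENNReal.toReal_mul, ENNReal.toReal_ofReal hp0.le,
      ENNReal.toReal_sum fun y _ => m1 o y] at e3
    exact e3
  refine ⟨fun x => H x / w x, fun x => div_pos (hHpos x) (hw x), ?_⟩
  intro s hs hs1 x
  have hrw : 0 < r * w x := mul_pos hr (hw x)
  have e1 : ∑ y ∈ (hf x).toFinset, w y / (r * w x) = 1 := by
    rw [← Finset.sum_div, hwr x, div_self hrw.ne']
  have e2 := GRN_jensen (hf x).toFinset (fun y => w y / (r * w x)) (fun y => H y / w y)
    (fun y _ => (div_pos (hw y) hrw).le) e1 (fun y _ => (div_pos (hHpos y) (hw y)).le) hs hs1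
  have e3 : ∑ y ∈ (hf x).toFinset, w y / (r * w x) * (H y / w y) ≤ θ * (H x / w x) := by
    have e4 : ∀ y ∈ (hf x).toFinset, w y / (r * w x) * (H y / w y) = H y / (r * w x) := by
      intro y _
      have := (hw y).ne'
      field_simp
    rw [Finset.sum_congr rfl e4, ← Finset.sum_div, div_le_iff₀ hrw]
    have e5 := hHle x
    have e6 : θ * (H x / w x) * (r * w x) = θ * r * H x := by
      have := (hw x).ne'
      field_simp
    rw [e6]
    rw [hp, one_div, inv_mul_le_iff₀ (by positivity)] at e5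
    exact e5
  have e4 : (∑ y ∈ (hf x).toFinset, w y / (r * w x) * (H y / w y)) ^ s ≤
      (θ * (H x / w x)) ^ s := by
    refine Real.rpow_le_rpow ?_ e3 hs
    exact Finset.sum_nonneg fun y _ => mul_nonneg (div_pos (hw y) hrw).le
      (div_pos (hHpos y) (hw y)).le
  have e5 : ∑ y ∈ (hf x).toFinset, w y * (H y / w y) ^ s =
      (r * w x) * ∑ y ∈ (hf x).toFinset, w y / (r * w x) * (H y / w y) ^ s := by
    rw [Finset.mul_sum]
    refine Finset.sum_congr rfl fun y _ => ?_
    rw [← mul_assoc, mul_div_cancel₀ _ hrw.ne']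
  have e6 : (θ * (H x / w x)) ^ s = θ ^ s * (H x / w x) ^ s :=
    Real.mul_rpow hθ.le (div_pos (hHpos x) (hw x)).le
  calc ∑ y ∈ (hf x).toFinset, w y * (H y / w y) ^ s
      = (r * w x) * ∑ y ∈ (hf x).toFinset, w y / (r * w x) * (H y / w y) ^ s := e5
    _ ≤ (r * w x) * (θ ^ s * (H x / w x) ^ s) := by
        rw [← e6]
        exact mul_le_mul_of_nonneg_left (e2.trans e4) hrw.le
    _ = r * θ ^ s * (w x * (H x / w x) ^ s) := by ring

end Pool.L2D
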