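import Pool.Agent.Work.MP_23451d_ld.Interface

/-!
# Block KEY (MP_23451d_pr): the key inequality

Written by helper55.
-/

set_option autoImplicit false

namespace Pool.L2D

open MeasureTheory SimpleGraph Pool.L2B
open scoped ENNReal

theorem p_KEY (hLOW : Stmt_LOW) (hTHRU : Stmt_THRU) (hTW : Stmt_TW) (_hTAU : Pool.L2B.Stmt_TAU)
    (_hWLK : Stmt_WLK) : Stmt_KEY := by
  intro V _ G p hp0 hp1 x z hz
  refine ⟨fun hxz => ?_, fun hxz => ?_⟩
  · have h1 : nb G (fun y => tau G p x y) z ≤
        nb G (fun y => tau (within G {z}ᶜ) p x y) z +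
          tau G p x z * nb G (fun y => Wk G p z y) z := by
      unfold nb
      rw [← ENNReal.tsum_mul_left, ← ENNReal.tsum_add]
      exact ENNReal.tsum_le_tsum fun y => hTHRU V G p hp0 hp1 x y.1 z
    have h2 := hLOW V G p hp0 hp1 x z hxz hz
    calc ENNReal.ofReal p * nb G (fun y => tau G p x y) z
        ≤ ENNReal.ofReal p * (nb G (fun y => tau (within G {z}ᶜ) p x y) z +
          tau G p x z * nb G (fun y => Wk G p z y) z) := by gcongr
      _ = ENNReal.ofReal p * nb G (fun y => tau (within G {z}ᶜ) p x y) z +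
          tau G p x z * Rk G p z z := by
        unfold Rk
        ring
      _ ≤ (tau G p x z + (1 / 2) * ∑' u, tau G p x u * Rk G p u z ^ 2) +
          tau G p x z * Rk G p z z := by gcongr
      _ = tau G p x z * (1 + Rk G p z z) +
          (1 / 2) * ∑' u, tau G p x u * Rk G p u z ^ 2 := by ring
  · subst hxz
    unfold Rk
    have h3 : nb G (fun y => tau G p x y) x ≤ nb G (fun y => Wk G p x y) x := by
      unfold nb
      exact ENNReal.tsum_le_tsum fun y => hTW V G p hp0 hp1 x y.1
    gcongr

end Pool.L2D
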