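import Pool.Agent.Work.MP_23451d_ld.Interface

/-!
# Block WLK: elementary properties of the walk sums (helper84)
-/

set_option autoImplicit false

namespace Pool.L2D

open MeasureTheory SimpleGraph Pool.L2B
open scoped ENNReal

theorem WLK_symm {V : Type} (G : SimpleGraph V) (p : ℝ) (u v : V) : Wk G p u v = Wk G p v u := by
  unfold Wk
  let e : G.Walk u v ≃ G.Walk v u :=
    ⟨Walk.reverse, Walk.reverse, Walk.reverse_reverse, Walk.reverse_reverse⟩
  rw [← Equiv.tsum_eq e]
  apply tsum_congr
  intro w
  show _ = ENNReal.ofReal p ^ (Walk.reverse w).length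
  rw [Walk.length_reverse]

/-- the first step of a walk -/
def WLK_c {V : Type} (G : SimpleGraph V) (u v : V)
    (z : Σ y : G.neighborSet v, G.Walk y.1 u) : G.Walk v u :=
  Walk.cons (show G.Adj v z.1.1 from z.1.2) z.2

theorem WLK_inj {V : Type} (G : SimpleGraph V) (u v : V) :
    Function.Injective (WLK_c G u v) := by
  rintro ⟨⟨y, hy⟩, w⟩ ⟨⟨y', hy'⟩, w'⟩ h
  have h' : (Walk.cons hy w : G.Walk v u) = Walk.cons hy' w' := h
  cases h'
  rfl

theorem WLK_cons {V : Type} (G : SimpleGraph V) (p : ℝ) (u v : V) :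
    ∑' w : G.Walk v u, (if w.length = 0 then 0 else ENNReal.ofReal p ^ w.length) =
      Rk G p u v := by
  rw [← (WLK_inj G u v).tsum_eq]
  · rw [ENNReal.tsum_sigma']
    unfold Rk nb
    rw [← ENNReal.tsum_mul_left]
    apply tsum_congr
    intro y
    show _ = ENNReal.ofReal p * Wk G p u y.1
    rw [WLK_symm G p u y.1]
    unfold Wk
    rw [← ENNReal.tsum_mul_left]
    apply tsum_congr
    intro w
    have h1 : (WLK_c G u v ⟨y, w⟩).length = w.length + 1 := Walk.length_cons _ _
    rw [h1, if_neg (by omega), pow_succ, mul_comm]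
  · intro w hw
    rw [Function.mem_support] at hw
    cases w with
    | nil => simp at hw
    | cons h w' => exact ⟨⟨⟨_, h⟩, w'⟩, rfl⟩

theorem p_WLK : Stmt_WLK := by
  intro V G p
  refine ⟨WLK_symm G p, ?_, ?_, ?_, ?_⟩
  · intro u
    rw [← WLK_cons]
    unfold Wk
    classical
    rw [ENNReal.tsum_eq_add_tsum_ite (Walk.nil : G.Walk u u)]
    congr 1
    apply tsum_congr
    intro w
    cases w with
    | nil => simp
    | cons h w' => simp
  · intro u v huv
    rw [← WLK_cons, WLK_symm]
    unfold Wk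
    apply tsum_congr
    intro w
    rw [if_neg]
    intro h
    exact huv (Walk.eq_of_length_eq_zero h).symm
  · intro G' hG u v
    unfold Wk
    have h1 : ∀ w : G.Walk u v, ENNReal.ofReal p ^ w.length =
        ENNReal.ofReal p ^ (w.mapLe hG).length := by
      intro w
      rw [Walk.mapLe, Walk.length_map]
    have hinj : Function.Injective (fun w : G.Walk u v => (w.mapLe hG : G'.Walk u v)) :=
      Walk.map_injective_of_injective (f := Hom.ofLE hG) (fun _ _ h => h) u v
    rw [tsum_congr h1]
    exact ENNReal.tsum_comp_le_tsum_of_injective hinj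
      (fun w : G'.Walk u v => ENNReal.ofReal p ^ w.length)
  · rintro u v ⟨w⟩ hp h0
    have h1 : ENNReal.ofReal p ^ w.length ≤ Wk G p u v :=
      ENNReal.le_tsum (f := fun w : G.Walk u v => ENNReal.ofReal p ^ w.length) w
    rw [h0, nonpos_iff_eq_zero] at h1
    have h3 : ENNReal.ofReal p = 0 := eq_zero_of_pow_eq_zero h1
    rw [ENNReal.ofReal_eq_zero] at h3
    linarith

end Pool.L2D
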