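import Pool.Agent.Work.MP_23451d_ld.B_SUBI
import Pool.Agent.Work.MP_23451d_ld.B_WLK

/-! # Block L2W: the `ℓ²` bound of the walk sums (helper87) -/

set_option autoImplicit false

namespace Pool.L2D

open MeasureTheory SimpleGraph Pool.L2B
open scoped ENNReal

open Classical in
/-- the real inequality on a finite set -/
theorem L2W_real {V : Type} (G : SimpleGraph V) (lam : ℝ) (hlam : 0 ≤ lam) (hQ : QB G lam)
    (K : Finset V) (u v : V → ℝ)
    (hu : ∀ x ∈ K, ∑ y ∈ K, (if G.Adj x y then u x * v y else 0) = u x ^ 2) :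
    ∑ x ∈ K, u x ^ 2 ≤ lam ^ 2 * ∑ x ∈ K, v x ^ 2 := by
  have hup : ∀ w : V → ℝ, ∑ x ∈ K, ∑ y ∈ K, (if G.Adj x y then w x * w y else 0) ≤
      lam * ∑ x ∈ K, w x ^ 2 := fun w => hQ K w
  have hlo : ∀ w : V → ℝ, -(lam * ∑ x ∈ K, w x ^ 2) ≤
      ∑ x ∈ K, ∑ y ∈ K, (if G.Adj x y then w x * w y else 0) := by
    intro w
    have h1 := hup (fun x => |w x|)
    have h2 : -∑ x ∈ K, ∑ y ∈ K, (if G.Adj x y then w x * w y else 0) ≤
        ∑ x ∈ K, ∑ y ∈ K, (if G.Adj x y then |w x| * |w y| else 0) := by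
      rw [← Finset.sum_neg_distrib]
      apply Finset.sum_le_sum
      intro x _
      rw [← Finset.sum_neg_distrib]
      apply Finset.sum_le_sum
      intro y _
      by_cases h : G.Adj x y
      · rw [if_pos h, if_pos h, ← abs_mul]
        exact neg_le_abs _
      · rw [if_neg h, if_neg h, neg_zero]
    have h3 : ∑ x ∈ K, |w x| ^ 2 = ∑ x ∈ K, w x ^ 2 :=
      Finset.sum_congr rfl fun x _ => sq_abs _
    rw [h3] at h1
    linarith
  set U : ℝ := ∑ x ∈ K, u x ^ 2 with hU
  set W : ℝ := ∑ x ∈ K, v x ^ 2 with hW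
  have hB : ∑ x ∈ K, ∑ y ∈ K, (if G.Adj x y then u x * v y else 0) = U :=
    Finset.sum_congr rfl hu
  have hB' : ∑ x ∈ K, ∑ y ∈ K, (if G.Adj x y then v x * u y else 0) = U := by
    rw [← hB, Finset.sum_comm]
    apply Finset.sum_congr rfl
    intro x _
    apply Finset.sum_congr rfl
    intro y _
    by_cases h : G.Adj x y
    · rw [if_pos h, if_pos h.symm]
      ring
    · rw [if_neg h, if_neg (fun h' => h h'.symm)]
  have key : ∀ s : ℝ, 4 * s * U ≤ 2 * lam * (s ^ 2 * U + W) := by
    intro s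
    have h1 := hup (fun x => s * u x + v x)
    have h2 := hlo (fun x => s * u x - v x)
    have h3 : ∑ x ∈ K, ∑ y ∈ K, (if G.Adj x y then (s * u x + v x) * (s * u y + v y) else 0) -
        ∑ x ∈ K, ∑ y ∈ K, (if G.Adj x y then (s * u x - v x) * (s * u y - v y) else 0) =
        2 * s * ∑ x ∈ K, ∑ y ∈ K, (if G.Adj x y then u x * v y else 0) +
        2 * s * ∑ x ∈ K, ∑ y ∈ K, (if G.Adj x y then v x * u y else 0) := by
      simp only [Finset.mul_sum]
      rw [← Finset.sum_sub_distrib, ← Finset.sum_add_distrib]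
      apply Finset.sum_congr rfl
      intro x _
      rw [← Finset.sum_sub_distrib, ← Finset.sum_add_distrib]
      apply Finset.sum_congr rfl
      intro y _
      split_ifs
      · ring
      · ring
    have h4 : ∑ x ∈ K, (s * u x + v x) ^ 2 + ∑ x ∈ K, (s * u x - v x) ^ 2 =
        2 * (s ^ 2 * U + W) := by
      rw [hU, hW, ← Finset.sum_add_distrib, Finset.mul_sum, ← Finset.sum_add_distrib,
        Finset.mul_sum]
      apply Finset.sum_congr rfl
      intro x _
      ring
    rw [hB, hB'] at h3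
    have h5 : lam * ∑ x ∈ K, (s * u x + v x) ^ 2 + lam * ∑ x ∈ K, (s * u x - v x) ^ 2 =
        lam * (2 * (s ^ 2 * U + W)) := by
      rw [← mul_add, h4]
    linarith
  rcases hlam.eq_or_lt with h0 | h0
  · have h1 := key 1
    rw [← h0] at h1 ⊢
    linarith
  · have h1 := key (1 / lam)
    have h2 : 4 * (1 / lam) * U = 4 * U / lam := by ring
    have h3 : 2 * lam * ((1 / lam) ^ 2 * U + W) = (2 * U + 2 * lam ^ 2 * W) / lam := by
      field_simp
    rw [h2, h3, div_le_div_iff_of_pos_right h0] at h1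
    linarith

theorem L2W_nb {V : Type} (G : SimpleGraph V) (hfin : ∀ v, (G.neighborSet v).Finite)
    (f : V → ℝ≥0∞) (x : V) : nb G f x = ∑ y ∈ (hfin x).toFinset, f y := by
  have h := Finset.tsum_subtype' (hfin x).toFinset f
  rw [(hfin x).coe_toFinset] at h
  exact h

/-- the adjacency operator on square summable functions -/
theorem L2W_op {V : Type} (G : SimpleGraph V) (hfin : ∀ v, (G.neighborSet v).Finite) (lam : ℝ)
    (hlam : 0 ≤ lam) (hQ : QB G lam) (f : V → ℝ≥0∞) (hf : ∑' x, f x ^ 2 ≠ ⊤) :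
    ∑' x, nb G f x ^ 2 ≤ ENNReal.ofReal (lam ^ 2) * ∑' x, f x ^ 2 := by
  classical
  have hft : ∀ x, f x ≠ ⊤ := by
    intro x h
    apply ENNReal.ne_top_of_tsum_ne_top hf x
    rw [h]
    rfl
  set F : V → ℝ := fun x => (f x).toReal with hF
  have hF0 : ∀ x, 0 ≤ F x := fun x => ENNReal.toReal_nonneg
  have hfF : ∀ x, f x = ENNReal.ofReal (F x) := fun x => (ENNReal.ofReal_toReal (hft x)).symm
  refine ENNReal.summable.tsum_le_of_sum_le fun S => ?_
  set S' : Finset V := S ∪ S.biUnion fun x => (hfin x).toFinset with hS'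
  set u : V → ℝ := fun x => if x ∈ S then ∑ y ∈ (hfin x).toFinset, F y else 0 with hu
  have hu0 : ∀ x, 0 ≤ u x := by
    intro x
    simp only [hu]
    split_ifs
    · exact Finset.sum_nonneg fun y _ => hF0 y
    · exact le_rfl
  have h1 := L2W_real G lam hlam hQ S' u F (by
    intro x _
    by_cases hx : x ∈ S
    · have e1 : S'.filter (fun y => G.Adj x y) = (hfin x).toFinset := by
        ext y
        rw [Finset.mem_filter, Set.Finite.mem_toFinset, SimpleGraph.mem_neighborSet]
        constructor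
        · exact fun h => h.2
        · intro h
          refine ⟨?_, h⟩
          rw [hS', Finset.mem_union, Finset.mem_biUnion]
          right
          refine ⟨x, hx, ?_⟩
          rw [Set.Finite.mem_toFinset, SimpleGraph.mem_neighborSet]
          exact h
      rw [← Finset.sum_filter, e1, ← Finset.mul_sum]
      have e2 : u x = ∑ y ∈ (hfin x).toFinset, F y := by
        simp only [hu, if_pos hx]
      rw [← e2]
      ring
    · have e2 : u x = 0 := by
        simp only [hu, if_neg hx]
      rw [e2]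
      simp)
  have h2 : ∀ x ∈ S, nb G f x = ENNReal.ofReal (u x) := by
    intro x hx
    rw [L2W_nb G hfin f x]
    have e2 : u x = ∑ y ∈ (hfin x).toFinset, F y := by
      simp only [hu, if_pos hx]
    rw [e2, ENNReal.ofReal_sum_of_nonneg (fun y _ => hF0 y)]
    exact Finset.sum_congr rfl fun y _ => hfF y
  calc ∑ x ∈ S, nb G f x ^ 2 = ∑ x ∈ S, ENNReal.ofReal (u x ^ 2) := by
        apply Finset.sum_congr rfl
        intro x hx
        rw [h2 x hx, ENNReal.ofReal_pow (hu0 x)]
    _ = ENNReal.ofReal (∑ x ∈ S, u x ^ 2) :=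
        (ENNReal.ofReal_sum_of_nonneg fun x _ => by positivity).symm
    _ ≤ ENNReal.ofReal (∑ x ∈ S', u x ^ 2) := by
        apply ENNReal.ofReal_le_ofReal
        apply Finset.sum_le_sum_of_subset_of_nonneg Finset.subset_union_left
        intro x _ _
        positivity
    _ ≤ ENNReal.ofReal (lam ^ 2 * ∑ x ∈ S', F x ^ 2) := ENNReal.ofReal_le_ofReal h1
    _ = ENNReal.ofReal (lam ^ 2) * ∑ x ∈ S', f x ^ 2 := by
        rw [ENNReal.ofReal_mul (by positivity), ENNReal.ofReal_sum_of_nonneg
          (fun x _ => by positivity)]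
        congr 1
        apply Finset.sum_congr rfl
        intro x _
        rw [ENNReal.ofReal_pow (hF0 x), ← hfF x]
    _ ≤ ENNReal.ofReal (lam ^ 2) * ∑' x, f x ^ 2 := by
        gcongr
        exact ENNReal.sum_le_tsum S'

theorem L2W_young (a b : ℝ≥0∞) (η : ℝ) (h0 : 0 < η) (h1 : η < 1) :
    (a + b) ^ 2 ≤ ENNReal.ofReal (1 / (1 - η)) * a ^ 2 + ENNReal.ofReal (1 / η) * b ^ 2 := by
  have h2 : 0 < 1 - η := by linarith
  have e1 : ENNReal.ofReal (1 / (1 - η)) ≠ 0 := by
    rw [ne_eq, ENNReal.ofReal_eq_zero, not_le]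
    positivity
  have e2 : ENNReal.ofReal (1 / η) ≠ 0 := by
    rw [ne_eq, ENNReal.ofReal_eq_zero, not_le]
    positivity
  by_cases ha : a = ⊤
  · rw [ha]
    have : (⊤ : ℝ≥0∞) ^ 2 = ⊤ := rfl
    rw [this, ENNReal.mul_top e1, top_add]
    exact (le_top : _ ≤ (⊤ : ℝ≥0∞))
  by_cases hb : b = ⊤
  · rw [hb]
    have : (⊤ : ℝ≥0∞) ^ 2 = ⊤ := rfl
    rw [this, ENNReal.mul_top e2]
    exact le_of_le_of_eq le_top (add_top _).symm
  have hA : a = ENNReal.ofReal a.toReal := (ENNReal.ofReal_toReal ha).symm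
  have hB : b = ENNReal.ofReal b.toReal := (ENNReal.ofReal_toReal hb).symm
  have hA0 : 0 ≤ a.toReal := ENNReal.toReal_nonneg
  have hB0 : 0 ≤ b.toReal := ENNReal.toReal_nonneg
  rw [hA, hB, ← ENNReal.ofReal_add hA0 hB0, ← ENNReal.ofReal_pow (by positivity),
    ← ENNReal.ofReal_pow hA0, ← ENNReal.ofReal_pow hB0, ← ENNReal.ofReal_mul (by positivity),
    ← ENNReal.ofReal_mul (by positivity), ← ENNReal.ofReal_add (by positivity) (by positivity)]
  apply ENNReal.ofReal_le_ofReal
  set A := a.toReal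
  set B := b.toReal
  have h3 : 1 / (1 - η) * A ^ 2 + 1 / η * B ^ 2 = (η * A ^ 2 + (1 - η) * B ^ 2) / (η * (1 - η)) := by
    field_simp
  rw [h3, le_div_iff₀ (by positivity)]
  nlinarith [sq_nonneg (η * A - (1 - η) * B)]

theorem p_L2W : Stmt_L2W := by
  classical
  intro V G hfin p lam hp hlam hη1 hQ K
  set η : ℝ := p * lam with hη
  have hη0 : 0 ≤ η := mul_nonneg hp hlam
  have h1η : 0 < 1 - η := by linarith
  set c : ℝ≥0∞ := ENNReal.ofReal p with hc
  set g : V → ℝ≥0∞ := fun x => if x ∈ K then 1 else 0 with hg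
  have hgN : ∑' x, g x ^ 2 = ENNReal.ofReal K.card := by
    rw [tsum_eq_sum (s := K)]
    · rw [Finset.sum_congr rfl (g := fun _ => (1 : ℝ≥0∞))]
      · rw [Finset.sum_const, nsmul_eq_mul, mul_one, ENNReal.ofReal_natCast]
      · intro x hx
        simp only [hg, if_pos hx, one_pow]
    · intro x hx
      simp only [hg, if_neg hx]
      norm_num
  set M : ℝ≥0∞ := ENNReal.ofReal ((K.card : ℝ) / (1 - η) ^ 2) with hM
  have hMt : M ≠ ⊤ := ENNReal.ofReal_ne_top
  -- the truncated sums
  have hT : ∀ n, ∑' x, SUBI_T G c g n x ^ 2 ≤ M := by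
    intro n
    induction n with
    | zero =>
      have e0 : ∀ x, SUBI_T G c g 0 x = 0 := by
        intro x
        simp [SUBI_T]
      simp [e0]
    | succ n ih =>
      have hfn : ∑' x, SUBI_T G c g n x ^ 2 ≠ ⊤ := ne_top_of_le_ne_top hMt ih
      have hop := L2W_op G hfin lam hlam hQ (SUBI_T G c g n) hfn
      have hb : ∑' x, (c * nb G (SUBI_T G c g n) x) ^ 2 ≤ ENNReal.ofReal (η ^ 2) * M := by
        have e1 : ∀ x, (c * nb G (SUBI_T G c g n) x) ^ 2 =
            ENNReal.ofReal (p ^ 2) * nb G (SUBI_T G c g n) x ^ 2 := by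
          intro x
          rw [mul_pow, hc, ENNReal.ofReal_pow hp]
        rw [tsum_congr e1, ENNReal.tsum_mul_left]
        calc ENNReal.ofReal (p ^ 2) * ∑' x, nb G (SUBI_T G c g n) x ^ 2
            ≤ ENNReal.ofReal (p ^ 2) * (ENNReal.ofReal (lam ^ 2) *
                ∑' x, SUBI_T G c g n x ^ 2) := by gcongr
          _ ≤ ENNReal.ofReal (p ^ 2) * (ENNReal.ofReal (lam ^ 2) * M) := by gcongr
          _ = ENNReal.ofReal (η ^ 2) * M := by
              rw [← mul_assoc, ← ENNReal.ofReal_mul (by positivity)]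
              congr 2
              rw [hη]
              ring
      rcases hη0.eq_or_lt with h0 | h0
      · have hz : ∑' x, (c * nb G (SUBI_T G c g n) x) ^ 2 = 0 := by
          rw [← nonpos_iff_eq_zero]
          refine le_trans hb ?_
          rw [← h0]
          simp
        rw [ENNReal.tsum_eq_zero] at hz
        have e2 : ∀ x, SUBI_T G c g (n + 1) x = g x := by
          intro x
          rw [SUBI_T_succ]
          have := hz x
          rw [pow_eq_zero_iff (by norm_num)] at this
          rw [this, add_zero]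
        rw [tsum_congr (fun x => by rw [e2 x]), hgN, hM, ← h0]
        simp
      · calc ∑' x, SUBI_T G c g (n + 1) x ^ 2
            = ∑' x, (g x + c * nb G (SUBI_T G c g n) x) ^ 2 := by
              apply tsum_congr
              intro x
              rw [SUBI_T_succ]
          _ ≤ ∑' x, (ENNReal.ofReal (1 / (1 - η)) * g x ^ 2 +
                ENNReal.ofReal (1 / η) * (c * nb G (SUBI_T G c g n) x) ^ 2) :=
              ENNReal.tsum_le_tsum fun x => L2W_young _ _ η h0 hη1
          _ = ENNReal.ofReal (1 / (1 - η)) * ENNReal.ofReal K.card +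
                ENNReal.ofReal (1 / η) * ∑' x, (c * nb G (SUBI_T G c g n) x) ^ 2 := by
              rw [ENNReal.tsum_add, ENNReal.tsum_mul_left, ENNReal.tsum_mul_left, hgN]
          _ ≤ ENNReal.ofReal (1 / (1 - η)) * ENNReal.ofReal K.card +
                ENNReal.ofReal (1 / η) * (ENNReal.ofReal (η ^ 2) * M) := by gcongr
          _ = M := by
              have hK0 : (0 : ℝ) ≤ K.card := Nat.cast_nonneg _
              rw [hM, ← ENNReal.ofReal_mul (by positivity), ← ENNReal.ofReal_mul (by positivity),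
                ← ENNReal.ofReal_mul (by positivity), ← ENNReal.ofReal_add (by positivity)
                (by positivity)]
              congr 1
              field_simp
              ring
  -- passing to the limit
  have hmono : ∀ z, Monotone fun n => SUBI_T G c g n z := by
    intro z m n hmn
    unfold SUBI_T
    apply ENNReal.tsum_le_tsum
    intro s
    by_cases h : s.2.length < m
    · rw [if_pos h, if_pos (by omega)]
    · rw [if_neg h]
      exact bot_le
  have hsum : ∀ z, ∑ y ∈ K, Wk G p y z = ⨆ n, SUBI_T G c g n z := by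
    intro z
    have e1 : ∑ y ∈ K, Wk G p y z = ∑' y, Wk G p z y * g y := by
      rw [tsum_eq_sum (s := K)]
      · apply Finset.sum_congr rfl
        intro y hy
        simp only [hg, if_pos hy, mul_one]
        exact WLK_symm G p y z
      · intro y hy
        simp only [hg, if_neg hy, mul_zero]
    have hW : ∑' y, Wk G p z y * g y = ∑' s : Σ y, G.Walk z y, c ^ s.2.length * g s.1 := by
      rw [ENNReal.tsum_sigma']
      refine tsum_congr fun y => ?_
      unfold Wk
      rw [← ENNReal.tsum_mul_right]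
    rw [e1, hW]
    apply le_antisymm
    · refine ENNReal.summable.tsum_le_of_sum_le fun s => ?_
      obtain ⟨n, hn⟩ : ∃ n, ∀ t ∈ s, t.2.length < n := by
        refine ⟨s.sup (fun t => t.2.length) + 1, fun t ht => ?_⟩
        exact Nat.lt_succ_of_le (Finset.le_sup (f := fun t : Σ y, G.Walk z y => t.2.length) ht)
      refine le_trans ?_ (le_iSup (fun n => SUBI_T G c g n z) n)
      unfold SUBI_T
      refine le_trans (le_of_eq ?_) (ENNReal.sum_le_tsum s)
      refine Finset.sum_congr rfl fun t ht => ?_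
      rw [if_pos (hn t ht)]
    · apply iSup_le
      intro n
      unfold SUBI_T
      apply ENNReal.tsum_le_tsum
      intro s
      by_cases h : s.2.length < n
      · rw [if_pos h]
      · rw [if_neg h]
        exact bot_le
  refine ENNReal.summable.tsum_le_of_sum_le fun S => ?_
  have hlim : Filter.Tendsto (fun n => ∑ z ∈ S, SUBI_T G c g n z ^ 2) Filter.atTop
      (nhds (∑ z ∈ S, (∑ y ∈ K, Wk G p y z) ^ 2)) := by
    apply tendsto_finsetSum
    intro z _
    rw [hsum z]
    exact (ENNReal.continuous_pow 2).continuousAt.tendsto.comp (tendsto_atTop_iSup (hmono z))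
  apply le_of_tendsto' hlim
  intro n
  exact le_trans (ENNReal.sum_le_tsum S) (hT n)

end Pool.L2D
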