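import Pool.Agent.Work.MP_23451d_ld.Interface

/-! # LOW: the lower bound of the two-point function by the last edge -/

set_option autoImplicit false

namespace Pool.L2D

open MeasureTheory SimpleGraph Pool.L2B
open scoped ENNReal

theorem LOW_nb {V : Type} (G : SimpleGraph V) (z : V) (hf : (G.neighborSet z).Finite)
    (f : V → ℝ≥0∞) : nb G f z = ∑ y ∈ hf.toFinset, f y := by
  unfold nb
  have : Fintype (G.neighborSet z) := hf.fintype
  rw [tsum_fintype, ← Finset.sum_coe_sort hf.toFinset]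
  refine Fintype.sum_equiv (Equiv.subtypeEquivRight (fun y => by simp)) _ _ (fun y => rfl)

theorem p_LOW (hLAB : Stmt_LAB) (hSIG : Stmt_SIG) (hCME : Stmt_CME) (hTAU : Stmt_TAU)
    (hOPN : Stmt_OPN) (hTREE : Stmt_TREE) (hBON2 : Stmt_BON2) (hWLK : Stmt_WLK) : Stmt_LOW := by
  classical
  intro V _ G p hp0 hp1 x z hxz hf
  set G' := within G {z}ᶜ with hG'
  have hG'le : G' ≤ G := fun a b h => h.1
  set N := hf.toFinset with hN
  have hNz : ∀ y ∈ N, G.Adj z y := fun y hy => by
    rw [hN, Set.Finite.mem_toFinset] at hy; exact hy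
  set F : V → Set (Sym2 V → unitInterval) := fun y =>
    {ω | Conn G' p ω x y} ∩ {ω | ((ω s(y, z) : unitInterval) : ℝ) < p} with hF
  have hsig := hSIG V
  have hnot : ∀ y : V, s(y, z) ∉ G'.edgeSet := by
    intro y h
    rw [SimpleGraph.mem_edgeSet] at h
    exact h.2.2 rfl
  have hmC : ∀ y, MeasurableSet {ω : Sym2 V → unitInterval | Conn G' p ω x y} := fun y =>
    hsig.1 _ _ (hCME V G' p x y)
  have hmL : ∀ y : V, MeasurableSet {ω : Sym2 V → unitInterval |
      ((ω s(y, z) : unitInterval) : ℝ) < p} := fun y => hsig.1 _ _ (hLAB V s(y, z) p).1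
  have hmF : ∀ y, MeasurableSet (F y) := fun y => (hmC y).inter (hmL y)
  have hμF : ∀ y, mu V (F y) = tau G' p x y * ENNReal.ofReal p := by
    intro y
    rw [hF]
    simp only
    rw [hsig.2.2 G'.edgeSet {s(y, z)} (by simpa using hnot y) _ _ (hCME V G' p x y)
      (hLAB V s(y, z) p).1, (hLAB V s(y, z) p).2 hp0 hp1]
    rfl
  have hμFF : ∀ y ∈ N, ∀ y' ∈ N, y ≠ y' → mu V (F y ∩ F y') ≤
      ENNReal.ofReal p ^ 2 * ∑' u, tau G p x u * (Wk G p u y * Wk G p u y') := by
    intro y _ y' _ hyy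
    have hne : s(y, z) ≠ s(y', z) := by
      intro h
      rw [Sym2.eq_iff] at h
      rcases h with h | h
      · exact hyy h.1
      · exact hyy (h.1.trans h.2)
    have e1 : F y ∩ F y' = ({ω | Conn G' p ω x y} ∩ {ω | Conn G' p ω x y'}) ∩
        {ω : Sym2 V → unitInterval | ∀ e ∈ ({s(y, z), s(y', z)} : Finset (Sym2 V)),
          ((ω e : unitInterval) : ℝ) < p} := by
      ext ω
      simp only [hF, Set.mem_inter_iff, Set.mem_ofPred_eq, Finset.mem_insert,
        Finset.mem_singleton, forall_eq_or_imp, forall_eq]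
      tauto
    obtain ⟨hm, hmu⟩ := hOPN V ({s(y, z), s(y', z)} : Finset (Sym2 V)) p hp0 hp1
    have hdis : Disjoint G'.edgeSet ((({s(y, z), s(y', z)} : Finset (Sym2 V))) : Set (Sym2 V)) := by
      rw [Set.disjoint_right]
      intro e he
      rw [Finset.mem_coe, Finset.mem_insert, Finset.mem_singleton] at he
      rcases he with rfl | rfl
      · exact hnot y
      · exact hnot y'
    rw [e1, hsig.2.2 G'.edgeSet _ hdis _ _
      (@MeasurableSet.inter _ (sig G'.edgeSet) _ _ (hCME V G' p x y) (hCME V G' p x y')) hm, hmu,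
      Finset.card_pair hne, mul_comm]
    refine mul_le_mul_right ?_ _
    refine (hTREE V G' p hp0 hp1 x y y').trans ?_
    refine ENNReal.tsum_le_tsum fun u => ?_
    refine mul_le_mul' ((hTAU V G' G p p x u).2.2.2.2.1 hG'le) ?_
    exact mul_le_mul' ((hWLK V G' p).2.2.2.1 G hG'le u y) ((hWLK V G' p).2.2.2.1 G hG'le u y')
  have hsub : (⋃ y ∈ N, F y) ⊆ {ω | Conn G p ω x z} := by
    intro ω hω
    simp only [Set.mem_iUnion, exists_prop] at hω
    obtain ⟨y, hy, ⟨w, hw⟩, hl⟩ := hω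
    refine ⟨(w.mapLe hG'le).concat (hNz y hy).symm, ?_⟩
    intro e he
    rw [Walk.edges_concat, List.concat_eq_append, List.mem_append, List.mem_singleton] at he
    rcases he with he | he
    · rw [Walk.edges_mapLe_eq_edges] at he
      exact hw e he
    · rw [he]
      exact hl
  have hfin : ∀ A : Set (Sym2 V → unitInterval), mu V A ≠ ⊤ := fun A => measure_ne_top _ _
  have hbon := hBON2 (Sym2 V → unitInterval) (mu V) V N F (fun i _ => hmF i)
  have hU : (mu V (⋃ y ∈ N, F y)).toReal ≤ (tau G p x z).toReal :=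
    ENNReal.toReal_mono (hfin _) (measure_mono hsub)
  have hmain : ∑ y ∈ N, mu V (F y) ≤
      tau G p x z + (1 / 2) * ∑ y ∈ N, ∑ y' ∈ N.erase y, mu V (F y ∩ F y') := by
    have h1 : ∑ y ∈ N, mu V (F y) ≠ ⊤ := by
      rw [ENNReal.sum_ne_top]; exact fun y _ => hfin _
    have h2 : ∑ y ∈ N, ∑ y' ∈ N.erase y, mu V (F y ∩ F y') ≠ ⊤ := by
      rw [ENNReal.sum_ne_top]
      intro y _
      rw [ENNReal.sum_ne_top]
      exact fun y' _ => hfin _
    have h12 : (1 / 2 : ℝ≥0∞) * ∑ y ∈ N, ∑ y' ∈ N.erase y, mu V (F y ∩ F y') ≠ ⊤ :=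
      ENNReal.mul_ne_top (by simp) h2
    have h3 : tau G p x z ≠ ⊤ := hfin _
    rw [← ENNReal.toReal_le_toReal h1 (ENNReal.add_ne_top.mpr ⟨h3, h12⟩),
      ENNReal.toReal_add h3 h12, ENNReal.toReal_mul, ENNReal.toReal_sum (fun y _ => hfin _),
      ENNReal.toReal_sum (fun y _ => by rw [ENNReal.sum_ne_top]; exact fun y' _ => hfin _)]
    have h4 : ∀ y ∈ N, (∑ y' ∈ N.erase y, mu V (F y ∩ F y')).toReal =
        ∑ y' ∈ N.erase y, (mu V (F y ∩ F y')).toReal := fun y _ =>
      ENNReal.toReal_sum (fun y' _ => hfin _)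
    rw [Finset.sum_congr rfl h4]
    have h5 : (1 / 2 : ℝ≥0∞).toReal = 1 / 2 := by simp
    rw [h5]
    linarith
  rw [LOW_nb G z hf, Finset.mul_sum]
  calc ∑ y ∈ N, ENNReal.ofReal p * tau G' p x y = ∑ y ∈ N, mu V (F y) := by
        refine Finset.sum_congr rfl fun y _ => ?_
        rw [hμF, mul_comm]
    _ ≤ tau G p x z + (1 / 2) * ∑ y ∈ N, ∑ y' ∈ N.erase y, mu V (F y ∩ F y') := hmain
    _ ≤ tau G p x z + (1 / 2) * ∑ y ∈ N, ∑ y' ∈ N,
          ENNReal.ofReal p ^ 2 * ∑' u, tau G p x u * (Wk G p u y * Wk G p u y') := by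
        refine add_le_add le_rfl (mul_le_mul_right ?_ _)
        refine Finset.sum_le_sum fun y hy => ?_
        calc ∑ y' ∈ N.erase y, mu V (F y ∩ F y') ≤ ∑ y' ∈ N.erase y,
              ENNReal.ofReal p ^ 2 * ∑' u, tau G p x u * (Wk G p u y * Wk G p u y') :=
              Finset.sum_le_sum fun y' hy' => hμFF y hy y' (Finset.mem_of_mem_erase hy')
                (Finset.ne_of_mem_erase hy').symm
          _ ≤ _ := Finset.sum_le_sum_of_subset (Finset.erase_subset _ _)
    _ = tau G p x z + (1 / 2) * ∑' u, tau G p x u * Rk G p u z ^ 2 := by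
        congr 2
        have e2 : ∀ u, tau G p x u * Rk G p u z ^ 2 = ∑ y ∈ N, ∑ y' ∈ N,
            ENNReal.ofReal p ^ 2 * (tau G p x u * (Wk G p u y * Wk G p u y')) := by
          intro u
          unfold Rk
          rw [LOW_nb G z hf, mul_pow, sq (∑ y ∈ hf.toFinset, Wk G p u y), Finset.sum_mul_sum,
            ← hN, Finset.mul_sum, Finset.mul_sum]
          refine Finset.sum_congr rfl fun y _ => ?_
          rw [Finset.mul_sum, Finset.mul_sum]
          refine Finset.sum_congr rfl fun y' _ => ?_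
          ring
        simp_rw [e2]
        rw [Summable.tsum_finsetSum (fun y _ => ENNReal.summable)]
        refine Finset.sum_congr rfl fun y _ => ?_
        rw [Summable.tsum_finsetSum (fun y _ => ENNReal.summable)]
        refine Finset.sum_congr rfl fun y' _ => ?_
        rw [ENNReal.tsum_mul_left]

end Pool.L2D
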