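import Pool.Agent.Work.MP_23451d_ld.Interface

/-! # MAINA: regular graphs whose degree is large in terms of the spectral gap -/

set_option autoImplicit false

namespace Pool.L2D

open MeasureTheory SimpleGraph Pool.L2B
open scoped ENNReal

theorem MAINA_num (D ρ q : ℝ) (hD : 0 < D) (hρ0 : 0 < ρ) (hρ1 : ρ < 1) (hq : 1 < q)
    (h18 : 18 * max (q - 1) (1 / (q - 1)) ≤ D * (1 - ρ) ^ 3) :
    ∃ a : ℝ, 1 < a ∧ a < 2 ∧ a * ρ ^ (min (q - 1) (1 / (q - 1))) < 1 ∧
      a ^ 2 * 1 / D * (1 / (1 - a * ρ) + 1 / (2 * (1 - a * ρ) ^ 2)) ≤ a - 1 := by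
  have hq1 : 0 < q - 1 := by linarith
  have hmm : min (q - 1) (1 / (q - 1)) * max (q - 1) (1 / (q - 1)) = 1 := by
    rw [min_mul_max]
    field_simp
  have ht0 : 0 < min (q - 1) (1 / (q - 1)) := lt_min hq1 (by positivity)
  have ht1 : min (q - 1) (1 / (q - 1)) ≤ 1 := by
    rcases le_total (q - 1) 1 with h | h
    · exact (min_le_left _ _).trans h
    · refine (min_le_right _ _).trans ?_
      rw [div_le_one hq1]; exact h
  set t := min (q - 1) (1 / (q - 1)) with ht
  set M := max (q - 1) (1 / (q - 1)) with hM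
  have h18' : 18 ≤ t * (D * (1 - ρ) ^ 3) := by
    calc (18 : ℝ) = t * (18 * M) := by rw [mul_left_comm, hmm, mul_one]
      _ ≤ t * (D * (1 - ρ) ^ 3) := mul_le_mul_of_nonneg_left h18 ht0.le
  set δ := 1 - ρ with hδ
  have hδ0 : 0 < δ := by rw [hδ]; linarith
  have hδ1 : δ < 1 := by rw [hδ]; linarith
  have hρδ : ρ = 1 - δ := by rw [hδ]; ring
  have htδ : 0 < t * δ := by positivity
  have htδ1 : t * δ ≤ δ := by nlinarith
  refine ⟨1 + t * δ / 2, by linarith, by linarith, ?_, ?_⟩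
  · have hb : ρ ^ t ≤ 1 - t * δ := by
      have := _root_.rpow_one_add_le_one_add_mul_self (s := -δ) (p := t) (by linarith) ht0.le ht1
      have e : (1 : ℝ) + -δ = ρ := by rw [hδ]; ring
      rw [e] at this
      linarith
    have hpos : 0 < 1 + t * δ / 2 := by linarith
    calc (1 + t * δ / 2) * ρ ^ t ≤ (1 + t * δ / 2) * (1 - t * δ) :=
          mul_le_mul_of_nonneg_left hb hpos.le
      _ < 1 := by nlinarith
  · have hy : δ / 2 ≤ 1 - (1 + t * δ / 2) * ρ := by
      rw [hρδ]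
      nlinarith
    set y := 1 - (1 + t * δ / 2) * ρ with hyd
    have hy0 : 0 < y := by linarith
    have h1 : 1 / y ≤ 2 / δ := by
      rw [div_le_div_iff₀ hy0 hδ0]; linarith
    have h2 : 1 / (2 * y ^ 2) ≤ 2 / δ ^ 2 := by
      rw [div_le_div_iff₀ (by positivity) (by positivity)]
      nlinarith
    have h3 : (1 + t * δ / 2) ^ 2 ≤ 9 / 4 := by nlinarith
    have h4 : 2 / δ + 2 / δ ^ 2 ≤ 4 / δ ^ 2 := by
      have : 2 / δ ≤ 2 / δ ^ 2 := by
        rw [div_le_div_iff₀ hδ0 (by positivity)]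
        nlinarith
      have e : 4 / δ ^ 2 = 2 / δ ^ 2 + 2 / δ ^ 2 := by ring
      linarith
    calc (1 + t * δ / 2) ^ 2 * 1 / D * (1 / y + 1 / (2 * y ^ 2))
        ≤ (9 / 4) / D * (4 / δ ^ 2) := by
          apply mul_le_mul
          · rw [mul_one]
            exact div_le_div_of_nonneg_right h3 hD.le
          · linarith
          · positivity
          · positivity
      _ = 9 / (D * δ ^ 2) := by field_simp
      _ ≤ t * δ / 2 := by
          rw [div_le_div_iff₀ (by positivity) (by norm_num)]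
          nlinarith
      _ = 1 + t * δ / 2 - 1 := by ring

theorem p_MAINA (hWTD : Stmt_WTD) (hCNT : Stmt_CNT) : Stmt_MAINA := by
  intro V G hG hf D ρ hdeg hρ0 hρ1 hQB q hq h18
  have : Countable V := hCNT V G hG hf
  obtain ⟨x₀⟩ := hG.nonempty
  have hq1 : 0 < q - 1 := by linarith
  have hmax : 1 ≤ max (q - 1) (1 / (q - 1)) := by
    rcases le_total 1 (q - 1) with h | h
    · exact h.trans (le_max_left _ _)
    · refine le_trans ?_ (le_max_right _ _)
      rw [le_div_iff₀ hq1]; linarith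
  have hD18 : (18 : ℝ) ≤ D := by
    have h3 : (1 - ρ) ^ 3 ≤ 1 := pow_le_one₀ (by linarith) (by linarith)
    have hDn : (0 : ℝ) ≤ D := Nat.cast_nonneg D
    nlinarith
  have hD0 : (0 : ℝ) < D := by linarith
  obtain ⟨a, ha1, ha2, hat, hcond⟩ := MAINA_num D ρ q hD0 hρ0 hρ1 hq h18
  refine hWTD V G hG hf (fun _ => 1) 1 D ρ a x₀ (fun x => ⟨one_pos, le_rfl, by norm_num⟩) rfl ?_
    hQB hρ0 (by linarith) ha1 ha2 q hq hat hcond
  intro x
  rw [Finset.sum_const, nsmul_eq_mul, mul_one, mul_one, ← Set.ncard_eq_toFinset_card _ (hf x),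
    hdeg x]

end Pool.L2D
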