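import Pool.Agent.Work.MP_23451d_ld.Interface

/-! # MAINB: all large powers of a nonamenable quasi-transitive graph -/

set_option autoImplicit false

namespace Pool.L2D

open MeasureTheory SimpleGraph Pool.L2B
open scoped ENNReal

theorem MAINB_conn {V : Type} (G H : SimpleGraph V) (k : ℕ) (hk : 1 ≤ k) (hG : G.Connected)
    (hH : IsPow G H k) : H.Connected := by
  refine hG.mono ?_
  intro x y hxy
  rw [hH x y]
  refine ⟨hxy.ne, ?_⟩
  have : G.dist x y = 1 := SimpleGraph.dist_eq_one_iff_adj.mpr hxy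
  omega

open Classical in
theorem MAINB_card {V : Type} (H : SimpleGraph V) (hf : ∀ v, (H.neighborSet v).Finite)
    (K : Finset V) :
    (((bdE H (K : Set V)).ncard : ℕ) : ℝ) =
      ∑ x ∈ K, (((hf x).toFinset.filter (fun y => y ∉ K)).card : ℝ) := by
  have e : bdE H (K : Set V) =
      ((K.sigma (fun x => (hf x).toFinset.filter (fun y => y ∉ K))).image
        (fun s : (Σ _ : V, V) => (s.1, s.2)) : Set (V × V)) := by
    ext ⟨x, y⟩
    simp only [bdE, Set.mem_setOf_eq, Finset.coe_image, Set.mem_image, Finset.mem_coe,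
      Finset.mem_sigma, Finset.mem_filter, Set.Finite.mem_toFinset, SimpleGraph.mem_neighborSet]
    constructor
    · rintro ⟨h1, h2, h3⟩
      exact ⟨⟨x, y⟩, ⟨h1, h3, h2⟩, rfl⟩
    · rintro ⟨⟨a, b⟩, ⟨h1, h3, h2⟩, h⟩
      simp only [Prod.mk.injEq] at h
      obtain ⟨rfl, rfl⟩ := h
      exact ⟨h1, h2, h3⟩
  rw [e, Set.ncard_coe_finset, Finset.card_image_of_injective, Finset.card_sigma]
  · push_cast
    rfl
  · rintro ⟨a, b⟩ ⟨a', b'⟩ h
    simp only [Prod.mk.injEq] at h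
    obtain ⟨rfl, rfl⟩ := h
    rfl

theorem MAINB_tmin {q : ℝ} (hq : 1 < q) :
    0 < min (q - 1) (1 / (q - 1)) ∧ min (q - 1) (1 / (q - 1)) ≤ 1 := by
  have h1 : 0 < q - 1 := by linarith
  refine ⟨lt_min h1 (by positivity), ?_⟩
  rcases le_total (q - 1) 1 with h | h
  · exact (min_le_left _ _).trans h
  · refine (min_le_right _ _).trans ?_
    rw [div_le_one h1]; exact h

theorem p_MAINB (hWTD : Stmt_WTD) (hCNT : Stmt_CNT) (hBLC : Stmt_BLC) (hEXN : Stmt_EXN)
    (hPWT : Stmt_PWT) (hCHG : Stmt_CHG) : Stmt_MAINB := by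
  classical
  intro V G hG hf hQT ⟨c, hc0, hc⟩ q hq
  have hcount : Countable V := hCNT V G hG hf
  have hne : Nonempty V := hG.nonempty
  have hinfV : Infinite V := by
    by_contra hfin
    rw [not_infinite_iff_finite] at hfin
    have := Fintype.ofFinite V
    have h1 := hc Finset.univ Finset.univ_nonempty
    have h2 : bdE G ((Finset.univ : Finset V) : Set V) = ∅ := by
      ext x
      simp [bdE]
    rw [h2, Set.ncard_empty] at h1
    have h3 : 0 < (Finset.univ : Finset V).card := Finset.card_pos.mpr Finset.univ_nonempty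
    have h4 : (0 : ℝ) < ((Finset.univ : Finset V).card : ℝ) := by exact_mod_cast h3
    have : 0 < c * ((Finset.univ : Finset V).card : ℝ) := by positivity
    simp only [Nat.cast_zero] at h1
    linarith
  obtain ⟨C, k₁, hC1, hk1, hdegC, hball, hcmp1, hcmp2, hgrow⟩ := hBLC V G hG hf hQT hinfV
  have hCr : (1 : ℝ) ≤ C := by exact_mod_cast hC1
  have hC0 : (0 : ℝ) < C := by linarith
  obtain ⟨ht0, ht1⟩ := MAINB_tmin hq
  set t := min (q - 1) (1 / (q - 1)) with htdef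
  -- the Cheeger constant of the powers
  obtain ⟨c₂, hc20, hc21, hc22⟩ : ∃ c₂ : ℝ, 0 < c₂ ∧ c₂ ≤ 1 / 2 ∧ c₂ ≤ c / (4 * (C : ℝ) ^ 4) :=
    ⟨min (1 / 2) (c / (4 * (C : ℝ) ^ 4)), lt_min (by norm_num) (by positivity), min_le_left _ _,
      min_le_right _ _⟩
  have hsq : 0 < 1 - c₂ ^ 2 := by nlinarith
  set ρ := Real.sqrt (1 - c₂ ^ 2) with hρ
  have hρ0 : 0 < ρ := Real.sqrt_pos.mpr hsq
  have hρ1 : ρ < 1 := by
    rw [hρ, Real.sqrt_lt' one_pos]
    nlinarith
  have hρt : ρ ^ t < 1 := Real.rpow_lt_one hρ0.le hρ1 ht0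
  have hρt0 : 0 < ρ ^ t := Real.rpow_pos_of_pos hρ0 _
  obtain ⟨a, ha1, ha'⟩ := exists_between
    (lt_min (by norm_num : (1 : ℝ) < 2) ((one_lt_inv₀ hρt0).mpr hρt))
  have ha2 : a < 2 := lt_of_lt_of_le ha' (min_le_left _ _)
  have ha0 : 0 < a := by linarith
  have hat : a * ρ ^ t < 1 := by
    have h := lt_of_lt_of_le ha' (min_le_right _ _)
    calc a * ρ ^ t < (ρ ^ t)⁻¹ * ρ ^ t := mul_lt_mul_of_pos_right h hρt0
      _ = 1 := inv_mul_cancel₀ hρt0.ne'
  have hρρ : ρ ≤ ρ ^ t := by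
    have := Real.rpow_le_rpow_of_exponent_ge hρ0 hρ1.le ht1
    simpa using this
  have haρ : a * ρ < 1 := lt_of_le_of_lt (mul_le_mul_of_nonneg_left hρρ ha0.le) hat
  have hδ : 0 < 1 - a * ρ := by linarith
  set E : ℝ := a ^ 2 * C * (1 / (1 - a * ρ) + C / (2 * (1 - a * ρ) ^ 2)) with hE
  have hE0 : 0 < E := by positivity
  obtain ⟨n, hn⟩ := exists_nat_ge (C * max 2 (E / (a - 1)))
  obtain ⟨k₂, hk₂⟩ := hgrow n
  refine ⟨max k₁ k₂, ?_⟩
  intro k hk H hH
  have hkk1 : k₁ ≤ k := (le_max_left _ _).trans hk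
  have hkk2 : k₂ ≤ k := (le_max_right _ _).trans hk
  have hk' : 1 ≤ k := hk1.trans hkk1
  have hHc : H.Connected := MAINB_conn G H k hk' hG hH
  have hHf : ∀ v, (H.neighborSet v).Finite := by
    intro v
    refine (hball v k).subset ?_
    intro y hy
    rw [SimpleGraph.mem_neighborSet, hH v y] at hy
    exact hy.2
  obtain ⟨w, r, x₀, hr0, hw, hx0, hsum, hrV, hVr⟩ :=
    hPWT V G hG hQT C k hC1 hk' hball (hcmp2 k hkk1) H hH hHf
  have hrn : max 2 (E / (a - 1)) ≤ r := by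
    have h1 : (n : ℝ) ≤ C * r := by
      refine le_trans ?_ (hVr x₀)
      exact_mod_cast hk₂ k hkk2 x₀
    have h2 : C * max 2 (E / (a - 1)) ≤ C * r := hn.trans h1
    exact le_of_mul_le_mul_left h2 hC0
  have hr2 : 2 ≤ r := (le_max_left _ _).trans hrn
  have hrE : E / (a - 1) ≤ r := (le_max_right _ _).trans hrn
  have hQB : QB H (ρ * r) := by
    refine hCHG V H hHf w r c₂ (fun x => (hw x).1) hr0 hc20.le (by linarith) hsum ?_
    intro K
    have hex := hEXN V G hG C c hC1 hc0 (fun x => ⟨hf x, hdegC x⟩) hball hcmp1 hc k hk' H hH K x₀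
    rw [MAINB_card H hHf K] at hex
    have hwC : ∀ x, 1 / (C : ℝ) ≤ w x := by
      intro x
      rw [div_le_iff₀ hC0]
      have := (hw x).2.2
      linarith
    have h1 : (1 / (C : ℝ)) * (1 / (C : ℝ)) *
        ∑ x ∈ K, (((hHf x).toFinset.filter (fun y => y ∉ K)).card : ℝ) ≤
        ∑ x ∈ K, w x * ∑ y ∈ (hHf x).toFinset.filter (fun y => y ∉ K), w y := by
      rw [Finset.mul_sum]
      refine Finset.sum_le_sum (fun x _ => ?_)
      rw [mul_assoc]
      refine mul_le_mul (hwC x) ?_ (by positivity) (hw x).1.le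
      rw [mul_comm, ← nsmul_eq_mul]
      exact Finset.card_nsmul_le_sum _ _ _ (fun y _ => hwC y)
    have h2 : c₂ * r * ∑ x ∈ K, w x ^ 2 ≤
        c₂ * ({v | G.dist x₀ v ≤ k}.ncard : ℝ) * (K.card : ℝ) := by
      have h3 : ∑ x ∈ K, w x ^ 2 ≤ (K.card : ℝ) := by
        calc ∑ x ∈ K, w x ^ 2 ≤ ∑ x ∈ K, (1 : ℝ) := by
              refine Finset.sum_le_sum (fun x _ => ?_)
              have h4 := (hw x).1
              have h5 := (hw x).2.1
              nlinarith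
          _ = (K.card : ℝ) := by simp
      have h4 : 0 ≤ ∑ x ∈ K, w x ^ 2 := Finset.sum_nonneg (fun x _ => sq_nonneg _)
      calc c₂ * r * ∑ x ∈ K, w x ^ 2
          ≤ c₂ * ({v | G.dist x₀ v ≤ k}.ncard : ℝ) * ∑ x ∈ K, w x ^ 2 :=
            mul_le_mul_of_nonneg_right (mul_le_mul_of_nonneg_left hrV hc20.le) h4
        _ ≤ _ := mul_le_mul_of_nonneg_left h3 (by positivity)
    refine h2.trans (le_trans ?_ h1)
    have h5 : (c / (4 * (C : ℝ) ^ 4)) * ({v | G.dist x₀ v ≤ k}.ncard : ℝ) * (K.card : ℝ) ≤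
        (1 / (C : ℝ)) * (1 / (C : ℝ)) *
        ∑ x ∈ K, (((hHf x).toFinset.filter (fun y => y ∉ K)).card : ℝ) := by
      have h6 : (1 / (C : ℝ)) * (1 / (C : ℝ)) * (c / (4 * (C : ℝ) ^ 2) *
          ({v | G.dist x₀ v ≤ k}.ncard : ℝ) * (K.card : ℝ)) ≤ (1 / (C : ℝ)) * (1 / (C : ℝ)) *
          ∑ x ∈ K, (((hHf x).toFinset.filter (fun y => y ∉ K)).card : ℝ) :=
        mul_le_mul_of_nonneg_left hex (by positivity)
      refine le_trans (le_of_eq ?_) h6
      field_simp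
    refine le_trans ?_ h5
    refine mul_le_mul_of_nonneg_right (mul_le_mul_of_nonneg_right hc22 ?_) ?_ <;> positivity
  refine hWTD V H hHc hHf w C r ρ a x₀ hw hx0 hsum hQB hρ0 hr2 ha1 ha2 q hq hat ?_
  have ha10 : 0 < a - 1 := by linarith
  have h7 : a ^ 2 * C / r * (1 / (1 - a * ρ) + C / (2 * (1 - a * ρ) ^ 2)) = E / r := by
    rw [hE]; ring
  rw [h7, div_le_iff₀ hr0]
  rw [div_le_iff₀ ha10] at hrE
  linarith

end Pool.L2D
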