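import Pool.Agent.Work.MP_23451d_ld.Interface

/-! Block MB: the two error terms (helper75). -/

set_option autoImplicit false

namespace Pool.L2D

open MeasureTheory SimpleGraph Pool.L2B
open scoped ENNReal

theorem MB_CS {ι : Type} (s : Finset ι) (f : ι → ℝ≥0∞) :
    (∑ i ∈ s, f i) ^ 2 ≤ s.card * ∑ i ∈ s, f i ^ 2 := by
  classical
  by_cases h : ∀ i ∈ s, f i ≠ ⊤
  · have h1 : ∀ i ∈ s, f i = ENNReal.ofReal ((f i).toReal) := fun i hi =>
      (ENNReal.ofReal_toReal (h i hi)).symm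
    have h2 : ∑ i ∈ s, f i = ENNReal.ofReal (∑ i ∈ s, (f i).toReal) := by
      rw [ENNReal.ofReal_sum_of_nonneg fun i _ => ENNReal.toReal_nonneg]
      exact Finset.sum_congr rfl h1
    have h3 : ∑ i ∈ s, f i ^ 2 = ENNReal.ofReal (∑ i ∈ s, (f i).toReal ^ 2) := by
      rw [ENNReal.ofReal_sum_of_nonneg fun i _ => sq_nonneg _]
      refine Finset.sum_congr rfl fun i hi => ?_
      rw [ENNReal.ofReal_pow ENNReal.toReal_nonneg, ← h1 i hi]
    have h4 : (s.card : ℝ≥0∞) = ENNReal.ofReal (s.card : ℝ) := (ENNReal.ofReal_natCast _).symm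
    rw [h2, h3, h4, ← ENNReal.ofReal_pow (Finset.sum_nonneg fun i _ => ENNReal.toReal_nonneg),
      ← ENNReal.ofReal_mul (Nat.cast_nonneg _)]
    exact ENNReal.ofReal_le_ofReal (sq_sum_le_card_mul_sum_sq)
  · push Not at h
    obtain ⟨i, hi, hit⟩ := h
    have h1 : ∑ i ∈ s, f i ^ 2 = ⊤ := by
      rw [ENNReal.sum_eq_top]
      exact ⟨i, hi, by rw [hit]; exact ENNReal.top_pow two_ne_zero⟩
    have h2 : (s.card : ℝ≥0∞) ≠ 0 := by
      exact_mod_cast (Finset.card_pos.2 ⟨i, hi⟩).ne'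
    rw [h1, ENNReal.mul_top h2]
    exact le_top

theorem MB_nb {V : Type} (G : SimpleGraph V) (f : V → ℝ≥0∞) (x : V) (K : Finset V)
    (hK : (K : Set V) = G.neighborSet x) : nb G f x = ∑ y ∈ K, f y := by
  have h : ∀ S : Set V, (K : Set V) = S → ∑' y : S, f y.1 = ∑ y ∈ K, f y := by
    rintro _ rfl
    exact Finset.tsum_subtype' K f
  exact h _ hK

theorem p_MB (h1 : Stmt_WLK) (h2 : Stmt_L2W) : Stmt_MB := by
  intro V G hf p lam d hp hlam hpl hQ hd
  obtain ⟨sy, w1, w2, -, -⟩ := h1 V G p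
  have hη : 0 < 1 - p * lam := by linarith
  have hN : ∀ v, ((hf v).toFinset : Set V) = G.neighborSet v := fun v =>
    Set.Finite.coe_toFinset (hf v)
  have hc : ∀ v, (((hf v).toFinset).card : ℝ) ≤ d := by
    intro v
    rw [← Set.ncard_eq_toFinset_card _ (hf v)]
    exact hd v
  have hne : ∀ v, ∀ y ∈ (hf v).toFinset, y ≠ v := by
    intro v y hy
    rw [Set.Finite.mem_toFinset] at hy
    exact (G.ne_of_adj hy).symm
  refine ⟨?_, ?_, ?_⟩
  · intro u v hT
    have e1 := h2 V G hf p lam hp hlam hpl hQ {u}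
    have e2 : Wk G p u v ^ 2 ≤ ∑' z, (∑ y ∈ {u}, Wk G p y z) ^ 2 := by
      have := ENNReal.le_tsum (f := fun z => (∑ y ∈ {u}, Wk G p y z) ^ 2) v
      simpa using this
    rw [hT, ENNReal.top_pow two_ne_zero] at e2
    exact absurd (e2.trans e1) (not_le.2 ENNReal.ofReal_lt_top)
  · intro z
    set K := (hf z).toFinset with hK
    have e1 : Rk G p z z = ENNReal.ofReal p ^ 2 * ∑ y ∈ K, ∑ y' ∈ K, Wk G p y y' := by
      unfold Rk
      rw [MB_nb G _ z K (hN z), pow_two, mul_assoc]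
      congr 1
      rw [Finset.mul_sum]
      refine Finset.sum_congr rfl fun y hy => ?_
      rw [sy z y, w2 y z (hne z y hy)]
      unfold Rk
      rw [MB_nb G _ z K (hN z)]
    have e2 : (∑ y' ∈ K, ∑ y ∈ K, Wk G p y y') ^ 2 ≤
        ENNReal.ofReal (((K.card : ℝ) / (1 - p * lam)) ^ 2) := by
      calc (∑ y' ∈ K, ∑ y ∈ K, Wk G p y y') ^ 2
          ≤ K.card * ∑ y' ∈ K, (∑ y ∈ K, Wk G p y y') ^ 2 := MB_CS K _
        _ ≤ K.card * ∑' y', (∑ y ∈ K, Wk G p y y') ^ 2 := by
            gcongr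
            exact ENNReal.sum_le_tsum K
        _ ≤ K.card * ENNReal.ofReal ((K.card : ℝ) / (1 - p * lam) ^ 2) := by
            gcongr
            exact h2 V G hf p lam hp hlam hpl hQ K
        _ = ENNReal.ofReal (((K.card : ℝ) / (1 - p * lam)) ^ 2) := by
            rw [← ENNReal.ofReal_natCast, ← ENNReal.ofReal_mul (Nat.cast_nonneg _)]
            congr 1
            rw [div_pow]
            ring
    have e3 : ∑ y' ∈ K, ∑ y ∈ K, Wk G p y y' ≤ ENNReal.ofReal ((K.card : ℝ) / (1 - p * lam)) := by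
      rw [ENNReal.ofReal_pow (by positivity)] at e2
      exact (ENNReal.pow_le_pow_left_iff two_ne_zero).1 e2
    rw [e1, Finset.sum_comm]
    calc ENNReal.ofReal p ^ 2 * ∑ y' ∈ K, ∑ y ∈ K, Wk G p y y'
        ≤ ENNReal.ofReal p ^ 2 * ENNReal.ofReal ((K.card : ℝ) / (1 - p * lam)) := by gcongr
      _ = ENNReal.ofReal (p ^ 2 * ((K.card : ℝ) / (1 - p * lam))) := by
          rw [← ENNReal.ofReal_pow hp, ← ENNReal.ofReal_mul (by positivity)]
      _ ≤ ENNReal.ofReal (p ^ 2 * d / (1 - p * lam)) := by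
          refine ENNReal.ofReal_le_ofReal ?_
          rw [mul_div_assoc]
          refine mul_le_mul_of_nonneg_left ?_ (by positivity)
          exact div_le_div_of_nonneg_right (hc z) hη.le
  · intro u
    set K := (hf u).toFinset with hK
    have hR : ∀ z, Rk G p u z = Rk G p z u := by
      intro z
      by_cases h : u = z
      · rw [h]
      · rw [← w2 u z h, ← w2 z u (Ne.symm h), sy]
    have e1 : ∀ z, Rk G p u z ^ 2 = ENNReal.ofReal p ^ 2 * (∑ y ∈ K, Wk G p y z) ^ 2 := by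
      intro z
      rw [hR z, ← mul_pow]
      congr 1
      unfold Rk
      rw [MB_nb G _ u K (hN u)]
      congr 1
      exact Finset.sum_congr rfl fun y _ => sy z y
    rw [tsum_congr e1, ENNReal.tsum_mul_left]
    calc ENNReal.ofReal p ^ 2 * ∑' z, (∑ y ∈ K, Wk G p y z) ^ 2
        ≤ ENNReal.ofReal p ^ 2 * ENNReal.ofReal ((K.card : ℝ) / (1 - p * lam) ^ 2) := by
          gcongr
          exact h2 V G hf p lam hp hlam hpl hQ K
      _ = ENNReal.ofReal (p ^ 2 * ((K.card : ℝ) / (1 - p * lam) ^ 2)) := by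
          rw [← ENNReal.ofReal_pow hp, ← ENNReal.ofReal_mul (by positivity)]
      _ ≤ ENNReal.ofReal (p ^ 2 * d / (1 - p * lam) ^ 2) := by
          refine ENNReal.ofReal_le_ofReal ?_
          rw [mul_div_assoc]
          refine mul_le_mul_of_nonneg_left ?_ (by positivity)
          exact div_le_div_of_nonneg_right (hc u) (by positivity)

end Pool.L2D
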