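import Pool.Agent.Work.MP_23451d_ld.Interface

/-! # OPN: finitely many labels -/

set_option autoImplicit false

namespace Pool.L2D

open MeasureTheory SimpleGraph Pool.L2B
open scoped ENNReal

theorem p_OPN (hLAB : Stmt_LAB) (hSIG : Stmt_SIG) : Stmt_OPN := by
  classical
  intro V E p hp0 hp1
  have hmeas : ∀ E : Finset (Sym2 V), MeasurableSet[sig (E : Set (Sym2 V))]
      {ω : Sym2 V → unitInterval | ∀ e ∈ E, ((ω e : unitInterval) : ℝ) < p} := by
    intro E
    have e1 : {ω : Sym2 V → unitInterval | ∀ e ∈ E, ((ω e : unitInterval) : ℝ) < p} =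
        ⋂ e ∈ E, {ω : Sym2 V → unitInterval | ((ω e : unitInterval) : ℝ) < p} := by
      ext ω; simp
    rw [e1]
    refine @Finset.measurableSet_biInter _ _ (sig (E : Set (Sym2 V))) _ E ?_
    intro e he
    exact (hSIG V).2.1 {e} (E : Set (Sym2 V)) (by simpa using he) _ (hLAB V e p).1
  refine ⟨hmeas E, ?_⟩
  induction E using Finset.induction_on with
  | empty =>
    have : {ω : Sym2 V → unitInterval | ∀ e ∈ (∅ : Finset (Sym2 V)),
        ((ω e : unitInterval) : ℝ) < p} = Set.univ := by
      ext ω; simp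
    rw [this, measure_univ]
    simp
  | insert e E he ih =>
    have e1 : {ω : Sym2 V → unitInterval | ∀ e' ∈ insert e E, ((ω e' : unitInterval) : ℝ) < p} =
        {ω : Sym2 V → unitInterval | ((ω e : unitInterval) : ℝ) < p} ∩
        {ω : Sym2 V → unitInterval | ∀ e' ∈ E, ((ω e' : unitInterval) : ℝ) < p} := by
      ext ω; simp
    rw [e1, (hSIG V).2.2 {e} (E : Set (Sym2 V)) (by simpa using he) _ _ (hLAB V e p).1 (hmeas E),
      (hLAB V e p).2 hp0 hp1, ih, Finset.card_insert_of_notMem he, pow_succ, mul_comm]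

end Pool.L2D
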