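import Pool.Agent.Work.MP_23451d_ld.Interface

/-! # PCB: the upper bound of the critical probability -/

set_option autoImplicit false

namespace Pool.L2D

open MeasureTheory SimpleGraph Pool.L2B
open scoped ENNReal

theorem p_PCB (hDCTL : Stmt_DCTL) : Stmt_PCB := by
  intro V _ G hG hf p hp0 x hphi
  by_contra hcon
  push Not at hcon
  unfold pc at hcon
  have hne : {p : ℝ | 0 ≤ p ∧ p ≤ 1 ∧ ∀ o : V,
      mu V {ω | Set.Infinite {v | Conn G p ω o v}} = 0}.Nonempty := by
    by_contra hne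
    rw [Set.not_nonempty_iff_eq_empty] at hne
    rw [hne, Real.sSup_empty] at hcon
    linarith
  obtain ⟨p₂, ⟨_, hp21, hp22⟩, hpp2⟩ := exists_lt_of_lt_csSup hne hcon
  have h1 : p < (p + p₂) / 2 := by linarith
  have h2 : (p + p₂) / 2 < p₂ := by linarith
  refine hDCTL V G hG hf p ((p + p₂) / 2) hp0 h1 (by linarith) x hphi ?_
  refine measure_mono_null ?_ (hp22 x)
  intro ω hω
  refine Set.Infinite.mono ?_ hω
  rintro v ⟨w, hw⟩
  exact ⟨w, fun e he => (hw e he).trans h2⟩

end Pool.L2D
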