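import Pool.Agent.Work.MP_23451d_ld.Interface

/-! # PF: the theorem of Perron for positive matrices -/

set_option autoImplicit false

namespace Pool.L2D

open scoped BigOperators

theorem p_PF : Stmt_PF := by
  classical
  intro Q _ _ M hM
  -- a bound of the row sums
  obtain ⟨T, hT⟩ : ∃ T : ℝ, ∀ a, ∑ b, M a b ≤ T := by
    refine ⟨∑ a, ∑ b, M a b, fun a => ?_⟩
    exact Finset.single_le_sum (f := fun a => ∑ b, M a b)
      (fun i _ => Finset.sum_nonneg (fun b _ => (hM i b).le)) (Finset.mem_univ a)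
  -- the compact set
  set K : Set ((Q → ℝ) × ℝ) := {x | x.1 ∈ stdSimplex ℝ Q ∧ x.2 ∈ Set.Icc 0 T ∧
    ∀ a, x.2 * x.1 a ≤ ∑ b, M a b * x.1 b} with hK
  have hKc : IsCompact K := by
    have h1 : IsCompact (stdSimplex ℝ Q ×ˢ Set.Icc (0 : ℝ) T) :=
      (isCompact_stdSimplex ℝ Q).prod isCompact_Icc
    have h2 : IsClosed {x : (Q → ℝ) × ℝ | ∀ a, x.2 * x.1 a ≤ ∑ b, M a b * x.1 b} := by
      rw [Set.ofPred_forall]
      refine isClosed_iInter fun a => isClosed_le ?_ ?_
      · exact continuous_snd.mul ((continuous_apply a).comp continuous_fst)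
      · exact continuous_finsetSum _ fun b _ =>
          continuous_const.mul ((continuous_apply b).comp continuous_fst)
    have h3 : K = (stdSimplex ℝ Q ×ˢ Set.Icc (0 : ℝ) T) ∩
        {x : (Q → ℝ) × ℝ | ∀ a, x.2 * x.1 a ≤ ∑ b, M a b * x.1 b} := by
      ext x
      constructor
      · rintro ⟨h1, h2, h3⟩
        exact ⟨⟨h1, h2⟩, h3⟩
      · rintro ⟨⟨h1, h2⟩, h3⟩
        exact ⟨h1, h2, h3⟩
    rw [h3]
    exact h1.inter_right h2
  have hT0 : 0 ≤ T := by
    obtain ⟨a⟩ := ‹Nonempty Q›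
    exact (Finset.sum_nonneg (fun b _ => (hM a b).le)).trans (hT a)
  have hpos : ∀ v : Q → ℝ, v ∈ stdSimplex ℝ Q → ∀ a, 0 < ∑ b, M a b * v b := by
    intro v hv a
    obtain ⟨b, hb⟩ : ∃ b, 0 < v b := by
      by_contra hcon
      push Not at hcon
      have : ∑ b, v b ≤ 0 := Finset.sum_nonpos (fun b _ => hcon b)
      rw [hv.2] at this
      linarith
    exact Finset.sum_pos' (fun b _ => mul_nonneg (hM a b).le (hv.1 b))
      ⟨b, Finset.mem_univ b, mul_pos (hM a b) hb⟩
  have hne : K.Nonempty := by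
    obtain ⟨a₀⟩ := ‹Nonempty Q›
    have hs : (fun _ : Q => (1 : ℝ) / Fintype.card Q) ∈ stdSimplex ℝ Q := by
      refine ⟨fun _ => by positivity, ?_⟩
      rw [Finset.sum_const, Finset.card_univ, nsmul_eq_mul]
      have : (Fintype.card Q : ℝ) ≠ 0 := by
        have : 0 < Fintype.card Q := Fintype.card_pos_iff.mpr ⟨a₀⟩
        positivity
      field_simp
    refine ⟨((fun _ => (1 : ℝ) / Fintype.card Q), 0), hs, ⟨le_rfl, hT0⟩, fun a => ?_⟩
    rw [zero_mul]
    exact (hpos _ hs a).le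
  obtain ⟨⟨w, t⟩, ⟨hws, ht, hwt⟩, hmax⟩ := hKc.exists_isMaxOn hne continuous_snd.continuousOn
  simp only at hws ht hwt
  -- the image vector
  set u : Q → ℝ := fun a => ∑ b, M a b * w b with hu
  have hu0 : ∀ a, 0 < u a := fun a => hpos w hws a
  have heq : ∀ a, u a = t * w a := by
    by_contra hcon
    push Not at hcon
    obtain ⟨a₁, ha₁⟩ := hcon
    have hlt : t * w a₁ < u a₁ := lt_of_le_of_ne (hwt a₁) (fun h => ha₁ h.symm)
    have hstrict : ∀ a, t * u a < ∑ b, M a b * u b := by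
      intro a
      have e1 : t * u a = ∑ b, M a b * (t * w b) := by
        rw [hu]
        simp only
        rw [Finset.mul_sum]
        refine Finset.sum_congr rfl fun b _ => ?_
        ring
      rw [e1]
      refine Finset.sum_lt_sum (fun b _ => mul_le_mul_of_nonneg_left (hwt b) (hM a b).le) ?_
      exact ⟨a₁, Finset.mem_univ _, mul_lt_mul_of_pos_left hlt (hM a a₁)⟩
    -- a larger value
    obtain ⟨a₂, ha₂⟩ := Finite.exists_min (fun a => (∑ b, M a b * u b) / u a)
    set t' := (∑ b, M a₂ b * u b) / u a₂ with ht'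
    have htt' : t < t' := by
      rw [ht', lt_div_iff₀ (hu0 a₂)]
      exact hstrict a₂
    set s := ∑ b, u b with hs
    have hs0 : 0 < s := Finset.sum_pos (fun b _ => hu0 b) Finset.univ_nonempty
    have hvs : (fun a => u a / s) ∈ stdSimplex ℝ Q := by
      refine ⟨fun a => (div_pos (hu0 a) hs0).le, ?_⟩
      rw [← Finset.sum_div, div_self hs0.ne']
    have hvt : ∀ a, t' * (u a / s) ≤ ∑ b, M a b * (u b / s) := by
      intro a
      have h1 : t' * u a ≤ ∑ b, M a b * u b := by
        have := ha₂ a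
        rwa [le_div_iff₀ (hu0 a)] at this
      calc t' * (u a / s) = (t' * u a) / s := by ring
        _ ≤ (∑ b, M a b * u b) / s := div_le_div_of_nonneg_right h1 hs0.le
        _ = ∑ b, M a b * (u b / s) := by
            rw [Finset.sum_div]
            refine Finset.sum_congr rfl fun b _ => ?_
            ring
    have ht'T : t' ≤ T := by
      -- compare at the largest coordinate
      obtain ⟨a₃, ha₃⟩ := Finite.exists_max u
      have h1 : t' * u a₃ ≤ ∑ b, M a₃ b * u b := by
        have := ha₂ a₃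
        rwa [le_div_iff₀ (hu0 a₃)] at this
      have h2 : ∑ b, M a₃ b * u b ≤ T * u a₃ := by
        calc ∑ b, M a₃ b * u b ≤ ∑ b, M a₃ b * u a₃ :=
              Finset.sum_le_sum fun b _ => mul_le_mul_of_nonneg_left (ha₃ b) (hM a₃ b).le
          _ = (∑ b, M a₃ b) * u a₃ := by rw [Finset.sum_mul]
          _ ≤ T * u a₃ := mul_le_mul_of_nonneg_right (hT a₃) (hu0 a₃).le
      exact le_of_mul_le_mul_right (h1.trans h2) (hu0 a₃)
    have hmem : ((fun a => u a / s), t') ∈ K :=
      ⟨hvs, ⟨(ht.1.trans htt'.le), ht'T⟩, hvt⟩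
    have := hmax hmem
    simp only [Set.mem_ofPred_eq] at this
    linarith
  have ht0 : 0 < t := by
    obtain ⟨a⟩ := ‹Nonempty Q›
    have h1 := hu0 a
    rw [heq a] at h1
    rcases ht.1.lt_or_eq with h | h
    · exact h
    · rw [← h, zero_mul] at h1
      exact absurd h1 (lt_irrefl _)
  refine ⟨t, w, ht0, fun a => ?_, fun a => heq a⟩
  have h1 := hu0 a
  rw [heq a] at h1
  exact (mul_pos_iff_of_pos_left ht0).mp h1

end Pool.L2D
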