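import Pool.Agent.Work.MP_23451d_ld.Interface

/-! # PHI: the finite volume quantity is at least one -/

set_option autoImplicit false

namespace Pool.L2D

open MeasureTheory SimpleGraph Pool.L2B
open scoped ENNReal

theorem PHI_nb {V : Type} (G : SimpleGraph V) (z : V) (hf : (G.neighborSet z).Finite)
    (f : V → ℝ≥0∞) : nb G f z = ∑ y ∈ hf.toFinset, f y := by
  unfold nb
  have : Fintype (G.neighborSet z) := hf.fintype
  rw [tsum_fintype, ← Finset.sum_coe_sort hf.toFinset]
  refine Fintype.sum_equiv (Equiv.subtypeEquivRight (fun y => by simp)) _ _ (fun y => rfl)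

theorem PHI_stay {V : Type} (G : SimpleGraph V) (S : Set V) {a c : V}
    (w : (within G S).Walk a c) (ha : a ∈ S) : c ∈ S := by
  induction w with
  | nil => exact ha
  | cons h _ ih => exact ih h.2.2

theorem PHI_rk (hWLK : Stmt_WLK) {V : Type} (G G' : SimpleGraph V) (h : G' ≤ G) (p : ℝ)
    (u v : V) : Rk G' p u v ≤ Rk G p u v := by
  have h1 := hWLK V G p
  have h2 := hWLK V G' p
  by_cases huv : u = v
  · subst huv
    have h3 := h2.2.2.2.1 G h u u
    rw [h1.2.1, h2.2.1] at h3
    exact (ENNReal.add_le_add_iff_left ENNReal.one_ne_top).mp h3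
  · rw [← h1.2.2.1 u v huv, ← h2.2.2.1 u v huv]
    exact h2.2.2.2.1 G h u v

theorem p_PHI (hKEY : Stmt_KEY) (hTAU : Stmt_TAU) (hWLK : Stmt_WLK) : Stmt_PHI := by
  classical
  intro V _ G p hp0 hp1 hf w m b hw1 hm hb hR hRb hsup x hwx S hxS
  set G' := within G (S : Set V) with hG'
  have hG'le : G' ≤ G := fun a b h => h.1
  have hf' : ∀ z, (G'.neighborSet z).Finite := fun z =>
    (hf z).subset (fun y hy => (hG'le hy : G.Adj z y))
  set X : V → ℝ≥0∞ := fun z => tau G' p x z with hX
  have hX1 : ∀ z, X z ≤ 1 := fun z => (hTAU V G' G' p p x z).1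
  have hXx : X x = 1 := (hTAU V G' G' p p x x).2.1
  have hX0 : ∀ z, z ∉ S → X z = 0 := by
    intro z hz
    have : {ω : Sym2 V → unitInterval | Conn G' p ω x z} = ∅ := by
      ext ω
      simp only [Set.mem_ofPred_eq, Set.mem_empty_iff_false, iff_false]
      rintro ⟨w', _⟩
      exact hz (by simpa using PHI_stay G (S : Set V) w' (by simpa using hxS))
    show mu V {ω | Conn G' p ω x z} = 0
    rw [this, measure_empty]
  have hnbS : ∀ z ∈ S, ∀ f : V → ℝ≥0∞,
      nb G' f z = ∑ y ∈ S, if G.Adj z y then f y else 0 := by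
    intro z hz f
    rw [PHI_nb G' z (hf' z), ← Finset.sum_filter]
    refine Finset.sum_congr ?_ (fun _ _ => rfl)
    ext y
    rw [Set.Finite.mem_toFinset, Finset.mem_filter, SimpleGraph.mem_neighborSet]
    constructor
    · rintro ⟨h1, _, h3⟩
      exact ⟨by simpa using h3, h1⟩
    · rintro ⟨h1, h2⟩
      exact ⟨h2, by simpa using hz, by simpa using h1⟩
  have hnbG : ∀ y, nb G w y = (∑ z ∈ S, if G.Adj y z then w z else 0) +
      ∑ z ∈ (hf y).toFinset.filter (fun z => z ∉ S), w z := by
    intro y
    rw [PHI_nb G y (hf y), ← Finset.sum_filter_add_sum_filter_not (hf y).toFinset (fun z => z ∈ S),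
      ← Finset.sum_filter]
    congr 1
    refine Finset.sum_congr ?_ (fun _ _ => rfl)
    ext z
    simp only [Finset.mem_filter, Set.Finite.mem_toFinset, SimpleGraph.mem_neighborSet]
    tauto
  set D1 : ℝ≥0∞ := ∑ z ∈ S, ∑ y ∈ S, (if G.Adj z y then X y * w z else 0) with hD1
  set Y : ℝ≥0∞ := ∑ z ∈ S, X z * w z with hY
  have hD1fin : ENNReal.ofReal p * D1 ≠ ⊤ := by
    refine ENNReal.mul_ne_top ENNReal.ofReal_ne_top ?_
    rw [hD1, ENNReal.sum_ne_top]
    intro z _
    rw [ENNReal.sum_ne_top]
    intro y _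
    split_ifs
    · exact ENNReal.mul_ne_top (ne_top_of_le_ne_top ENNReal.one_ne_top (hX1 y))
        (ne_top_of_le_ne_top ENNReal.one_ne_top (hw1 z))
    · simp
  -- the key inequality, weighted
  have hkey : ∀ z ∈ S, ENNReal.ofReal p * (∑ y ∈ S, if G.Adj z y then X y * w z else 0) +
      (if z = x then 1 else 0) ≤
      X z * (1 + m) * w z + (1 / 2) * ((∑' u, X u * Rk G p u z ^ 2) * w z) := by
    intro z hz
    obtain ⟨hk1, hk2⟩ := hKEY V G' p hp0 hp1 x z (hf' z)
    have e1 : ENNReal.ofReal p * (∑ y ∈ S, if G.Adj z y then X y * w z else 0) =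
        (ENNReal.ofReal p * nb G' X z) * w z := by
      rw [hnbS z hz X, mul_assoc, Finset.sum_mul]
      congr 1
      refine Finset.sum_congr rfl fun y _ => ?_
      split_ifs <;> simp
    rw [e1]
    by_cases hzx : z = x
    · subst hzx
      rw [if_pos rfl, hXx, one_mul, hwx, mul_one, mul_one]
      calc ENNReal.ofReal p * nb G' X z + 1 ≤ m + 1 := by
            refine add_le_add ?_ le_rfl
            exact (hk2 rfl).trans ((PHI_rk hWLK G G' hG'le p z z).trans (hR z))
        _ = 1 + m := add_comm _ _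
        _ ≤ _ := le_self_add
    · rw [if_neg hzx, add_zero]
      calc (ENNReal.ofReal p * nb G' X z) * w z
          ≤ (X z * (1 + m) + (1 / 2) * ∑' u, X u * Rk G p u z ^ 2) * w z := by
            refine mul_le_mul' ?_ le_rfl
            refine (hk1 (fun h => hzx h.symm)).trans (add_le_add ?_ ?_)
            · refine mul_le_mul' le_rfl (add_le_add le_rfl ?_)
              exact (PHI_rk hWLK G G' hG'le p z z).trans (hR z)
            · refine mul_le_mul' le_rfl (ENNReal.tsum_le_tsum fun u => ?_)
              exact mul_le_mul' le_rfl (pow_le_pow_left' (PHI_rk hWLK G G' hG'le p u z) 2)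
        _ = _ := by rw [add_mul, mul_assoc (1 / 2 : ℝ≥0∞)]
  have hYt : ∑' u, X u * w u = Y := by
    rw [hY]
    refine tsum_eq_sum (s := S) (fun u hu => ?_)
    rw [hX0 u hu, zero_mul]
  have h1 : ENNReal.ofReal p * D1 + 1 ≤ (1 + m + (1 / 2) * b) * Y := by
    have e1 : ENNReal.ofReal p * D1 + 1 = ∑ z ∈ S, (ENNReal.ofReal p *
        (∑ y ∈ S, if G.Adj z y then X y * w z else 0) + (if z = x then 1 else 0)) := by
      rw [Finset.sum_add_distrib, hD1, Finset.mul_sum, Finset.sum_ite_eq' S x, if_pos hxS]
    rw [e1]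
    refine (Finset.sum_le_sum hkey).trans ?_
    rw [Finset.sum_add_distrib, ← Finset.mul_sum]
    have e2 : ∑ z ∈ S, X z * (1 + m) * w z = (1 + m) * Y := by
      rw [hY, Finset.mul_sum]
      refine Finset.sum_congr rfl fun z _ => ?_
      ring
    have e3 : ∑ z ∈ S, (∑' u, X u * Rk G p u z ^ 2) * w z ≤ b * Y := by
      calc ∑ z ∈ S, (∑' u, X u * Rk G p u z ^ 2) * w z
          = ∑ z ∈ S, ∑' u, X u * (Rk G p u z ^ 2 * w z) := by
            refine Finset.sum_congr rfl fun z _ => ?_
            rw [← ENNReal.tsum_mul_right]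
            refine tsum_congr fun u => ?_
            ring
        _ = ∑' u, ∑ z ∈ S, X u * (Rk G p u z ^ 2 * w z) :=
            (Summable.tsum_finsetSum (fun z _ => ENNReal.summable)).symm
        _ ≤ ∑' u, X u * (b * w u) := by
            refine ENNReal.tsum_le_tsum fun u => ?_
            rw [← Finset.mul_sum]
            refine mul_le_mul' le_rfl ?_
            exact (ENNReal.sum_le_tsum S).trans (hRb u)
        _ = b * Y := by
            rw [← hYt, ← ENNReal.tsum_mul_left]
            refine tsum_congr fun u => ?_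
            ring
    rw [e2]
    calc (1 + m) * Y + (1 / 2) * ∑ z ∈ S, (∑' u, X u * Rk G p u z ^ 2) * w z
        ≤ (1 + m) * Y + (1 / 2) * (b * Y) := add_le_add le_rfl (mul_le_mul' le_rfl e3)
      _ = _ := by ring
  have h2 : (1 + m + (1 / 2) * b) * Y ≤ ENNReal.ofReal p * D1 +
      ∑ y ∈ S, ∑ z ∈ (hf y).toFinset.filter (fun z => z ∉ S), ENNReal.ofReal p * X y := by
    calc (1 + m + (1 / 2) * b) * Y = ∑ y ∈ S, X y * ((1 + m + (1 / 2) * b) * w y) := by
          rw [hY, Finset.mul_sum]
          refine Finset.sum_congr rfl fun y _ => ?_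
          ring
      _ ≤ ∑ y ∈ S, X y * (ENNReal.ofReal p * nb G w y) :=
          Finset.sum_le_sum fun y _ => mul_le_mul' le_rfl (hsup y)
      _ = ∑ y ∈ S, (ENNReal.ofReal p * (∑ z ∈ S, if G.Adj y z then X y * w z else 0) +
            ENNReal.ofReal p * X y * ∑ z ∈ (hf y).toFinset.filter (fun z => z ∉ S), w z) := by
          refine Finset.sum_congr rfl fun y _ => ?_
          rw [hnbG y]
          have : (∑ z ∈ S, if G.Adj y z then X y * w z else 0) =
              X y * ∑ z ∈ S, if G.Adj y z then w z else 0 := by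
            rw [Finset.mul_sum]
            refine Finset.sum_congr rfl fun z _ => ?_
            split_ifs <;> simp
          rw [this]
          ring
      _ = ENNReal.ofReal p * D1 + ∑ y ∈ S, ENNReal.ofReal p * X y *
            ∑ z ∈ (hf y).toFinset.filter (fun z => z ∉ S), w z := by
          rw [Finset.sum_add_distrib]
          congr 1
          rw [← Finset.mul_sum, hD1, Finset.sum_comm]
          congr 1
          refine Finset.sum_congr rfl fun y _ => Finset.sum_congr rfl fun z _ => ?_
          simp only [G.adj_comm y z]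
      _ ≤ _ := by
          refine add_le_add le_rfl (Finset.sum_le_sum fun y _ => ?_)
          rw [Finset.mul_sum]
          refine Finset.sum_le_sum fun z _ => ?_
          calc ENNReal.ofReal p * X y * w z ≤ ENNReal.ofReal p * X y * 1 :=
                mul_le_mul' le_rfl (hw1 z)
            _ = _ := mul_one _
  have h3 : ∑ y ∈ S, ∑ z ∈ (hf y).toFinset.filter (fun z => z ∉ S), ENNReal.ofReal p * X y ≤
      phi G p (S : Set V) x := by
    unfold phi
    rw [tsum_subtype (bdE G (S : Set V)) (fun e => ENNReal.ofReal p * tau G' p x e.1)]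
    rw [← Finset.sum_sigma S (fun y => (hf y).toFinset.filter (fun z => z ∉ S))
      (fun e => ENNReal.ofReal p * X e.1)]
    have hinj : Function.Injective (fun s : (Σ _ : V, V) => (s.1, s.2)) := by
      rintro ⟨a, b⟩ ⟨a', b'⟩ h
      simp only [Prod.mk.injEq] at h
      obtain ⟨rfl, rfl⟩ := h
      rfl
    calc ∑ e ∈ S.sigma (fun y => (hf y).toFinset.filter (fun z => z ∉ S)),
          ENNReal.ofReal p * X e.1
        = ∑ e ∈ (S.sigma (fun y => (hf y).toFinset.filter (fun z => z ∉ S))).image
            (fun s : (Σ _ : V, V) => (s.1, s.2)),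
            (bdE G (S : Set V)).indicator (fun e => ENNReal.ofReal p * tau G' p x e.1) e := by
          rw [Finset.sum_image (fun a _ b _ h => hinj h)]
          refine Finset.sum_congr rfl ?_
          rintro ⟨y, z⟩ he
          rw [Finset.mem_sigma, Finset.mem_filter, Set.Finite.mem_toFinset,
            SimpleGraph.mem_neighborSet] at he
          rw [Set.indicator_of_mem]
          exact ⟨by simpa using he.1, by simpa using he.2.2, he.2.1⟩
      _ ≤ _ := ENNReal.sum_le_tsum _
  have h4 : ENNReal.ofReal p * D1 + 1 ≤ ENNReal.ofReal p * D1 + phi G p (S : Set V) x :=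
    h1.trans (h2.trans (add_le_add le_rfl h3))
  exact (ENNReal.add_le_add_iff_left hD1fin).mp h4

end Pool.L2D
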