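import Pool.Agent.Work.MP_23451d_ld.Interface

/-!
# Block PWT (MP_23451d_pr): the Perron weights of a power

Written by helper55.
-/

set_option autoImplicit false

namespace Pool.L2D

open MeasureTheory SimpleGraph Pool.L2B
open scoped ENNReal

lemma PWT_dist_le {V : Type} {G : SimpleGraph V} (hG : G.Connected) (φ : G ≃g G) (x y : V) :
    G.dist (φ x) (φ y) ≤ G.dist x y := by
  obtain ⟨w, hw⟩ := hG.exists_walk_length_eq_dist x y
  have h := SimpleGraph.dist_le (w.map φ.toHom)
  rw [SimpleGraph.Walk.length_map, hw] at h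
  exact h

lemma PWT_dist {V : Type} {G : SimpleGraph V} (hG : G.Connected) (φ : G ≃g G) (x y : V) :
    G.dist (φ x) (φ y) = G.dist x y := by
  refine le_antisymm (PWT_dist_le hG φ x y) ?_
  have h := PWT_dist_le hG φ.symm (φ x) (φ y)
  rwa [φ.symm_apply_apply, φ.symm_apply_apply] at h

open Classical in
theorem p_PWT (hPF : Stmt_PF) : Stmt_PWT := by
  intro V _ G hG hQT C k hC hk hfin hball H hH hf
  -- the orbits
  let S : Setoid V :=
    { r := fun u v => ∃ φ : G ≃g G, φ u = v
      iseqv :=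
        { refl := fun u => ⟨SimpleGraph.Iso.refl, rfl⟩
          symm := by
            rintro u v ⟨φ, rfl⟩
            exact ⟨φ.symm, φ.symm_apply_apply u⟩
          trans := by
            rintro u v w ⟨φ, rfl⟩ ⟨ψ, rfl⟩
            exact ⟨φ.trans ψ, rfl⟩ } }
  set cls : V → Quotient S := fun v => Quotient.mk S v with hcls
  have hcls_iff : ∀ u v, cls u = cls v ↔ ∃ φ : G ≃g G, φ u = v := by
    intro u v
    exact Quotient.eq (r := S)
  have hcls_surj : ∀ b : Quotient S, ∃ z, cls z = b := fun b => ⟨b.out, Quotient.out_eq b⟩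
  obtain ⟨F, hF⟩ := hQT
  have hFin : Finite (Quotient S) := by
    apply Finite.of_surjective (fun u : F => cls u.1)
    intro b
    obtain ⟨z, rfl⟩ := hcls_surj b
    obtain ⟨φ, u, hu, hφ⟩ := hF z
    exact ⟨⟨u, hu⟩, (hcls_iff u z).2 ⟨φ, hφ⟩⟩
  haveI : Fintype (Quotient S) := Fintype.ofFinite _
  haveI : Nonempty (Quotient S) := ⟨cls (Classical.arbitrary V)⟩
  -- neighbours
  have hN : ∀ x y, y ∈ (hf x).toFinset ↔ x ≠ y ∧ G.dist x y ≤ k := by
    intro x y
    rw [Set.Finite.mem_toFinset, SimpleGraph.mem_neighborSet]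
    exact hH x y
  set n : V → Quotient S → ℕ := fun x b => ((hf x).toFinset.filter (fun y => cls y = b)).card
    with hn
  have hn_inv : ∀ (φ : G ≃g G) (x : V) (b : Quotient S), n (φ x) b = n x b := by
    intro φ x b
    simp only [hn]
    symm
    apply Finset.card_bij (fun y _ => φ y)
    · intro y hy
      rw [Finset.mem_filter, hN] at hy ⊢
      refine ⟨⟨fun h => hy.1.1 (φ.injective h), ?_⟩, ?_⟩
      · rw [PWT_dist hG]
        exact hy.1.2
      · rw [← hy.2]
        exact ((hcls_iff y (φ y)).2 ⟨φ, rfl⟩).symm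
    · intro y _ y' _ h
      exact φ.injective h
    · intro y hy
      rw [Finset.mem_filter, hN] at hy
      refine ⟨φ.symm y, ?_, φ.apply_symm_apply y⟩
      rw [Finset.mem_filter, hN]
      refine ⟨⟨?_, ?_⟩, ?_⟩
      · intro h
        apply hy.1.1
        rw [h, φ.apply_symm_apply]
      · rw [← PWT_dist hG φ, φ.apply_symm_apply]
        exact hy.1.2
      · rw [← hy.2]
        exact (hcls_iff (φ.symm y) y).2 ⟨φ, φ.apply_symm_apply y⟩
  have hn_cls : ∀ x x' b, cls x = cls x' → n x b = n x' b := by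
    intro x x' b h
    obtain ⟨φ, rfl⟩ := (hcls_iff x x').1 h
    exact (hn_inv φ x b).symm
  -- the number of neighbours in a class
  have hn_ncard : ∀ x z, n x (cls z) =
      {v | (∃ φ : G ≃g G, φ z = v) ∧ v ≠ x ∧ G.dist x v ≤ k}.ncard := by
    intro x z
    simp only [hn]
    rw [← Set.ncard_coe_finset]
    congr 1
    ext v
    rw [Finset.mem_coe, Finset.mem_filter, hN]
    constructor
    · rintro ⟨⟨h1, h2⟩, h3⟩
      exact ⟨(hcls_iff z v).1 h3.symm, h1.symm, h2⟩
    · rintro ⟨h1, h2, h3⟩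
      exact ⟨⟨h2.symm, h3⟩, ((hcls_iff z v).2 h1).symm⟩
  have hVpos : ∀ x, 0 < {v | G.dist x v ≤ k}.ncard := by
    intro x
    rw [Set.ncard_pos (hfin x k)]
    exact ⟨x, by simp⟩
  have hVn : ∀ x y z, {v | G.dist y v ≤ k}.ncard ≤ C * n x (cls z) := by
    intro x y z
    rw [hn_ncard]
    exact hball x y z
  have hn_pos : ∀ x b, 0 < n x b := by
    intro x b
    obtain ⟨z, rfl⟩ := hcls_surj b
    have h1 := hVn x x z
    have h2 := hVpos x
    by_contra h3
    have h4 : n x (cls z) = 0 := by omega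
    rw [h4] at h1
    omega
  -- Perron
  obtain ⟨r, u, hr, hu, hru⟩ := hPF (Quotient S) (fun a b => (n a.out b : ℝ))
    (fun a b => by exact_mod_cast hn_pos a.out b)
  obtain ⟨b0, hb0⟩ := Finite.exists_max u
  obtain ⟨x0, hx0⟩ := hcls_surj b0
  have hub0 := hu b0
  have hsum : ∀ x, ∑ y ∈ (hf x).toFinset, u (cls y) / u b0 = r * (u (cls x) / u b0) := by
    intro x
    rw [← Finset.sum_fiberwise (hf x).toFinset cls (fun y => u (cls y) / u b0)]
    have h1 : ∀ b : Quotient S, ∑ y ∈ (hf x).toFinset.filter (fun y => cls y = b),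
        u (cls y) / u b0 = (n (cls x).out b : ℝ) * u b / u b0 := by
      intro b
      have h2 : ∀ y ∈ (hf x).toFinset.filter (fun y => cls y = b), u (cls y) / u b0 = u b / u b0 := by
        intro y hy
        rw [(Finset.mem_filter.1 hy).2]
      rw [Finset.sum_congr rfl h2, Finset.sum_const, nsmul_eq_mul]
      have h3 : n (cls x).out b = n x b := hn_cls _ _ b (Quotient.out_eq (cls x))
      rw [h3]
      ring
    rw [Finset.sum_congr rfl (fun b _ => h1 b), ← Finset.sum_div, hru (cls x)]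
    ring
  have hw1 : ∀ x, u (cls x) / u b0 ≤ 1 := by
    intro x
    rw [div_le_one hub0]
    exact hb0 (cls x)
  have hw0 : ∀ x, 0 < u (cls x) / u b0 := fun x => div_pos (hu _) hub0
  have hwx0 : u (cls x0) / u b0 = 1 := by
    rw [hx0]
    exact div_self hub0.ne'
  -- the two bounds
  have hrV : r ≤ ({v | G.dist x0 v ≤ k}.ncard : ℝ) := by
    have h1 := hsum x0
    rw [hwx0, mul_one] at h1
    rw [← h1]
    calc ∑ y ∈ (hf x0).toFinset, u (cls y) / u b0 ≤ ∑ _y ∈ (hf x0).toFinset, (1 : ℝ) :=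
          Finset.sum_le_sum fun y _ => hw1 y
      _ = ((hf x0).toFinset.card : ℝ) := by simp
      _ ≤ ({v | G.dist x0 v ≤ k}.ncard : ℝ) := by
        rw [← Set.ncard_coe_finset]
        have : ((hf x0).toFinset : Set V) ⊆ {v | G.dist x0 v ≤ k} := by
          intro y hy
          rw [Finset.mem_coe, hN] at hy
          exact hy.2
        exact_mod_cast Set.ncard_le_ncard this (hfin x0 k)
  have hVr : ∀ x y, ({v | G.dist y v ≤ k}.ncard : ℝ) ≤ C * (r * (u (cls x) / u b0)) := by
    intro x y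
    have h1 : ({v | G.dist y v ≤ k}.ncard : ℝ) ≤ C * (n x b0 : ℝ) := by
      have := hVn x y x0
      rw [hx0] at this
      exact_mod_cast this
    refine h1.trans ?_
    have h2 : (n x b0 : ℝ) ≤ r * (u (cls x) / u b0) := by
      rw [← hsum x]
      calc (n x b0 : ℝ) = ∑ _y ∈ (hf x).toFinset.filter (fun y => cls y = b0), (1 : ℝ) := by
            simp [hn]
        _ = ∑ y ∈ (hf x).toFinset.filter (fun y => cls y = b0), u (cls y) / u b0 := by
          apply Finset.sum_congr rfl
          intro y hy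
          rw [(Finset.mem_filter.1 hy).2, div_self hub0.ne']
        _ ≤ ∑ y ∈ (hf x).toFinset, u (cls y) / u b0 := by
          apply Finset.sum_le_sum_of_subset_of_nonneg (Finset.filter_subset _ _)
          intro y _ _
          exact (hw0 y).le
    gcongr
  refine ⟨fun x => u (cls x) / u b0, r, x0, hr, ?_, hwx0, hsum, hrV, ?_⟩
  · intro x
    refine ⟨hw0 x, hw1 x, ?_⟩
    have h1 := hVr x x0
    have h2 : r * 1 ≤ r * (C * (u (cls x) / u b0)) := by linarith
    exact le_of_mul_le_mul_left h2 hr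
  · intro x
    have h1 := hVr x0 x
    rw [hwx0, mul_one] at h1
    exact h1

end Pool.L2D
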