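import Pool.Agent.Work.MP_23451d_ld.Interface

/-! Block SUBI: walk sums of a subinvariant function. -/

set_option autoImplicit false

namespace Pool.L2D

open MeasureTheory SimpleGraph Pool.L2B
open scoped ENNReal

/-- walks from `x` are the trivial walk and the walks with a first step -/
def SUBI_equiv {V : Type} (G : SimpleGraph V) (x : V) :
    Unit ⊕ (Σ y : G.neighborSet x, Σ z, G.Walk y.1 z) ≃ (Σ z, G.Walk x z) where
  toFun
    | Sum.inl _ => ⟨x, Walk.nil⟩
    | Sum.inr ⟨y, z, w⟩ => ⟨z, Walk.cons y.2 w⟩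
  invFun
    | ⟨_, Walk.nil⟩ => Sum.inl ()
    | ⟨z, Walk.cons (v := y) h w⟩ => Sum.inr ⟨⟨y, h⟩, z, w⟩
  left_inv := by
    rintro (_ | ⟨y, z, w⟩) <;> rfl
  right_inv := by
    rintro ⟨z, w⟩
    cases w <;> rfl

/-- the truncated walk sums -/
noncomputable def SUBI_T {V : Type} (G : SimpleGraph V) (c : ℝ≥0∞) (g : V → ℝ≥0∞) (n : ℕ) (x : V) : ℝ≥0∞ :=
  ∑' s : Σ z, G.Walk x z, if s.2.length < n then c ^ s.2.length * g s.1 else 0

theorem SUBI_T_succ {V : Type} (G : SimpleGraph V) (c : ℝ≥0∞) (g : V → ℝ≥0∞) (n : ℕ) (x : V) :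
    SUBI_T G c g (n + 1) x = g x + c * nb G (SUBI_T G c g n) x := by
  unfold SUBI_T nb
  rw [← (SUBI_equiv G x).tsum_eq, Summable.tsum_sum ENNReal.summable ENNReal.summable]
  congr 1
  · simp [SUBI_equiv]
  · rw [ENNReal.tsum_sigma', ← ENNReal.tsum_mul_left]
    refine tsum_congr fun y => ?_
    rw [← ENNReal.tsum_mul_left]
    refine tsum_congr fun s => ?_
    obtain ⟨z, w⟩ := s
    simp only [SUBI_equiv, Equiv.coe_fn_mk, Walk.length_cons, Nat.add_lt_add_iff_right]
    split_ifs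
    · rw [pow_succ]; ring
    · simp

theorem p_SUBI : Stmt_SUBI := by
  intro V G p g lam η hsub hη h1 x
  set c := ENNReal.ofReal p with hc
  have hη1 : (1 - η) ≠ 0 := by
    rw [ne_eq, tsub_eq_zero_iff_le, not_le]; exact h1
  have hηt : (1 - η) ≠ ⊤ := ne_top_of_le_ne_top ENNReal.one_ne_top tsub_le_self
  have hid : 1 + η * (1 - η)⁻¹ = (1 - η)⁻¹ := by
    have h2 : (1 - η) * (1 - η)⁻¹ = 1 := ENNReal.mul_inv_cancel hη1 hηt
    calc 1 + η * (1 - η)⁻¹ = (1 - η) * (1 - η)⁻¹ + η * (1 - η)⁻¹ := by rw [h2]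
      _ = ((1 - η) + η) * (1 - η)⁻¹ := by rw [add_mul]
      _ = (1 - η)⁻¹ := by rw [tsub_add_cancel_of_le h1.le, one_mul]
  have key : ∀ n x, SUBI_T G c g n x ≤ (1 - η)⁻¹ * g x := by
    intro n
    induction n with
    | zero => intro x; simp [SUBI_T]
    | succ n ih =>
      intro x
      rw [SUBI_T_succ]
      calc g x + c * nb G (SUBI_T G c g n) x
          ≤ g x + c * ((1 - η)⁻¹ * nb G g x) := by
            gcongr
            unfold nb
            rw [← ENNReal.tsum_mul_left]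
            exact ENNReal.tsum_le_tsum fun y => ih y.1
        _ ≤ g x + c * ((1 - η)⁻¹ * (lam * g x)) := by
            gcongr
            exact hsub x
        _ = g x + (c * lam) * ((1 - η)⁻¹ * g x) := by ring
        _ ≤ g x + η * ((1 - η)⁻¹ * g x) := by gcongr
        _ = (1 + η * (1 - η)⁻¹) * g x := by ring
        _ = (1 - η)⁻¹ * g x := by rw [hid]
  have hW : ∑' y, Wk G p x y * g y = ∑' s : Σ z, G.Walk x z, c ^ s.2.length * g s.1 := by
    rw [ENNReal.tsum_sigma']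
    refine tsum_congr fun y => ?_
    unfold Wk
    rw [← ENNReal.tsum_mul_right]
  rw [hW]
  refine ENNReal.summable.tsum_le_of_sum_le fun s => ?_
  obtain ⟨n, hn⟩ : ∃ n, ∀ t ∈ s, t.2.length < n := by
    refine ⟨s.sup (fun t => t.2.length) + 1, fun t ht => ?_⟩
    exact Nat.lt_succ_of_le (Finset.le_sup (f := fun t : Σ z, G.Walk x z => t.2.length) ht)
  refine le_trans ?_ (key n x)
  unfold SUBI_T
  refine le_trans (le_of_eq ?_) (ENNReal.sum_le_tsum s)
  refine Finset.sum_congr rfl fun t ht => ?_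
  rw [if_pos (hn t ht)]

end Pool.L2D
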