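import Pool.Agent.Work.MP_23451d_ld.Interface

/-! # THRU: the effect of removing one vertex; common lemmas for THRU and TREE -/

set_option autoImplicit false

namespace Pool.L2D

open MeasureTheory SimpleGraph Pool.L2B
open scoped ENNReal

theorem THRU_countable {V : Type} [Countable V] (G : SimpleGraph V) (u v : V) :
    Countable (G.Walk u v) := by
  have hinj : Function.Injective (fun w : G.Walk u v => w.support) := by
    intro w w' h
    exact Walk.ext_support h
  exact hinj.countable

/-- open labels on `E` and a connection which does not use `E` are independent -/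
theorem THRU_ind (hSIG : Stmt_SIG) (hCME : Stmt_CME) (hTAU : Stmt_TAU) (hOPN : Stmt_OPN)
    {V : Type} [Countable V] (G : SimpleGraph V) (p : ℝ) (hp0 : 0 ≤ p) (hp1 : p ≤ 1) (x u : V)
    (E : Finset (Sym2 V)) :
    mu V {ω | (∀ e ∈ E, ((ω e : unitInterval) : ℝ) < p) ∧
      Conn (G.deleteEdges (E : Set (Sym2 V))) p ω x u} ≤
      ENNReal.ofReal p ^ E.card * tau G p x u := by
  have h1 : {ω : Sym2 V → unitInterval | (∀ e ∈ E, ((ω e : unitInterval) : ℝ) < p) ∧
      Conn (G.deleteEdges (E : Set (Sym2 V))) p ω x u} =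
      {ω : Sym2 V → unitInterval | ∀ e ∈ E, ((ω e : unitInterval) : ℝ) < p} ∩
      {ω | Conn (G.deleteEdges (E : Set (Sym2 V))) p ω x u} := rfl
  obtain ⟨hm, hmu⟩ := hOPN V E p hp0 hp1
  rw [h1, (hSIG V).2.2 (E : Set (Sym2 V)) (G.deleteEdges (E : Set (Sym2 V))).edgeSet ?_ _ _ hm
    (hCME V (G.deleteEdges (E : Set (Sym2 V))) p x u), hmu]
  · refine mul_le_mul_right ?_ _
    exact (hTAU V (G.deleteEdges (E : Set (Sym2 V))) G p p x u).2.2.2.2.1
      (SimpleGraph.deleteEdges_le _)
  · rw [SimpleGraph.edgeSet_deleteEdges]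
    exact Set.disjoint_sdiff_right

theorem THRU_card {V : Type} [DecidableEq V] {G : SimpleGraph V} {u v : V} (g : G.Walk u v)
    (hg : g.IsPath) : g.edges.toFinset.card = g.length := by
  rw [List.toFinset_card_of_nodup hg.isTrail.edges_nodup, Walk.length_edges]

/-- the first part of a path and the rest have disjoint edges -/
theorem THRU_split {V : Type} [DecidableEq V] {G : SimpleGraph V} {x y z : V} (w : G.Walk x y)
    (hw : w.IsPath) (hz : z ∈ w.support) :
    ∀ e ∈ (w.takeUntil z hz).edges, e ∉ (w.dropUntil z hz).edges := by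
  intro e he he'
  have h1 := hw.isTrail.edges_nodup
  rw [← Walk.take_spec w hz, Walk.edges_append] at h1
  exact (List.nodup_append.mp h1).2.2 e he e he' rfl

theorem THRU_toDel {V : Type} {G : SimpleGraph V} {x u : V} (w : G.Walk x u)
    (E : Set (Sym2 V)) (p : ℝ) (ω : Sym2 V → unitInterval)
    (h1 : ∀ e ∈ w.edges, e ∉ E) (h2 : ∀ e ∈ w.edges, ((ω e : unitInterval) : ℝ) < p) :
    Conn (G.deleteEdges E) p ω x u := by
  refine ⟨w.transfer (G.deleteEdges E) ?_, ?_⟩
  · intro e he
    rw [SimpleGraph.edgeSet_deleteEdges]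
    exact ⟨w.edges_subset_edgeSet he, h1 e he⟩
  · intro e he
    rw [Walk.edges_transfer] at he
    exact h2 e he

theorem p_THRU (hSIG : Stmt_SIG) (hCME : Stmt_CME) (hTAU : Stmt_TAU) (hOPN : Stmt_OPN) :
    Stmt_THRU := by
  classical
  intro V _ G p hp0 hp1 x y z
  have hcount : Countable (G.Walk z y) := THRU_countable G z y
  set A : G.Walk z y → Set (Sym2 V → unitInterval) := fun g =>
    {ω | g.IsPath ∧ (∀ e ∈ g.edges.toFinset, ((ω e : unitInterval) : ℝ) < p) ∧
      Conn (G.deleteEdges (g.edges.toFinset : Set (Sym2 V))) p ω x z} with hA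
  have hsub : {ω : Sym2 V → unitInterval | Conn G p ω x y} ⊆
      {ω | Conn (within G {z}ᶜ) p ω x y} ∪ ⋃ g, A g := by
    rintro ω ⟨w₀, hw₀⟩
    set w := w₀.bypass with hw
    have hwp : w.IsPath := Walk.bypass_isPath w₀
    have hwo : ∀ e ∈ w.edges, ((ω e : unitInterval) : ℝ) < p := fun e he =>
      hw₀ e (Walk.edges_bypass_subset_edges w₀ he)
    by_cases hz : z ∈ w.support
    · right
      rw [Set.mem_iUnion]
      refine ⟨w.dropUntil z hz, hwp.dropUntil hz, ?_, ?_⟩
      · intro e he
        rw [List.mem_toFinset] at he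
        exact hwo e (Walk.edges_dropUntil_subset_edges w hz he)
      · refine THRU_toDel (w.takeUntil z hz) _ p ω ?_ ?_
        · intro e he
          rw [Finset.mem_coe, List.mem_toFinset]
          exact THRU_split w hwp hz e he
        · intro e he
          exact hwo e (Walk.edges_takeUntil_subset_edges w hz he)
    · left
      refine ⟨w.transfer (within G {z}ᶜ) ?_, ?_⟩
      · intro e he
        induction e using Sym2.ind with
        | _ a b =>
          rw [SimpleGraph.mem_edgeSet]
          refine ⟨?_, ?_, ?_⟩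
          · exact w.edges_subset_edgeSet he
          · intro h
            rw [Set.mem_singleton_iff] at h
            exact hz (h ▸ Walk.fst_mem_support_of_mem_edges w he)
          · intro h
            rw [Set.mem_singleton_iff] at h
            exact hz (h ▸ Walk.snd_mem_support_of_mem_edges w he)
      · intro e he
        rw [Walk.edges_transfer] at he
        exact hwo e he
  have hA' : ∀ g, mu V (A g) ≤ tau G p x z * ENNReal.ofReal p ^ g.length := by
    intro g
    by_cases hg : g.IsPath
    · calc mu V (A g) ≤ mu V {ω | (∀ e ∈ g.edges.toFinset, ((ω e : unitInterval) : ℝ) < p) ∧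
            Conn (G.deleteEdges (g.edges.toFinset : Set (Sym2 V))) p ω x z} :=
            measure_mono (fun ω hω => hω.2)
        _ ≤ ENNReal.ofReal p ^ g.edges.toFinset.card * tau G p x z :=
            THRU_ind hSIG hCME hTAU hOPN G p hp0 hp1 x z _
        _ = tau G p x z * ENNReal.ofReal p ^ g.length := by
            rw [THRU_card g hg, mul_comm]
    · have : A g = ∅ := by
        ext ω
        simp only [hA, Set.mem_ofPred_eq, Set.mem_empty_iff_false, iff_false]
        exact fun h => hg h.1
      rw [this, measure_empty]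
      exact zero_le
  calc tau G p x y ≤ mu V ({ω | Conn (within G {z}ᶜ) p ω x y} ∪ ⋃ g, A g) := measure_mono hsub
    _ ≤ mu V {ω | Conn (within G {z}ᶜ) p ω x y} + mu V (⋃ g, A g) := measure_union_le _ _
    _ ≤ tau (within G {z}ᶜ) p x y + ∑' g, mu V (A g) := by
        gcongr
        · exact le_rfl
        · exact measure_iUnion_le _
    _ ≤ tau (within G {z}ᶜ) p x y + ∑' g : G.Walk z y, tau G p x z * ENNReal.ofReal p ^ g.length := by
        gcongr with g
        exact hA' g
    _ = tau (within G {z}ᶜ) p x y + tau G p x z * Wk G p z y := by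
        rw [ENNReal.tsum_mul_left]
        rfl

end Pool.L2D
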