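import Pool.Agent.Work.MP_23451d_ld.Interface

/-! # TLQ: the lower bound of `p_{q→q}` (helper63) -/

set_option autoImplicit false

namespace Pool.L2D

open MeasureTheory SimpleGraph Pool.L2B
open scoped ENNReal

theorem p_TLQ (hSUBI : Stmt_SUBI) (hTW : Stmt_TW) (hTAU : Stmt_TAU) (hSCH : Stmt_SCH) :
    Stmt_TLQ := by
  intro V _ G hf w h κ r θ p hw hh hr hθ hθ1 hp0 hp1 hsub q hq hlt
  classical
  set t : ℝ := min (q - 1) (1 / (q - 1)) with ht
  have hq1 : 0 < q - 1 := by linarith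
  have ht0 : 0 < t := lt_min hq1 (by positivity)
  have ht1 : t ≤ 1 := by
    rcases le_total (q - 1) 1 with h1 | h1
    · exact (min_le_left _ _).trans h1
    · refine (min_le_right _ _).trans ?_
      rw [div_le_one hq1]
      exact h1
  -- the constant
  set η : ℝ≥0∞ := ENNReal.ofReal (p * r * θ ^ t) with hη
  have hη1 : η < 1 := by
    rw [hη, ← ENNReal.ofReal_one]
    exact (ENNReal.ofReal_lt_ofReal_iff one_pos).2 hlt
  set c : ℝ≥0∞ := ENNReal.ofReal κ * (1 - η)⁻¹ with hc
  have hctop : c ≠ ⊤ := by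
    rw [hc]
    apply ENNReal.mul_ne_top ENNReal.ofReal_ne_top
    rw [ENNReal.inv_ne_top]
    exact (tsub_pos_of_lt hη1).ne'
  -- the bound for the exponents between `t` and `1`
  have key : ∀ s : ℝ, t ≤ s → s ≤ 1 → ∀ x,
      ∑' y, tau G p x y * ENNReal.ofReal (h y ^ s) ≤ c * ENNReal.ofReal (h x ^ s) := by
    intro s hts hs1 x
    have hs0 : 0 ≤ s := ht0.le.trans hts
    set g : V → ℝ≥0∞ := fun y => ENNReal.ofReal (w y * h y ^ s) with hg
    have hnb : ∀ x, nb G g x ≤ ENNReal.ofReal (r * θ ^ s) * g x := by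
      intro x
      have h1 : nb G g x = ∑ y ∈ (hf x).toFinset, g y := by
        unfold nb
        have h2 : (∑' y : G.neighborSet x, g y.1) = ∑' y : ((hf x).toFinset : Set V), g y.1 := by
          rw [Set.Finite.coe_toFinset]
        rw [h2, Finset.tsum_subtype' (hf x).toFinset g]
      have hterm : ∀ y ∈ (hf x).toFinset, 0 ≤ w y * h y ^ s := fun y _ =>
        mul_nonneg (hw y).1.le (Real.rpow_nonneg (hh y).le _)
      rw [h1, hg, ← ENNReal.ofReal_sum_of_nonneg hterm, ← ENNReal.ofReal_mul (by positivity)]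
      exact ENNReal.ofReal_le_ofReal (hsub s hs0 hs1 x)
    have hpl : ENNReal.ofReal p * ENNReal.ofReal (r * θ ^ s) ≤ η := by
      rw [← ENNReal.ofReal_mul hp0, hη]
      apply ENNReal.ofReal_le_ofReal
      have h1 : θ ^ s ≤ θ ^ t := Real.rpow_le_rpow_of_exponent_ge hθ hθ1 hts
      have h2 : 0 ≤ p * r := mul_nonneg hp0 hr.le
      calc p * (r * θ ^ s) = p * r * θ ^ s := by ring
        _ ≤ p * r * θ ^ t := mul_le_mul_of_nonneg_left h1 h2
    have h3 := hSUBI V G p g (ENNReal.ofReal (r * θ ^ s)) η hnb hpl hη1 x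
    have hκ : 0 ≤ κ := by
      by_contra hneg
      have := (hw x).2.2
      nlinarith [(hw x).1]
    have hpt : ∀ y, tau G p x y * ENNReal.ofReal (h y ^ s) ≤
        ENNReal.ofReal κ * (Wk G p x y * g y) := by
      intro y
      have h4 : ENNReal.ofReal (h y ^ s) ≤ ENNReal.ofReal κ * g y := by
        rw [hg, ← ENNReal.ofReal_mul hκ]
        apply ENNReal.ofReal_le_ofReal
        have h5 : 0 ≤ h y ^ s := Real.rpow_nonneg (hh y).le _
        have h6 := (hw y).2.2
        calc h y ^ s = 1 * h y ^ s := by ring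
          _ ≤ (κ * w y) * h y ^ s := mul_le_mul_of_nonneg_right h6 h5
          _ = κ * (w y * h y ^ s) := by ring
      calc tau G p x y * ENNReal.ofReal (h y ^ s)
          ≤ Wk G p x y * (ENNReal.ofReal κ * g y) := mul_le_mul' (hTW V G p hp0 hp1 x y) h4
        _ = ENNReal.ofReal κ * (Wk G p x y * g y) := by ring
    have hgx : g x ≤ ENNReal.ofReal (h x ^ s) := by
      rw [hg]
      apply ENNReal.ofReal_le_ofReal
      have h5 : 0 ≤ h x ^ s := Real.rpow_nonneg (hh x).le _
      have h6 := (hw x).2.1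
      nlinarith
    calc ∑' y, tau G p x y * ENNReal.ofReal (h y ^ s)
        ≤ ∑' y, ENNReal.ofReal κ * (Wk G p x y * g y) := ENNReal.tsum_le_tsum hpt
      _ = ENNReal.ofReal κ * ∑' y, Wk G p x y * g y := ENNReal.tsum_mul_left
      _ ≤ ENNReal.ofReal κ * ((1 - η)⁻¹ * g x) := mul_le_mul_right h3 _
      _ ≤ ENNReal.ofReal κ * ((1 - η)⁻¹ * ENNReal.ofReal (h x ^ s)) :=
          mul_le_mul_right (mul_le_mul_right hgx _) _
      _ = c * ENNReal.ofReal (h x ^ s) := by rw [hc]; ring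
  -- the two exponents
  obtain ⟨a, ha0, h1, h2⟩ : ∃ a : ℝ, 0 < a ∧ (t ≤ a * q ∧ a * q ≤ 1) ∧
      (t ≤ a * (q / (q - 1)) ∧ a * (q / (q - 1)) ≤ 1) := by
    have hq0 : 0 < q := by linarith
    rcases le_total (q - 1) 1 with h1 | h1
    · refine ⟨(q - 1) / q, by positivity, ?_, ?_⟩
      · have h2 : (q - 1) / q * q = q - 1 := by field_simp
        rw [h2]
        exact ⟨min_le_left _ _, h1⟩
      · have h2 : (q - 1) / q * (q / (q - 1)) = 1 := by field_simp
        rw [h2]
        exact ⟨ht1, le_rfl⟩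
    · refine ⟨1 / q, by positivity, ?_, ?_⟩
      · have h2 : 1 / q * q = 1 := by field_simp
        rw [h2]
        exact ⟨ht1, le_rfl⟩
      · have h2 : 1 / q * (q / (q - 1)) = 1 / (q - 1) := by field_simp
        rw [h2]
        refine ⟨min_le_right _ _, ?_⟩
        rw [div_le_one hq1]
        exact h1
  have hH : ∀ (b : ℝ) (x : V), (h x ^ a) ^ b = h x ^ (a * b) := fun b x =>
    (Real.rpow_mul (hh x).le a b).symm
  obtain ⟨C, hC⟩ := hSCH V (tau G p) (fun x y => (hTAU V G G p p x y).2.2.1) q hq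
    (fun x => h x ^ a) (fun x => Real.rpow_pos_of_pos (hh x) a) c hctop
    (fun x => by
      simp only [hH]
      exact key _ h1.1 h1.2 x)
    (fun x => by
      simp only [hH]
      exact key _ h2.1 h2.2 x)
  unfold pqq
  apply le_csSup
  · exact ⟨1, fun p' hp' => hp'.2.1⟩
  · exact ⟨hp0, hp1, C, hC⟩

end Pool.L2D
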