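import Pool.Agent.Work.MP_23451d_ld.B_THRU

/-! # TREE: two connections -/

set_option autoImplicit false

namespace Pool.L2D

open MeasureTheory SimpleGraph Pool.L2B
open scoped ENNReal

/-- the first hitting of a set by a walk -/
theorem TREE_first {V : Type} {G : SimpleGraph V} (S : Set V) {a c : V} (b : G.Walk a c)
    (hc : c ∈ S) : ∃ u ∈ S, ∃ w : G.Walk a u, (∀ e ∈ w.edges, e ∈ b.edges) ∧
      ∀ v ∈ w.support, v ∈ S → v = u := by
  induction b with
  | nil => exact ⟨_, hc, Walk.nil, by simp, by simp⟩
  | @cons a a' c h b' ih =>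
    by_cases ha : a ∈ S
    · exact ⟨a, ha, Walk.nil, by simp, by simp⟩
    · obtain ⟨u, hu, w, hw1, hw2⟩ := ih hc
      refine ⟨u, hu, Walk.cons h w, ?_, ?_⟩
      · intro e he
        rw [Walk.edges_cons, List.mem_cons] at he ⊢
        rcases he with he | he
        · exact Or.inl he
        · exact Or.inr (hw1 e he)
      · intro v hv hvS
        rw [Walk.support_cons, List.mem_cons] at hv
        rcases hv with rfl | hv
        · exact absurd hvS ha
        · exact hw2 v hv hvS

theorem p_TREE (hSIG : Stmt_SIG) (hCME : Stmt_CME) (hTAU : Stmt_TAU) (hOPN : Stmt_OPN) :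
    Stmt_TREE := by
  classical
  intro V _ G p hp0 hp1 x y y'
  have hcount : ∀ u v, Countable (G.Walk u v) := THRU_countable G
  set E : ∀ u : V, G.Walk u y → G.Walk u y' → Finset (Sym2 V) := fun u g g' =>
    g.edges.toFinset ∪ g'.edges.toFinset with hE
  set A : ∀ u : V, G.Walk u y → G.Walk u y' → Set (Sym2 V → unitInterval) := fun u g g' =>
    {ω | (g.IsPath ∧ g'.IsPath ∧ Disjoint g.edges.toFinset g'.edges.toFinset) ∧
      (∀ e ∈ E u g g', ((ω e : unitInterval) : ℝ) < p) ∧
      Conn (G.deleteEdges (E u g g' : Set (Sym2 V))) p ω x u} with hA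
  have hsub : {ω : Sym2 V → unitInterval | Conn G p ω x y ∧ Conn G p ω x y'} ⊆
      ⋃ u, ⋃ g, ⋃ g', A u g g' := by
    rintro ω ⟨⟨a₀, ha₀⟩, ⟨b₀, hb₀⟩⟩
    set α := a₀.bypass with hα
    have hαp : α.IsPath := Walk.bypass_isPath a₀
    have hαo : ∀ e ∈ α.edges, ((ω e : unitInterval) : ℝ) < p := fun e he =>
      ha₀ e (Walk.edges_bypass_subset_edges a₀ he)
    obtain ⟨u, hu, w₀, hw1, hw2⟩ := TREE_first {v | v ∈ α.support} b₀.reverse
      (show x ∈ α.support from Walk.start_mem_support α)
    change u ∈ α.support at hu
    set β := w₀.bypass with hβ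
    have hβp : β.IsPath := Walk.bypass_isPath w₀
    have hβ1 : ∀ e ∈ β.edges, e ∈ w₀.edges := fun e he => Walk.edges_bypass_subset_edges w₀ he
    have hβo : ∀ e ∈ β.edges, ((ω e : unitInterval) : ℝ) < p := by
      intro e he
      have h1 := hw1 e (hβ1 e he)
      rw [Walk.edges_reverse, List.mem_reverse] at h1
      exact hb₀ e h1
    have hβd : ∀ e ∈ β.edges, e ∉ α.edges := by
      intro e
      induction e using Sym2.ind with
      | _ s t =>
        intro he he'
        have h0 := hβ1 _ he
        have h1 := hw2 s (Walk.fst_mem_support_of_mem_edges w₀ h0)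
          (Walk.fst_mem_support_of_mem_edges α he')
        have h2 := hw2 t (Walk.snd_mem_support_of_mem_edges w₀ h0)
          (Walk.snd_mem_support_of_mem_edges α he')
        have h3 : G.Adj s t := β.edges_subset_edgeSet he
        exact h3.ne (h1.trans h2.symm)
    simp only [Set.mem_iUnion]
    refine ⟨u, α.dropUntil u hu, β.reverse, ⟨hαp.dropUntil hu, hβp.reverse, ?_⟩, ?_, ?_⟩
    · rw [Finset.disjoint_left]
      intro e he he'
      rw [List.mem_toFinset] at he he'
      rw [Walk.edges_reverse, List.mem_reverse] at he'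
      exact hβd e he' (Walk.edges_dropUntil_subset_edges α hu he)
    · intro e he
      rw [hE, Finset.mem_union, List.mem_toFinset, List.mem_toFinset, Walk.edges_reverse,
        List.mem_reverse] at he
      rcases he with he | he
      · exact hαo e (Walk.edges_dropUntil_subset_edges α hu he)
      · exact hβo e he
    · refine THRU_toDel (α.takeUntil u hu) _ p ω ?_ ?_
      · intro e he he'
        rw [hE, Finset.mem_coe, Finset.mem_union, List.mem_toFinset, List.mem_toFinset,
          Walk.edges_reverse, List.mem_reverse] at he'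
        rcases he' with he' | he'
        · exact THRU_split α hαp hu e he he'
        · exact hβd e he' (Walk.edges_takeUntil_subset_edges α hu he)
      · intro e he
        exact hαo e (Walk.edges_takeUntil_subset_edges α hu he)
  have hA' : ∀ u g g', mu V (A u g g') ≤
      tau G p x u * (ENNReal.ofReal p ^ g.length * ENNReal.ofReal p ^ g'.length) := by
    intro u g g'
    by_cases hg : g.IsPath ∧ g'.IsPath ∧ Disjoint g.edges.toFinset g'.edges.toFinset
    · have hcard : (E u g g').card = g.length + g'.length := by
        rw [hE]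
        simp only
        rw [Finset.card_union_of_disjoint hg.2.2, THRU_card g hg.1, THRU_card g' hg.2.1]
      calc mu V (A u g g') ≤ mu V {ω | (∀ e ∈ E u g g', ((ω e : unitInterval) : ℝ) < p) ∧
            Conn (G.deleteEdges (E u g g' : Set (Sym2 V))) p ω x u} :=
            measure_mono (fun ω hω => hω.2)
        _ ≤ ENNReal.ofReal p ^ (E u g g').card * tau G p x u :=
            THRU_ind hSIG hCME hTAU hOPN G p hp0 hp1 x u _
        _ = tau G p x u * (ENNReal.ofReal p ^ g.length * ENNReal.ofReal p ^ g'.length) := by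
            rw [hcard, pow_add, mul_comm]
    · have : A u g g' = ∅ := by
        ext ω
        simp only [hA, Set.mem_ofPred_eq, Set.mem_empty_iff_false, iff_false]
        exact fun h => hg h.1
      rw [this, measure_empty]
      exact zero_le
  calc mu V {ω | Conn G p ω x y ∧ Conn G p ω x y'} ≤ mu V (⋃ u, ⋃ g, ⋃ g', A u g g') :=
        measure_mono hsub
    _ ≤ ∑' u, ∑' g, ∑' g', mu V (A u g g') := by
        refine (measure_iUnion_le _).trans (ENNReal.tsum_le_tsum fun u => ?_)
        refine (measure_iUnion_le _).trans (ENNReal.tsum_le_tsum fun g => ?_)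
        exact measure_iUnion_le _
    _ ≤ ∑' u, ∑' g : G.Walk u y, ∑' g' : G.Walk u y',
          tau G p x u * (ENNReal.ofReal p ^ g.length * ENNReal.ofReal p ^ g'.length) := by
        refine ENNReal.tsum_le_tsum fun u => ENNReal.tsum_le_tsum fun g =>
          ENNReal.tsum_le_tsum fun g' => hA' u g g'
    _ = ∑' u, tau G p x u * (Wk G p u y * Wk G p u y') := by
        refine tsum_congr fun u => ?_
        simp_rw [ENNReal.tsum_mul_left]
        rw [ENNReal.tsum_mul_right]
        rfl

end Pool.L2D
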