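import Pool.Agent.Work.MP_23451d_ld.Interface

/-! # TW: the two-point function is at most the walk sum -/

set_option autoImplicit false

namespace Pool.L2D

open MeasureTheory SimpleGraph Pool.L2B
open scoped ENNReal

theorem p_TW (hTHRU : Stmt_THRU) (hTAU : Stmt_TAU) (hWLK : Stmt_WLK) : Stmt_TW := by
  intro V _ G p hp0 hp1 x y
  by_cases hxy : x = y
  · subst hxy
    rw [(hWLK V G p).2.1 x]
    exact ((hTAU V G G p p x x).1).trans le_self_add
  · have h := hTHRU V G p hp0 hp1 x y x
    have h0 : tau (within G {x}ᶜ) p x y = 0 := by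
      have : {ω : Sym2 V → unitInterval | Conn (within G {x}ᶜ) p ω x y} = ∅ := by
        ext ω
        simp only [Set.mem_ofPred_eq, Set.mem_empty_iff_false, iff_false]
        rintro ⟨w, _⟩
        cases w with
        | nil => exact hxy rfl
        | cons h _ => exact h.2.1 rfl
      show mu V {ω | Conn (within G {x}ᶜ) p ω x y} = 0
      rw [this, measure_empty]
    rw [h0, zero_add, (hTAU V G G p p x x).2.1, one_mul] at h
    exact h

end Pool.L2D
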