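import Pool.Agent.Work.MP_23451d_ld.Interface

/-! # WTD: the weighted criterion -/

set_option autoImplicit false

namespace Pool.L2D

open MeasureTheory SimpleGraph Pool.L2B
open scoped ENNReal

theorem WTD_nb {V : Type} (G : SimpleGraph V) (hf : ∀ v, (G.neighborSet v).Finite) (w : V → ℝ)
    (hw : ∀ x, 0 ≤ w x) (x : V) :
    nb G (fun y => ENNReal.ofReal (w y)) x = ENNReal.ofReal (∑ y ∈ (hf x).toFinset, w y) := by
  unfold nb
  rw [ENNReal.ofReal_sum_of_nonneg (fun y _ => hw y)]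
  have : Fintype (G.neighborSet x) := (hf x).fintype
  rw [tsum_fintype]
  rw [← Finset.sum_coe_sort (hf x).toFinset]
  refine Fintype.sum_equiv (Equiv.subtypeEquivRight (fun y => by simp)) _ _ (fun y => rfl)

theorem WTD_tmin {q : ℝ} (hq : 1 < q) :
    0 < min (q - 1) (1 / (q - 1)) ∧ min (q - 1) (1 / (q - 1)) ≤ 1 := by
  have h1 : 0 < q - 1 := by linarith
  refine ⟨lt_min h1 (by positivity), ?_⟩
  rcases le_total (q - 1) 1 with h | h
  · exact (min_le_left _ _).trans h
  · refine (min_le_right _ _).trans ?_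
    rw [div_le_one h1]; exact h

theorem p_WTD (hMB : Stmt_MB) (hPHI : Stmt_PHI) (hPCB : Stmt_PCB)
    (hGRN : Stmt_GRN) (hTLQ : Stmt_TLQ) : Stmt_WTD := by
  intro V _ G hG hf w κ r ρ a x₀ hw hx0 hsum hQB hρ hr2 ha1 ha2 q hq hat hcond
  obtain ⟨ht0, ht1⟩ := WTD_tmin hq
  set t := min (q - 1) (1 / (q - 1)) with htdef
  have hr0 : 0 < r := by linarith
  have ha0 : 0 < a := by linarith
  have hρ1 : ρ < 1 := by
    by_contra h
    push Not at h
    have : 1 ≤ ρ ^ t := Real.one_le_rpow h ht0.le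
    nlinarith
  have hρt : ρ ≤ ρ ^ t := by
    have := Real.rpow_le_rpow_of_exponent_ge hρ hρ1.le ht1
    simpa using this
  have haρ : a * ρ < 1 := lt_of_le_of_lt (mul_le_mul_of_nonneg_left hρt ha0.le) hat
  have hκ : 1 ≤ κ := by
    have := (hw x₀).2.2
    rw [hx0, mul_one] at this
    exact this
  have hκ0 : 0 < κ := by linarith
  have hδ : 0 < 1 - a * ρ := by linarith
  -- the level p
  have hp0 : 0 < a / r := by positivity
  have hp1 : a / r ≤ 1 := by rw [div_le_one hr0]; linarith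
  have hpl : a / r * (ρ * r) = a * ρ := by field_simp
  have hlam0 : 0 ≤ ρ * r := by positivity
  have hdeg : ∀ v, ((G.neighborSet v).ncard : ℝ) ≤ κ * r := by
    intro v
    rw [Set.ncard_eq_toFinset_card _ (hf v)]
    calc (((hf v).toFinset.card : ℕ) : ℝ) = ∑ y ∈ (hf v).toFinset, (1 : ℝ) := by simp
      _ ≤ ∑ y ∈ (hf v).toFinset, κ * w y := Finset.sum_le_sum (fun y _ => (hw y).2.2)
      _ = κ * (r * w v) := by rw [← Finset.mul_sum, hsum]
      _ ≤ κ * r := by
          apply mul_le_mul_of_nonneg_left _ hκ0.le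
          have := (hw v).2.1
          nlinarith
  obtain ⟨hfin, hRm, hRb⟩ := hMB V G hf (a / r) (ρ * r) (κ * r) hp0.le hlam0
    (by rw [hpl]; exact haρ) hQB hdeg
  rw [hpl] at hRm hRb
  set B0 : ℝ := (a / r) ^ 2 * (κ * r) / (1 - a * ρ) ^ 2 with hB0
  set M0 : ℝ := (a / r) ^ 2 * (κ * r) / (1 - a * ρ) with hM0
  have hB0' : 0 ≤ B0 := by positivity
  have hM0' : 0 ≤ M0 := by positivity
  have hcnd : 1 + M0 + 1 / 2 * (κ * B0) ≤ a := by
    have e : M0 + 1 / 2 * (κ * B0) =
        a ^ 2 * κ / r * (1 / (1 - a * ρ) + κ / (2 * (1 - a * ρ) ^ 2)) := by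
      rw [hB0, hM0]
      field_simp
    linarith
  have hphi : ∀ S : Finset V, x₀ ∈ S → 1 ≤ phi G (a / r) (S : Set V) x₀ := by
    refine hPHI V G (a / r) hp0.le hp1 hf (fun x => ENNReal.ofReal (w x)) (ENNReal.ofReal M0)
      (ENNReal.ofReal (κ * B0)) ?_ ENNReal.ofReal_ne_top ENNReal.ofReal_ne_top hRm ?_ ?_ x₀ ?_
    · intro x
      rw [← ENNReal.ofReal_one]
      exact ENNReal.ofReal_le_ofReal (hw x).2.1
    · intro u
      calc ∑' z, Rk G (a / r) u z ^ 2 * ENNReal.ofReal (w z)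
          ≤ ∑' z, Rk G (a / r) u z ^ 2 := by
            refine ENNReal.tsum_le_tsum (fun z => ?_)
            calc Rk G (a / r) u z ^ 2 * ENNReal.ofReal (w z)
                ≤ Rk G (a / r) u z ^ 2 * 1 := by
                  refine mul_le_mul_right ?_ _
                  rw [← ENNReal.ofReal_one]
                  exact ENNReal.ofReal_le_ofReal (hw z).2.1
              _ = _ := mul_one _
        _ ≤ ENNReal.ofReal B0 := hRb u
        _ ≤ ENNReal.ofReal (κ * B0 * w u) := by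
            refine ENNReal.ofReal_le_ofReal ?_
            have := (hw u).2.2
            nlinarith
        _ = ENNReal.ofReal (κ * B0) * ENNReal.ofReal (w u) :=
            ENNReal.ofReal_mul (by positivity)
    · intro x
      rw [WTD_nb G hf w (fun y => (hw y).1.le) x, hsum x, ← ENNReal.ofReal_mul hp0.le]
      have e1 : (1 : ℝ≥0∞) + ENNReal.ofReal M0 + 1 / 2 * ENNReal.ofReal (κ * B0) =
          ENNReal.ofReal (1 + M0 + 1 / 2 * (κ * B0)) := by
        rw [ENNReal.ofReal_add (by positivity) (by positivity),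
          ENNReal.ofReal_add zero_le_one hM0', ENNReal.ofReal_one,
          ENNReal.ofReal_mul (by norm_num : (0 : ℝ) ≤ 1 / 2)]
        congr 2
        rw [ENNReal.ofReal_div_of_pos (by norm_num : (0 : ℝ) < 2)]
        simp
      rw [e1, ← ENNReal.ofReal_mul (by positivity)]
      refine ENNReal.ofReal_le_ofReal ?_
      have hwx := (hw x).1
      calc (1 + M0 + 1 / 2 * (κ * B0)) * w x ≤ a * w x := mul_le_mul_of_nonneg_right hcnd hwx.le
        _ = a / r * (r * w x) := by field_simp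
    · show ENNReal.ofReal (w x₀) = 1
      rw [hx0, ENNReal.ofReal_one]
  have hpc : pc G ≤ a / r := hPCB V G hG hf (a / r) hp0.le x₀ hphi
  -- the second level
  have hβ0 : 0 < a ^ (-(1 / t)) := Real.rpow_pos_of_pos ha0 _
  have hβt : (a ^ (-(1 / t))) ^ t = a⁻¹ := by
    rw [← Real.rpow_mul ha0.le]
    have : -(1 / t) * t = -1 := by field_simp
    rw [this, Real.rpow_neg_one]
  have hρβ : ρ < a ^ (-(1 / t)) := by
    by_contra h
    push Not at h
    have h1 : (a ^ (-(1 / t))) ^ t ≤ ρ ^ t := Real.rpow_le_rpow hβ0.le h ht0.le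
    rw [hβt] at h1
    have : a * a⁻¹ ≤ a * ρ ^ t := mul_le_mul_of_nonneg_left h1 ha0.le
    rw [mul_inv_cancel₀ ha0.ne'] at this
    linarith
  have hβ1 : a ^ (-(1 / t)) < 1 := by
    apply Real.rpow_lt_one_of_one_lt_of_neg ha1
    have : 0 < 1 / t := by positivity
    linarith
  obtain ⟨θ, hθ1, hθ2⟩ := exists_between hρβ
  have hθ0 : 0 < θ := hρ.trans hθ1
  have hθt : θ ^ t < a⁻¹ := by
    rw [← hβt]
    exact Real.rpow_lt_rpow hθ0.le hθ2 ht0
  have hθt0 : 0 < θ ^ t := Real.rpow_pos_of_pos hθ0 _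
  have hainv : a < (θ ^ t)⁻¹ := by
    rw [lt_inv_comm₀ ha0 hθt0]
    exact hθt
  obtain ⟨a', ha'1, ha'2⟩ := exists_between (lt_min ha2 hainv)
  have ha'3 : a' < 2 := lt_of_lt_of_le ha'2 (min_le_left _ _)
  have ha'4 : a' < (θ ^ t)⁻¹ := lt_of_lt_of_le ha'2 (min_le_right _ _)
  have ha'0 : 0 < a' := by linarith
  have hp'1 : a' / r ≤ 1 := by rw [div_le_one hr0]; linarith
  obtain ⟨h, hh0, hh⟩ := hGRN V G hG hf w r ρ θ (κ * r) (fun x => (hw x).1) hr0 hsum hρ hθ1 hQB
    hdeg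
  have hq2 : a' / r ≤ pqq G q := by
    refine hTLQ V G hf w h κ r θ (a' / r) hw hh0 hr0 hθ0 (hθ2.le.trans hβ1.le) (by positivity) hp'1
      hh q hq ?_
    have e : a' / r * r = a' := by field_simp
    rw [e]
    calc a' * θ ^ t < (θ ^ t)⁻¹ * θ ^ t := mul_lt_mul_of_pos_right ha'4 hθt0
      _ = 1 := inv_mul_cancel₀ hθt0.ne'
  calc pc G ≤ a / r := hpc
    _ < a' / r := div_lt_div_of_pos_right ha'1 hr0
    _ ≤ pqq G q := hq2

end Pool.L2D
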