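import Pool.Agent.Work.MP_23451d_me.Interface

/-!
# Percolation on graphs of large degree relative to the spectral gap (MP_23451d_pr): definitions

Everything about percolation (`mu`, `Conn`, `tau`, `within`, `bdE`, `sig`, `phi`, `pc`, `QT`) is in
`MP_23451d_me/Defs.lean` and `MP_23451d_me/Interface.lean` (namespace `Pool.L2B`, opened).
-/

set_option autoImplicit false

namespace Pool.L2D

open MeasureTheory SimpleGraph Pool.L2B
open scoped ENNReal

/-- the sum of `p ^ length` over all walks from `u` to `v` -/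
noncomputable def Wk {V : Type} (G : SimpleGraph V) (p : ℝ) (u v : V) : ℝ≥0∞ :=
  ∑' w : G.Walk u v, ENNReal.ofReal p ^ w.length

/-- the adjacency operator -/
noncomputable def nb {V : Type} (G : SimpleGraph V) (f : V → ℝ≥0∞) (x : V) : ℝ≥0∞ :=
  ∑' y : G.neighborSet x, f y.1

/-- the sum of `p ^ length` over the walks of positive length from `u` to `v` -/
noncomputable def Rk {V : Type} (G : SimpleGraph V) (p : ℝ) (u v : V) : ℝ≥0∞ :=
  ENNReal.ofReal p * nb G (fun y => Wk G p u y) v

open Classical in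
/-- the quadratic form of the adjacency operator is at most `lam` times the square of the norm -/
def QB {V : Type} (G : SimpleGraph V) (lam : ℝ) : Prop :=
  ∀ (K : Finset V) (f : V → ℝ),
    ∑ x ∈ K, ∑ y ∈ K, (if G.Adj x y then f x * f y else 0) ≤ lam * ∑ x ∈ K, f x ^ 2

/-- the threshold `p_{q→q}`, as in the frozen statement -/
noncomputable def pqq {V : Type} (G : SimpleGraph V) (q : ℝ) : ℝ :=
  sSup {p : ℝ | 0 ≤ p ∧ p ≤ 1 ∧ ∃ C : ℝ, ∀ (S T : Finset V) (f : V → ℝ),
    ∑ u ∈ T, |∑ v ∈ S, (tau G p u v).toReal * f v| ^ q ≤ C * ∑ v ∈ S, |f v| ^ q}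

/-- `H` is the `k`-th power of `G` -/
def IsPow {V : Type} (G H : SimpleGraph V) (k : ℕ) : Prop :=
  ∀ x y, H.Adj x y ↔ x ≠ y ∧ G.dist x y ≤ k

end Pool.L2D
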