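import Pool.Agent.Work.MP_23451d_me.LAB
import Pool.Agent.Work.MP_23451d_me.SIG
import Pool.Agent.Work.MP_23451d_me.CME
import Pool.Agent.Work.MP_23451d_me.LEX
import Pool.Agent.Work.MP_23451d_me.TAU
import Pool.Agent.Work.MP_23451d_me.EXO
import Pool.Agent.Work.MP_23451d_me.BON
import Pool.Agent.Work.MP_23451d_me.DCTI
import Pool.Agent.Work.MP_23451d_me.DCTL
import Pool.Agent.Work.MP_23451d_me.SCH
import Pool.Agent.Work.MP_23451d_me.CNT
import Pool.Agent.Work.MP_23451d_ld.B_WLK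
import Pool.Agent.Work.MP_23451d_ld.B_SUBI
import Pool.Agent.Work.MP_23451d_ld.B_L2W
import Pool.Agent.Work.MP_23451d_ld.B_MB
import Pool.Agent.Work.MP_23451d_ld.B_OPN
import Pool.Agent.Work.MP_23451d_ld.B_TREE
import Pool.Agent.Work.MP_23451d_ld.B_THRU
import Pool.Agent.Work.MP_23451d_ld.B_TW
import Pool.Agent.Work.MP_23451d_ld.B_BON2
import Pool.Agent.Work.MP_23451d_ld.B_LOW
import Pool.Agent.Work.MP_23451d_ld.B_KEY
import Pool.Agent.Work.MP_23451d_ld.B_PHI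
import Pool.Agent.Work.MP_23451d_ld.B_PCB
import Pool.Agent.Work.MP_23451d_ld.B_GRN
import Pool.Agent.Work.MP_23451d_ld.B_TLQ
import Pool.Agent.Work.MP_23451d_ld.B_WTD
import Pool.Agent.Work.MP_23451d_ld.B_BLC
import Pool.Agent.Work.MP_23451d_ld.B_EXN
import Pool.Agent.Work.MP_23451d_ld.B_PF
import Pool.Agent.Work.MP_23451d_ld.B_PWT
import Pool.Agent.Work.MP_23451d_ld.B_CHG
import Pool.Agent.Work.MP_23451d_ld.B_MAINA
import Pool.Agent.Work.MP_23451d_ld.B_MAINB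

/-!
# The two theorems without hypotheses (MP_23451d_pr)
-/

set_option autoImplicit false

namespace Pool.L2D

open Pool.L2B

theorem wtd : Stmt_WTD := by
  have hLAB := stmt_LAB
  have hSIG := stmt_SIG
  have hCME := stmt_CME
  have hLEX := stmt_LEX
  have hTAU := stmt_TAU hLAB
  have hEXO := stmt_EXO hLAB hSIG hCME hLEX
  have hDCTI := stmt_DCTI hLAB hSIG hCME hEXO stmt_BON
  have hDCTL := stmt_DCTL hTAU hSIG hCME hDCTI
  have hWLK := p_WLK
  have hSUBI := p_SUBI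
  have hMB := p_MB hWLK p_L2W
  have hOPN := p_OPN hLAB hSIG
  have hTREE := p_TREE hSIG hCME hTAU hOPN
  have hTHRU := p_THRU hSIG hCME hTAU hOPN
  have hTW := p_TW hTHRU hTAU hWLK
  have hLOW := p_LOW hLAB hSIG hCME hTAU hOPN hTREE p_BON2 hWLK
  have hKEY := p_KEY hLOW hTHRU hTW hTAU hWLK
  have hPHI := p_PHI hKEY hTAU hWLK
  have hPCB := p_PCB hDCTL
  have hGRN := p_GRN hWLK hMB
  have hTLQ := p_TLQ hSUBI hTW hTAU stmt_SCH
  exact p_WTD hMB hPHI hPCB hGRN hTLQ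

theorem finalA : Stmt_MAINA := p_MAINA wtd stmt_CNT

theorem finalB : Stmt_MAINB := p_MAINB wtd stmt_CNT p_BLC p_EXN (p_PWT p_PF) p_CHG

end Pool.L2D
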