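import Pool.Agent.Work.MP_23451d_ld.Defs

/-!
# Block statements (MP_23451d_pr, large degree relative to the spectral gap)

Block X: file `B_X.lean`, `theorem p_X (h1 : Stmt_Y) .. : Stmt_X` in namespace `Pool.L2D`
(dependencies as hypotheses; the old blocks are `Pool.L2B.Stmt_LAB` etc.).
-/

set_option autoImplicit false

namespace Pool.L2D

open MeasureTheory SimpleGraph Pool.L2B
open scoped ENNReal

/-! ## Walks -/

/-- WLK: elementary properties of the walk sums -/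
def Stmt_WLK : Prop :=
  ∀ (V : Type) (G : SimpleGraph V) (p : ℝ),
    (∀ u v, Wk G p u v = Wk G p v u) ∧ (∀ u, Wk G p u u = 1 + Rk G p u u) ∧
    (∀ u v, u ≠ v → Wk G p u v = Rk G p u v) ∧
    (∀ G' : SimpleGraph V, G ≤ G' → ∀ u v, Wk G p u v ≤ Wk G' p u v) ∧
    (∀ u v, G.Reachable u v → 0 < p → Wk G p u v ≠ 0)

/-- SUBI: walk sums of a subinvariant function -/
def Stmt_SUBI : Prop :=
  ∀ (V : Type) (G : SimpleGraph V) (p : ℝ) (g : V → ℝ≥0∞) (lam η : ℝ≥0∞),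
    (∀ x, nb G g x ≤ lam * g x) → ENNReal.ofReal p * lam ≤ η → η < 1 →
    ∀ x, ∑' y, Wk G p x y * g y ≤ (1 - η)⁻¹ * g x

/-- L2W: the `ℓ²` bound of the walk sums -/
def Stmt_L2W : Prop :=
  ∀ (V : Type) (G : SimpleGraph V), (∀ v, (G.neighborSet v).Finite) →
    ∀ (p lam : ℝ), 0 ≤ p → 0 ≤ lam → p * lam < 1 → QB G lam → ∀ K : Finset V,
    ∑' z, (∑ y ∈ K, Wk G p y z) ^ 2 ≤ ENNReal.ofReal ((K.card : ℝ) / (1 - p * lam) ^ 2)

/-- MB: the two error terms (from WLK, L2W) -/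
def Stmt_MB : Prop :=
  ∀ (V : Type) (G : SimpleGraph V), (∀ v, (G.neighborSet v).Finite) →
    ∀ (p lam d : ℝ), 0 ≤ p → 0 ≤ lam → p * lam < 1 → QB G lam →
    (∀ v, ((G.neighborSet v).ncard : ℝ) ≤ d) →
    (∀ u v, Wk G p u v ≠ ⊤) ∧
    (∀ z, Rk G p z z ≤ ENNReal.ofReal (p ^ 2 * d / (1 - p * lam))) ∧
    (∀ u, ∑' z, Rk G p u z ^ 2 ≤ ENNReal.ofReal (p ^ 2 * d / (1 - p * lam) ^ 2))

/-! ## Percolation -/

/-- OPN: finitely many labels (from LAB, SIG) -/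
def Stmt_OPN : Prop :=
  ∀ (V : Type) (E : Finset (Sym2 V)) (p : ℝ), 0 ≤ p → p ≤ 1 →
    MeasurableSet[sig (E : Set (Sym2 V))]
      {ω : Sym2 V → unitInterval | ∀ e ∈ E, ((ω e : unitInterval) : ℝ) < p} ∧
    mu V {ω : Sym2 V → unitInterval | ∀ e ∈ E, ((ω e : unitInterval) : ℝ) < p} =
      ENNReal.ofReal p ^ E.card

/-- TREE: two connections (from SIG, CME, TAU, OPN) -/
def Stmt_TREE : Prop :=
  ∀ (V : Type) [Countable V] (G : SimpleGraph V) (p : ℝ), 0 ≤ p → p ≤ 1 → ∀ x y y' : V,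
    mu V {ω | Conn G p ω x y ∧ Conn G p ω x y'} ≤
      ∑' u, tau G p x u * (Wk G p u y * Wk G p u y')

/-- THRU: the effect of removing one vertex (from SIG, CME, TAU, OPN) -/
def Stmt_THRU : Prop :=
  ∀ (V : Type) [Countable V] (G : SimpleGraph V) (p : ℝ), 0 ≤ p → p ≤ 1 → ∀ x y z : V,
    tau G p x y ≤ tau (within G {z}ᶜ) p x y + tau G p x z * Wk G p z y

/-- TW: the two-point function is at most the walk sum (from THRU, TAU, WLK) -/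
def Stmt_TW : Prop :=
  ∀ (V : Type) [Countable V] (G : SimpleGraph V) (p : ℝ), 0 ≤ p → p ≤ 1 → ∀ x y : V,
    tau G p x y ≤ Wk G p x y

/-- BON2: Bonferroni's inequality with the constant `1/2` -/
def Stmt_BON2 : Prop :=
  ∀ (Ω : Type) [MeasurableSpace Ω] (μ : Measure Ω) [IsFiniteMeasure μ] (ι : Type) [DecidableEq ι]
    (s : Finset ι) (F : ι → Set Ω), (∀ i ∈ s, MeasurableSet (F i)) →
    ∑ i ∈ s, (μ (F i)).toReal - (1 / 2) * ∑ i ∈ s, ∑ j ∈ s.erase i, (μ (F i ∩ F j)).toReal ≤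
      (μ (⋃ i ∈ s, F i)).toReal

/-- LOW: the lower bound of the two-point function by the last edge
(from LAB, SIG, CME, TAU, OPN, TREE, BON2, WLK) -/
def Stmt_LOW : Prop :=
  ∀ (V : Type) [Countable V] (G : SimpleGraph V) (p : ℝ), 0 ≤ p → p ≤ 1 → ∀ x z : V, x ≠ z →
    (G.neighborSet z).Finite →
    ENNReal.ofReal p * nb G (fun y => tau (within G {z}ᶜ) p x y) z ≤
      tau G p x z + (1 / 2) * ∑' u, tau G p x u * Rk G p u z ^ 2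

/-- KEY: the key inequality (from LOW, THRU, TW, TAU, WLK) -/
def Stmt_KEY : Prop :=
  ∀ (V : Type) [Countable V] (G : SimpleGraph V) (p : ℝ), 0 ≤ p → p ≤ 1 → ∀ x z : V,
    (G.neighborSet z).Finite →
    (x ≠ z → ENNReal.ofReal p * nb G (fun y => tau G p x y) z ≤
      tau G p x z * (1 + Rk G p z z) + (1 / 2) * ∑' u, tau G p x u * Rk G p u z ^ 2) ∧
    (x = z → ENNReal.ofReal p * nb G (fun y => tau G p x y) z ≤ Rk G p z z)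

/-- PHI: the finite volume quantity (from KEY, TAU, WLK) -/
def Stmt_PHI : Prop :=
  ∀ (V : Type) [Countable V] (G : SimpleGraph V) (p : ℝ), 0 ≤ p → p ≤ 1 →
    (∀ v, (G.neighborSet v).Finite) → ∀ (w : V → ℝ≥0∞) (m b : ℝ≥0∞), (∀ x, w x ≤ 1) →
    m ≠ ⊤ → b ≠ ⊤ →
    (∀ z, Rk G p z z ≤ m) → (∀ u, ∑' z, Rk G p u z ^ 2 * w z ≤ b * w u) →
    (∀ x, (1 + m + (1 / 2) * b) * w x ≤ ENNReal.ofReal p * nb G w x) →
    ∀ x, w x = 1 → ∀ S : Finset V, x ∈ S → 1 ≤ phi G p (S : Set V) x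

/-- PCB: the upper bound of `p_c` (from TAU, DCTL) -/
def Stmt_PCB : Prop :=
  ∀ (V : Type) [Countable V] (G : SimpleGraph V), G.Connected →
    (∀ v, (G.neighborSet v).Finite) → ∀ (p : ℝ), 0 ≤ p → ∀ x : V,
    (∀ S : Finset V, x ∈ S → 1 ≤ phi G p (S : Set V) x) → pc G ≤ p

/-- GRN: powers of the Green function (from WLK, MB) -/
def Stmt_GRN : Prop :=
  ∀ (V : Type) (G : SimpleGraph V), G.Connected → ∀ hf : (∀ v, (G.neighborSet v).Finite),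
    ∀ (w : V → ℝ) (r ρ θ d : ℝ), (∀ x, 0 < w x) → 0 < r →
    (∀ x, ∑ y ∈ (hf x).toFinset, w y = r * w x) → 0 < ρ → ρ < θ → QB G (ρ * r) →
    (∀ v, ((G.neighborSet v).ncard : ℝ) ≤ d) →
    ∃ h : V → ℝ, (∀ x, 0 < h x) ∧ ∀ s : ℝ, 0 ≤ s → s ≤ 1 → ∀ x,
      ∑ y ∈ (hf x).toFinset, w y * h y ^ s ≤ r * θ ^ s * (w x * h x ^ s)

/-- TLQ: the lower bound of `p_{q→q}` (from SUBI, TW, TAU, SCH) -/
def Stmt_TLQ : Prop :=
  ∀ (V : Type) [Countable V] (G : SimpleGraph V) (hf : ∀ v, (G.neighborSet v).Finite)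
    (w h : V → ℝ) (κ r θ p : ℝ), (∀ x, 0 < w x ∧ w x ≤ 1 ∧ 1 ≤ κ * w x) → (∀ x, 0 < h x) →
    0 < r → 0 < θ → θ ≤ 1 → 0 ≤ p → p ≤ 1 →
    (∀ s : ℝ, 0 ≤ s → s ≤ 1 → ∀ x,
      ∑ y ∈ (hf x).toFinset, w y * h y ^ s ≤ r * θ ^ s * (w x * h x ^ s)) →
    ∀ q : ℝ, 1 < q → p * r * θ ^ (min (q - 1) (1 / (q - 1))) < 1 → p ≤ pqq G q

/-- WTD: the weighted criterion (from WLK, MB, PHI, PCB, GRN, TLQ) -/
def Stmt_WTD : Prop :=
  ∀ (V : Type) [Countable V] (G : SimpleGraph V), G.Connected →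
    ∀ (hf : ∀ v, (G.neighborSet v).Finite) (w : V → ℝ) (κ r ρ a : ℝ) (x₀ : V),
    (∀ x, 0 < w x ∧ w x ≤ 1 ∧ 1 ≤ κ * w x) → w x₀ = 1 →
    (∀ x, ∑ y ∈ (hf x).toFinset, w y = r * w x) → QB G (ρ * r) → 0 < ρ → 2 ≤ r →
    1 < a → a < 2 → ∀ q : ℝ, 1 < q → a * ρ ^ (min (q - 1) (1 / (q - 1))) < 1 →
    a ^ 2 * κ / r * (1 / (1 - a * ρ) + κ / (2 * (1 - a * ρ) ^ 2)) ≤ a - 1 →
    pc G < pqq G q

/-! ## Powers of a graph -/

/-- BLC: comparison of balls in a quasi-transitive graph -/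
def Stmt_BLC : Prop :=
  ∀ (V : Type) (G : SimpleGraph V), G.Connected → (∀ v, (G.neighborSet v).Finite) → QT G →
    Infinite V →
    ∃ C k₁ : ℕ, 1 ≤ C ∧ 1 ≤ k₁ ∧ (∀ x, (G.neighborSet x).ncard ≤ C) ∧
      (∀ (x : V) (k : ℕ), {y | G.dist x y ≤ k}.Finite) ∧
      (∀ k, 1 ≤ k → ∀ x y,
        {v | G.dist y v ≤ k}.ncard ≤ C * {v | G.dist x v ≤ k - 1}.ncard) ∧
      (∀ k, k₁ ≤ k → ∀ x y z, {v | G.dist y v ≤ k}.ncard ≤
        C * {v | (∃ φ : G ≃g G, φ z = v) ∧ v ≠ x ∧ G.dist x v ≤ k}.ncard) ∧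
      (∀ n : ℕ, ∃ k₂, ∀ k, k₂ ≤ k → ∀ x, n ≤ {v | G.dist x v ≤ k}.ncard)

/-- EXN: expansion of the powers of a nonamenable graph -/
def Stmt_EXN : Prop :=
  ∀ (V : Type) (G : SimpleGraph V), G.Connected → ∀ (C : ℕ) (c : ℝ), 1 ≤ C → 0 < c →
    (∀ x, (G.neighborSet x).Finite ∧ (G.neighborSet x).ncard ≤ C) →
    (∀ (x : V) (k : ℕ), {y | G.dist x y ≤ k}.Finite) →
    (∀ k, 1 ≤ k → ∀ x y,
      {v | G.dist y v ≤ k}.ncard ≤ C * {v | G.dist x v ≤ k - 1}.ncard) →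
    (∀ K : Finset V, K.Nonempty → c * (K.card : ℝ) ≤ ((bdE G (K : Set V)).ncard : ℝ)) →
    ∀ k : ℕ, 1 ≤ k → ∀ H : SimpleGraph V, IsPow G H k → ∀ (K : Finset V) (x₀ : V),
      c / (4 * (C : ℝ) ^ 2) * ({v | G.dist x₀ v ≤ k}.ncard : ℝ) * (K.card : ℝ) ≤
        ((bdE H (K : Set V)).ncard : ℝ)

/-- PF: the theorem of Perron for positive matrices -/
def Stmt_PF : Prop :=
  ∀ (Q : Type) [Fintype Q] [Nonempty Q] (M : Q → Q → ℝ), (∀ a b, 0 < M a b) →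
    ∃ (r : ℝ) (w : Q → ℝ), 0 < r ∧ (∀ a, 0 < w a) ∧ ∀ a, ∑ b, M a b * w b = r * w a

/-- PWT: the Perron weights of a power (from PF) -/
def Stmt_PWT : Prop :=
  ∀ (V : Type) [Nonempty V] (G : SimpleGraph V), G.Connected → QT G →
    ∀ (C k : ℕ), 1 ≤ C → 1 ≤ k → (∀ (x : V) (k : ℕ), {y | G.dist x y ≤ k}.Finite) →
    (∀ x y z, {v | G.dist y v ≤ k}.ncard ≤
      C * {v | (∃ φ : G ≃g G, φ z = v) ∧ v ≠ x ∧ G.dist x v ≤ k}.ncard) →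
    ∀ H : SimpleGraph V, IsPow G H k → ∀ hf : (∀ v, (H.neighborSet v).Finite),
    ∃ (w : V → ℝ) (r : ℝ) (x₀ : V), 0 < r ∧ (∀ x, 0 < w x ∧ w x ≤ 1 ∧ 1 ≤ C * w x) ∧
      w x₀ = 1 ∧ (∀ x, ∑ y ∈ (hf x).toFinset, w y = r * w x) ∧
      r ≤ ({v | G.dist x₀ v ≤ k}.ncard : ℝ) ∧ (∀ x, ({v | G.dist x v ≤ k}.ncard : ℝ) ≤ C * r)

open Classical in
/-- CHG: the inequality of Cheeger with weights -/
def Stmt_CHG : Prop :=
  ∀ (V : Type) (G : SimpleGraph V) (hf : ∀ v, (G.neighborSet v).Finite) (w : V → ℝ) (r c : ℝ),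
    (∀ x, 0 < w x) → 0 < r → 0 ≤ c → c ≤ 1 → (∀ x, ∑ y ∈ (hf x).toFinset, w y = r * w x) →
    (∀ K : Finset V, c * r * ∑ x ∈ K, w x ^ 2 ≤
      ∑ x ∈ K, w x * ∑ y ∈ (hf x).toFinset.filter (fun y => y ∉ K), w y) →
    QB G (Real.sqrt (1 - c ^ 2) * r)

/-! ## The theorems -/

/-- MAINA: regular graphs of large degree (from WTD) -/
def Stmt_MAINA : Prop :=
  ∀ (V : Type) (G : SimpleGraph V), G.Connected → (∀ v, (G.neighborSet v).Finite) →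
    ∀ (D : ℕ) (ρ : ℝ), (∀ v, (G.neighborSet v).ncard = D) → 0 < ρ → ρ < 1 → QB G (ρ * D) →
    ∀ q : ℝ, 1 < q → 18 * max (q - 1) (1 / (q - 1)) ≤ D * (1 - ρ) ^ 3 → pc G < pqq G q

/-- MAINB: all large powers of a nonamenable quasi-transitive graph
(from WTD, BLC, EXN, PWT, CHG) -/
def Stmt_MAINB : Prop :=
  ∀ (V : Type) (G : SimpleGraph V), G.Connected → (∀ v, (G.neighborSet v).Finite) → QT G →
    (∃ c : ℝ, 0 < c ∧ ∀ K : Finset V, K.Nonempty →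
      c * (K.card : ℝ) ≤ ((bdE G (K : Set V)).ncard : ℝ)) →
    ∀ q : ℝ, 1 < q → ∃ k₀ : ℕ, ∀ k, k₀ ≤ k → ∀ H : SimpleGraph V, IsPow G H k →
      pc H < pqq H q

end Pool.L2D
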